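import Pool.Agent.Work.MP_c5a777_ag.Ident

/-!
Polynomial identities, second part: compositions. The forms are linear combinations of the
forms X, Y, W, so that the compositions reduce to identities of degree seven.
-/

namespace Pool.Agent.Work.MP_c5a777_ag

variable {R : Type*} [CommRing R]

theorem pP0_lin {ω : R} (hω : ω^2 + ω + 1 = 0) (T e0 e1 e2 : R) :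
    pP0 ω T e0 e1 e2 = (1 + 2*ω)*T*e2*pY ω T e0 e1 e2 + (1 - ω)*T*e1*pW ω T e0 e1 e2 := by
  simp only [pY, pW, pP0]
  linear_combination (
    -ω^3*T*e0^2*e1^2 - ω^2*T^2*e0*e1*e2^2 + 3*ω^2*T*e0^2*e1^2 - 2*ω*T^3*e2^4 +
    3*ω*T^2*e0*e1*e2^2 - ω*T^2*e1^3*e2 - 3*ω*T*e0^2*e1^2 + T^3*e2^4 - 3*T^2*e0*e1*e2^2 +
    T^2*e1^3*e2) * hω

theorem pP1_lin {ω : R} (hω : ω^2 + ω + 1 = 0) (T e0 e1 e2 : R) :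
    pP1 ω T e0 e1 e2 = (1 - ω)*e0*pY ω T e0 e1 e2 + (-2 - ω)*T*e2*pW ω T e0 e1 e2 := by
  simp only [pY, pW, pP1]
  linear_combination (
    -ω^3*T*e0^2*e1*e2 - ω^2*T^2*e0*e2^3 + ω*T^2*e0*e2^3 - ω*T^2*e1^2*e2^2 + 3*ω*T*e0^2*e1*e2 +
    T^2*e0*e2^3 - 3*T*e0^2*e1*e2 + T*e0*e1^3) * hω

theorem pP2_lin {ω : R} (hω : ω^2 + ω + 1 = 0) (T e0 e1 e2 : R) :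
    pP2 ω T e0 e1 e2 = (-2 - ω)*e1*pY ω T e0 e1 e2 + (1 + 2*ω)*e0*pW ω T e0 e1 e2 := by
  simp only [pY, pW, pP2]
  linear_combination (
    2*ω^3*e0^3*e1 + 2*ω^2*T*e0^2*e2^2 - 3*ω^2*e0^3*e1 + ω*T^2*e1*e2^3 - 3*ω*T*e0^2*e2^2 +
    2*ω*T*e0*e1^2*e2 + T^2*e1*e2^3 - 3*T*e0*e1^2*e2 + T*e1^4 + 3*e0^3*e1) * hω

theorem pQ0_lin {ω : R} (hω : ω^2 + ω + 1 = 0) (T e0 e1 e2 : R) :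
    pQ0 ω T e0 e1 e2 = 3*ω*T*e1*pX ω T e0 e1 e2 + 3*ω*T*e0*pW ω T e0 e1 e2 := by
  simp only [pX, pW, pQ0]
  linear_combination (
    3*ω^3*T*e0^3*e1 + 3*ω^2*T^2*e0^2*e2^2 - 6*ω^2*T*e0^3*e1 - 6*ω*T^2*e0^2*e2^2 +
    3*ω*T^2*e0*e1^2*e2 + 3*ω*T^2*e1^4 + 3*ω*T*e0^3*e1 + 3*T^3*e1*e2^3 + 3*T^2*e0^2*e2^2 -
    6*T^2*e0*e1^2*e2 - 3*T^2*e1^4 + 3*T*e0^3*e1) * hω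

theorem pQ1_lin {ω : R} (hω : ω^2 + ω + 1 = 0) (T e0 e1 e2 : R) :
    pQ1 ω T e0 e1 e2 = (-3 - 3*ω)*T*e2*pX ω T e0 e1 e2 + 3*T*e1*pW ω T e0 e1 e2 := by
  simp only [pX, pW, pQ1]
  linear_combination (
    3*ω^2*T*e0^2*e1^2 + 3*ω*T^2*e0*e1*e2^2 - 3*ω*T^2*e1^3*e2 - 6*ω*T*e0^2*e1^2 - 3*T^3*e2^4 -
    6*T^2*e0*e1*e2^2 + 3*T^2*e1^3*e2 + 3*T*e0^2*e1^2) * hω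

theorem pQ2_lin {ω : R} (hω : ω^2 + ω + 1 = 0) (T e0 e1 e2 : R) :
    pQ2 ω T e0 e1 e2 = 3*e0*pX ω T e0 e1 e2 + (-3 - 3*ω)*T*e2*pW ω T e0 e1 e2 := by
  simp only [pX, pW, pQ2]
  linear_combination (
    -3*ω^3*T*e0^2*e1*e2 - 3*ω^2*T^2*e0*e2^3 + 3*ω^2*T*e0^2*e1*e2 + 3*ω*T^2*e0*e2^3 -
    3*ω*T^2*e1^2*e2^2 + 3*ω*T*e0^2*e1*e2 + 3*T^2*e0*e2^3 + 3*T^2*e1^2*e2^2 - 6*T*e0^2*e1*e2 +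
    3*T*e0*e1^3) * hω

theorem pP0_aux {ω : R} (hω : ω^2 + ω + 1 = 0) (T e0 e1 e2 : R) :
    T*((1 + 2*ω)*pP2 ω T e0 e1 e2*pY ω T e0 e1 e2 + (1 - ω)*ω*pP1 ω T e0 e1 e2*pW ω T e0 e1 e2) =
      pN T e0 e1 e2*pQ0 ω T e0 e1 e2 := by
  simp only [pP1, pP2, pY, pW, pN, pQ0]
  linear_combination (
    2*ω^5*T^3*e0^3*e1*e2^3 - 3*ω^5*T^3*e0^2*e1^3*e2^2 + 2*ω^5*T^2*e0^3*e1^4 - ω^5*T*e0^6*e1 +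
    2*ω^4*T^4*e0^2*e2^5 - 3*ω^4*T^4*e0*e1^2*e2^4 - 5*ω^4*T^3*e0^3*e1*e2^3 +
    11*ω^4*T^3*e0^2*e1^3*e2^2 - ω^4*T^2*e0^5*e2^2 - 3*ω^4*T^2*e0^4*e1^2*e2 -
    5*ω^4*T^2*e0^3*e1^4 + 4*ω^4*T*e0^6*e1 - 5*ω^3*T^4*e0^2*e2^5 + 11*ω^3*T^4*e0*e1^2*e2^4 -
    3*ω^3*T^4*e1^4*e2^3 - 14*ω^3*T^3*e0^2*e1^3*e2^2 + 2*ω^3*T^3*e0*e1^5*e2 +
    4*ω^3*T^2*e0^5*e2^2 + 8*ω^3*T^2*e0^4*e1^2*e2 + 3*ω^3*T^2*e0^3*e1^4 - 6*ω^3*T*e0^6*e1 +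
    4*ω^2*T^5*e1*e2^6 - 3*ω^2*T^4*e0^2*e2^5 - 14*ω^2*T^4*e0*e1^2*e2^4 + 7*ω^2*T^4*e1^4*e2^3 +
    16*ω^2*T^3*e0^3*e1*e2^3 - 5*ω^2*T^3*e0*e1^5*e2 - 6*ω^2*T^2*e0^5*e2^2 -
    5*ω^2*T^2*e0^4*e1^2*e2 + 3*ω^2*T^2*e0^3*e1^4 + 3*ω^2*T*e0^6*e1 + 6*ω*T^4*e0^2*e2^5 -
    3*ω*T^4*e0*e1^2*e2^4 - 2*ω*T^4*e1^4*e2^3 - 15*ω*T^3*e0^3*e1*e2^3 + 15*ω*T^3*e0^2*e1^3*e2^2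
    + 3*ω*T^3*e0*e1^5*e2 - 2*ω*T^3*e1^7 + 3*ω*T^2*e0^5*e2^2 - 6*ω*T^2*e0^4*e1^2*e2 -
    2*ω*T^2*e0^3*e1^4 + 3*ω*T*e0^6*e1 - 3*T^5*e1*e2^6 - 3*T^4*e0^2*e2^5 + 15*T^4*e0*e1^2*e2^4 +
    4*T^3*e0^3*e1*e2^3 - 21*T^3*e0^2*e1^3*e2^2 - 3*T^3*e0*e1^5*e2 + 3*T^3*e1^7 -
    3*T^2*e0^5*e2^2 + 12*T^2*e0^4*e1^2*e2 + T^2*e0^3*e1^4 - 2*T*e0^6*e1) * hω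

theorem pP1_aux {ω : R} (hω : ω^2 + ω + 1 = 0) (T e0 e1 e2 : R) :
    (1 - ω)*pP0 ω T e0 e1 e2*pY ω T e0 e1 e2 + (-2 - ω)*ω*T*pP2 ω T e0 e1 e2*pW ω T e0 e1 e2 =
      pN T e0 e1 e2*pQ1 ω T e0 e1 e2 := by
  simp only [pP0, pP2, pY, pW, pN, pQ1]
  linear_combination (
    2*ω^5*T^3*e0^2*e1^2*e2^3 - 3*ω^5*T^2*e0^4*e1*e2^2 - ω^5*T^2*e0^2*e1^5 + 2*ω^5*T*e0^5*e1^2 +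
    2*ω^4*T^4*e0*e1*e2^5 - 3*ω^4*T^3*e0^3*e2^4 + ω^4*T^3*e0^2*e1^2*e2^3 - ω^4*T^3*e0*e1^4*e2^2
    + 2*ω^4*T^2*e0^4*e1*e2^2 - 3*ω^4*T^2*e0^3*e1^3*e2 + ω^4*T^2*e0^2*e1^5 + ω^4*T*e0^5*e1^2 +
    ω^3*T^4*e0*e1*e2^5 + 2*ω^3*T^4*e1^3*e2^4 - 12*ω^3*T^3*e0^2*e1^2*e2^3 + ω^3*T^3*e0*e1^4*e2^2
    - ω^3*T^3*e1^6*e2 + 10*ω^3*T^2*e0^4*e1*e2^2 + 2*ω^3*T^2*e0^3*e1^3*e2 + 3*ω^3*T^2*e0^2*e1^5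
    - 6*ω^3*T*e0^5*e1^2 + ω^2*T^5*e2^7 - 6*ω^2*T^4*e0*e1*e2^5 - ω^2*T^4*e1^3*e2^4 +
    7*ω^2*T^3*e0^3*e2^4 + 6*ω^2*T^3*e0^2*e1^2*e2^3 + ω^2*T^3*e1^6*e2 - 15*ω^2*T^2*e0^4*e1*e2^2
    + 10*ω^2*T^2*e0^3*e1^3*e2 - 6*ω^2*T^2*e0^2*e1^5 + 3*ω^2*T*e0^5*e1^2 - 3*ω*T^5*e2^7 +
    6*ω*T^4*e0*e1*e2^5 - 2*ω*T^4*e1^3*e2^4 - 6*ω*T^3*e0^3*e2^4 + 15*ω*T^3*e0^2*e1^2*e2^3 -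
    6*ω*T^3*e0*e1^4*e2^2 + ω*T^3*e1^6*e2 + 3*ω*T^2*e0^4*e1*e2^2 - 17*ω*T^2*e0^3*e1^3*e2 +
    6*ω*T^2*e0^2*e1^5 + 3*ω*T*e0^5*e1^2 + 3*T^5*e2^7 - 3*T^4*e0*e1*e2^5 + T^3*e0^3*e2^4 -
    21*T^3*e0^2*e1^2*e2^3 + 15*T^3*e0*e1^4*e2^2 - 3*T^3*e1^6*e2 + 12*T^2*e0^4*e1*e2^2 +
    4*T^2*e0^3*e1^3*e2 - 3*T^2*e0^2*e1^5 - 2*T*e0^6*e2 - 3*T*e0^5*e1^2) * hω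

theorem pP2_aux {ω : R} (hω : ω^2 + ω + 1 = 0) (T e0 e1 e2 : R) :
    (-2 - ω)*pP1 ω T e0 e1 e2*pY ω T e0 e1 e2 + (1 + 2*ω)*ω*pP0 ω T e0 e1 e2*pW ω T e0 e1 e2 =
      pN T e0 e1 e2*pQ2 ω T e0 e1 e2 := by
  simp only [pP0, pP1, pY, pW, pN, pQ2]
  linear_combination (
    2*ω^5*T^3*e0^2*e1*e2^4 - 4*ω^5*T^2*e0^2*e1^4*e2 - 4*ω^5*T*e0^5*e1*e2 + 6*ω^5*T*e0^4*e1^3 +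
    2*ω^4*T^4*e0*e2^6 - 5*ω^4*T^3*e0^2*e1*e2^4 - 4*ω^4*T^3*e0*e1^3*e2^3 - 4*ω^4*T^2*e0^4*e2^3 +
    12*ω^4*T^2*e0^3*e1^2*e2^2 + 4*ω^4*T^2*e0^2*e1^4*e2 + 4*ω^4*T*e0^5*e1*e2 - 9*ω^4*T*e0^4*e1^3
    - 5*ω^3*T^4*e0*e2^6 + 2*ω^3*T^4*e1^2*e2^5 + 9*ω^3*T^3*e0^2*e1*e2^4 + 4*ω^3*T^3*e0*e1^3*e2^3
    - 4*ω^3*T^3*e1^5*e2^2 + 4*ω^3*T^2*e0^4*e2^3 - 22*ω^3*T^2*e0^3*e1^2*e2^2 +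
    9*ω^3*T^2*e0^2*e1^4*e2 + 3*ω^3*T*e0^5*e1*e2 + ω^2*T^4*e0*e2^6 - 2*ω^2*T^4*e1^2*e2^5 -
    6*ω^2*T^3*e0^2*e1*e2^4 + 7*ω^2*T^3*e0*e1^3*e2^3 + 4*ω^2*T^3*e1^5*e2^2 + 4*ω^2*T^2*e0^4*e2^3
    + 4*ω^2*T^2*e0^3*e1^2*e2^2 - 15*ω^2*T^2*e0^2*e1^4*e2 - 6*ω^2*T*e0^5*e1*e2 +
    9*ω^2*T*e0^4*e1^3 + 6*ω*T^4*e1^2*e2^5 - 3*ω*T^3*e0^2*e1*e2^4 - 20*ω*T^3*e0*e1^3*e2^3 +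
    6*ω*T^3*e1^5*e2^2 - 6*ω*T^2*e0^4*e2^3 + 21*ω*T^2*e0^3*e1^2*e2^2 + 3*ω*T^2*e0^2*e1^4*e2 -
    2*ω*T^2*e0*e1^6 + 3*ω*T*e0^5*e1*e2 - 8*ω*T*e0^4*e1^3 - 3*T^4*e0*e2^6 - 3*T^4*e1^2*e2^5 +
    15*T^3*e0^2*e1*e2^4 + 3*T^3*e0*e1^3*e2^3 - 3*T^3*e1^5*e2^2 - 2*T^2*e0^4*e2^3 -
    21*T^2*e0^3*e1^2*e2^2 + 15*T^2*e0^2*e1^4*e2 - 3*T^2*e0*e1^6 + 3*T*e0^5*e1*e2 -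
    2*T*e0^4*e1^3 + e0^7) * hω

theorem pQ0_aux {ω : R} (hω : ω^2 + ω + 1 = 0) (T e0 e1 e2 : R) :
    3*ω*ω*T*pP1 ω T e0 e1 e2*pX ω T e0 e1 e2 + 3*ω*ω*T*pP0 ω T e0 e1 e2*pW ω T e0 e1 e2 =
      T*pK ω T e0 e1 e2*e0 := by
  simp only [pP0, pP1, pX, pW, pK]
  linear_combination (
    3*ω^5*T^4*e0^2*e1*e2^4 - 6*ω^5*T^3*e0^2*e1^4*e2 - 6*ω^5*T^2*e0^5*e1*e2 +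
    9*ω^5*T^2*e0^4*e1^3 + 3*ω^4*T^5*e0*e2^6 - 9*ω^4*T^4*e0^2*e1*e2^4 - 6*ω^4*T^4*e0*e1^3*e2^3 -
    6*ω^4*T^3*e0^4*e2^3 + 18*ω^4*T^3*e0^3*e1^2*e2^2 + 9*ω^4*T^3*e0^2*e1^4*e2 +
    9*ω^4*T^2*e0^5*e1*e2 - 18*ω^4*T^2*e0^4*e1^3 - 9*ω^3*T^5*e0*e2^6 + 3*ω^3*T^5*e1^2*e2^5 +
    18*ω^3*T^4*e0^2*e1*e2^4 + 3*ω^3*T^4*e0*e1^3*e2^3 + 3*ω^3*T^4*e1^5*e2^2 +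
    9*ω^3*T^3*e0^4*e2^3 - 42*ω^3*T^3*e0^3*e1^2*e2^2 + 9*ω^3*T^3*e0^2*e1^4*e2 -
    6*ω^3*T^3*e0*e1^6 + 12*ω^3*T^2*e0^4*e1^3 + 3*ω^2*T^5*e0*e2^6 - 18*ω^2*T^4*e0^2*e1*e2^4 +
    6*ω^2*T^4*e0*e1^3*e2^3 + 3*ω^2*T^3*e0^4*e2^3 + 27*ω^2*T^3*e0^3*e1^2*e2^2 -
    18*ω^2*T^3*e0^2*e1^4*e2 + 3*ω^2*T^3*e0*e1^6 - 9*ω^2*T^2*e0^5*e1*e2 + 3*ω^2*T^2*e0^4*e1^3 +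
    3*ω*T^5*e0*e2^6 + 9*ω*T^4*e0^2*e1*e2^4 - 21*ω*T^4*e0*e1^3*e2^3 - 21*ω*T^3*e0^4*e2^3 +
    27*ω*T^3*e0^3*e1^2*e2^2 + 9*ω*T^3*e0^2*e1^4*e2 + 3*ω*T^3*e0*e1^6 + 9*ω*T^2*e0^5*e1*e2 -
    21*ω*T^2*e0^4*e1^3 + 3*ω*T*e0^7 - 6*T^5*e0*e2^6 + 9*T^4*e0^2*e1*e2^4 + 15*T^4*e0*e1^3*e2^3
    + 15*T^3*e0^4*e2^3 - 54*T^3*e0^3*e1^2*e2^2 + 9*T^3*e0^2*e1^4*e2 - 6*T^3*e0*e1^6 +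
    9*T^2*e0^5*e1*e2 + 15*T^2*e0^4*e1^3 - 6*T*e0^7) * hω

theorem pQ1_aux {ω : R} (hω : ω^2 + ω + 1 = 0) (T e0 e1 e2 : R) :
    (-3 - 3*ω)*ω*T*pP2 ω T e0 e1 e2*pX ω T e0 e1 e2 + 3*ω*T*pP1 ω T e0 e1 e2*pW ω T e0 e1 e2 =
      T*pK ω T e0 e1 e2*e1 := by
  simp only [pP1, pP2, pX, pW, pK]
  linear_combination (
    -6*ω^4*T^3*e0^3*e1*e2^3 + 9*ω^4*T^3*e0^2*e1^3*e2^2 - 6*ω^4*T^2*e0^3*e1^4 + 3*ω^4*T*e0^6*e1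
    - 6*ω^3*T^4*e0^2*e2^5 + 9*ω^3*T^4*e0*e1^2*e2^4 + 6*ω^3*T^4*e1^4*e2^3 +
    9*ω^3*T^3*e0^3*e1*e2^3 - 33*ω^3*T^3*e0^2*e1^3*e2^2 - 3*ω^3*T^3*e1^7 + 3*ω^3*T^2*e0^5*e2^2 +
    9*ω^3*T^2*e0^4*e1^2*e2 + 15*ω^3*T^2*e0^3*e1^4 - 9*ω^3*T*e0^6*e1 + 6*ω^2*T^5*e1*e2^6 -
    24*ω^2*T^4*e0*e1^2*e2^4 + 9*ω^2*T^4*e1^4*e2^3 + 15*ω^2*T^3*e0^3*e1*e2^3 +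
    18*ω^2*T^3*e0^2*e1^3*e2^2 - 15*ω^2*T^3*e0*e1^5*e2 + 3*ω^2*T^3*e1^7 - 9*ω^2*T^2*e0^5*e2^2 -
    15*ω^2*T^2*e0^4*e1^2*e2 + 3*ω^2*T^2*e0^3*e1^4 + 9*ω^2*T*e0^6*e1 + 3*ω*T^5*e1*e2^6 +
    9*ω*T^4*e0*e1^2*e2^4 - 21*ω*T^4*e1^4*e2^3 - 18*ω*T^3*e0^3*e1*e2^3 + 27*ω*T^3*e0^2*e1^3*e2^2
    + 9*ω*T^3*e0*e1^5*e2 + 3*ω*T^3*e1^7 - 18*ω*T^2*e0^3*e1^4 + 6*ω*T*e0^6*e1 - 6*T^5*e1*e2^6 +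
    9*T^4*e0*e1^2*e2^4 + 15*T^4*e1^4*e2^3 + 15*T^3*e0^3*e1*e2^3 - 54*T^3*e0^2*e1^3*e2^2 +
    9*T^3*e0*e1^5*e2 - 6*T^3*e1^7 + 9*T^2*e0^4*e1^2*e2 + 15*T^2*e0^3*e1^4 - 6*T*e0^6*e1) * hω

theorem pQ2_aux {ω : R} (hω : ω^2 + ω + 1 = 0) (T e0 e1 e2 : R) :
    3*ω*pP0 ω T e0 e1 e2*pX ω T e0 e1 e2 + (-3 - 3*ω)*ω*T*pP2 ω T e0 e1 e2*pW ω T e0 e1 e2 =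
      T*pK ω T e0 e1 e2*e2 := by
  simp only [pP0, pP2, pX, pW, pK]
  linear_combination (
    6*ω^5*T^3*e0^2*e1^2*e2^3 - 9*ω^5*T^2*e0^4*e1*e2^2 - 3*ω^5*T^2*e0^2*e1^5 + 6*ω^5*T*e0^5*e1^2
    + 6*ω^4*T^4*e0*e1*e2^5 - 9*ω^4*T^3*e0^3*e2^4 - 3*ω^4*T^3*e0^2*e1^2*e2^3 -
    3*ω^4*T^3*e0*e1^4*e2^2 + 15*ω^4*T^2*e0^4*e1*e2^2 - 9*ω^4*T^2*e0^3*e1^3*e2 +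
    6*ω^4*T^2*e0^2*e1^5 - 3*ω^4*T*e0^5*e1^2 - 3*ω^3*T^4*e0*e1*e2^5 + 6*ω^3*T^4*e1^3*e2^4 +
    9*ω^3*T^3*e0^3*e2^4 - 27*ω^3*T^3*e0^2*e1^2*e2^3 + 6*ω^3*T^3*e0*e1^4*e2^2 -
    3*ω^3*T^3*e1^6*e2 + 6*ω^3*T^2*e0^4*e1*e2^2 + 15*ω^3*T^2*e0^3*e1^3*e2 - 9*ω^3*T*e0^5*e1^2 -
    9*ω^2*T^4*e0*e1*e2^5 + 9*ω^2*T^3*e0^3*e2^4 + 27*ω^2*T^3*e0^2*e1^2*e2^3 -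
    9*ω^2*T^3*e0*e1^4*e2^2 - 27*ω^2*T^2*e0^4*e1*e2^2 + 9*ω^2*T*e0^5*e1^2 + 3*ω*T^5*e2^7 +
    9*ω*T^4*e0*e1*e2^5 - 21*ω*T^4*e1^3*e2^4 - 24*ω*T^3*e0^3*e2^4 + 27*ω*T^3*e0^2*e1^2*e2^3 +
    9*ω*T^3*e0*e1^4*e2^2 + 3*ω*T^3*e1^6*e2 + 18*ω*T^2*e0^4*e1*e2^2 - 24*ω*T^2*e0^3*e1^3*e2 -
    6*T^5*e2^7 + 9*T^4*e0*e1*e2^5 + 15*T^4*e1^3*e2^4 + 15*T^3*e0^3*e2^4 - 54*T^3*e0^2*e1^2*e2^3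
    + 9*T^3*e0*e1^4*e2^2 - 6*T^3*e1^6*e2 + 9*T^2*e0^4*e1*e2^2 + 15*T^2*e0^3*e1^3*e2 -
    6*T*e0^6*e2) * hω

theorem pT_aux {ω : R} (hω : ω^2 + ω + 1 = 0) (T e0 e1 e2 : R) :
    27*(pP0 ω T e0 e1 e2*pP1 ω T e0 e1 e2*pP2 ω T e0 e1 e2) + 3*(1 - ω)*pN T e0 e1 e2^2*pC ω T e0 e1 e2 =
      -pK ω T e0 e1 e2^2 := by
  simp only [pP0, pP1, pP2, pN, pC, pK]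
  linear_combination (
    -108*ω*T^7*e0*e1*e2^10 + 162*ω*T^7*e1^3*e2^9 + 162*ω*T^6*e0^3*e2^9 -
    243*ω*T^6*e0^2*e1^2*e2^8 + 162*ω*T^6*e0*e1^4*e2^7 - 405*ω*T^6*e1^6*e2^6 +
    162*ω*T^5*e0^4*e1*e2^7 - 648*ω*T^5*e0^3*e1^3*e2^6 + 972*ω*T^5*e0^2*e1^5*e2^5 +
    162*ω*T^5*e0*e1^7*e2^4 + 162*ω*T^5*e1^9*e2^3 - 405*ω*T^4*e0^6*e2^6 +
    972*ω*T^4*e0^5*e1^2*e2^5 - 648*ω*T^4*e0^4*e1^4*e2^4 - 648*ω*T^4*e0^3*e1^6*e2^3 -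
    243*ω*T^4*e0^2*e1^8*e2^2 - 108*ω*T^4*e0*e1^10*e2 + 162*ω*T^3*e0^7*e1*e2^4 -
    648*ω*T^3*e0^6*e1^3*e2^3 + 972*ω*T^3*e0^5*e1^5*e2^2 + 162*ω*T^3*e0^4*e1^7*e2 +
    162*ω*T^3*e0^3*e1^9 + 162*ω*T^2*e0^9*e2^3 - 243*ω*T^2*e0^8*e1^2*e2^2 +
    162*ω*T^2*e0^7*e1^4*e2 - 405*ω*T^2*e0^6*e1^6 - 108*ω*T*e0^10*e1*e2 + 162*ω*T*e0^9*e1^3 +
    27*T^8*e2^12 - 54*T^7*e0*e1*e2^10 - 216*T^7*e1^3*e2^9 - 216*T^6*e0^3*e2^9 +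
    729*T^6*e0^2*e1^2*e2^8 + 324*T^6*e0*e1^4*e2^7 + 243*T^6*e1^6*e2^6 + 324*T^5*e0^4*e1*e2^7 -
    1296*T^5*e0^3*e1^3*e2^6 - 1458*T^5*e0^2*e1^5*e2^5 + 324*T^5*e0*e1^7*e2^4 -
    216*T^5*e1^9*e2^3 + 243*T^4*e0^6*e2^6 - 1458*T^4*e0^5*e1^2*e2^5 + 4779*T^4*e0^4*e1^4*e2^4 -
    1296*T^4*e0^3*e1^6*e2^3 + 729*T^4*e0^2*e1^8*e2^2 - 54*T^4*e0*e1^10*e2 + 27*T^4*e1^12 +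
    324*T^3*e0^7*e1*e2^4 - 1296*T^3*e0^6*e1^3*e2^3 - 1458*T^3*e0^5*e1^5*e2^2 +
    324*T^3*e0^4*e1^7*e2 - 216*T^3*e0^3*e1^9 - 216*T^2*e0^9*e2^3 + 729*T^2*e0^8*e1^2*e2^2 +
    324*T^2*e0^7*e1^4*e2 + 243*T^2*e0^6*e1^6 - 54*T*e0^10*e1*e2 - 216*T*e0^9*e1^3 + 27*e0^12) * hω

theorem pT_lin (ω T e0 e1 e2 : R) :
    pT ω T e0 e1 e2 = 3*(1 - ω)*pN T e0 e1 e2 + 27*T*(e0*e1*e2) := by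
  simp only [pT, pN]
  ring

theorem pT_P {ω : R} (hω : ω^2 + ω + 1 = 0) (T e0 e1 e2 : R) :
    pT ω T (pP0 ω T e0 e1 e2) (pP1 ω T e0 e1 e2) (pP2 ω T e0 e1 e2) =
      -T * pK ω T e0 e1 e2 ^ 2 := by
  rw [pT_lin ω T (pP0 ω T e0 e1 e2) (pP1 ω T e0 e1 e2) (pP2 ω T e0 e1 e2), pN_P hω]
  linear_combination T * pT_aux hω T e0 e1 e2

theorem pP0_P {ω : R} (hω : ω^2 + ω + 1 = 0) (T e0 e1 e2 : R) :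
    pP0 ω T (pP0 ω T e0 e1 e2) (pP1 ω T e0 e1 e2) (pP2 ω T e0 e1 e2) =
      T * pN T e0 e1 e2 ^ 2 * pK ω T e0 e1 e2 * pQ0 ω T e0 e1 e2 := by
  rw [pP0_lin hω T (pP0 ω T e0 e1 e2) (pP1 ω T e0 e1 e2) (pP2 ω T e0 e1 e2), pY_P hω, pW_P hω]
  linear_combination T * pN T e0 e1 e2 * pK ω T e0 e1 e2 * pP0_aux hω T e0 e1 e2

theorem pQ0_P {ω : R} (hω : ω^2 + ω + 1 = 0) (T e0 e1 e2 : R) :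
    pQ0 ω T (pP0 ω T e0 e1 e2) (pP1 ω T e0 e1 e2) (pP2 ω T e0 e1 e2) =
      T^2 * pN T e0 e1 e2 * pK ω T e0 e1 e2 ^ 2 * e0 := by
  rw [pQ0_lin hω T (pP0 ω T e0 e1 e2) (pP1 ω T e0 e1 e2) (pP2 ω T e0 e1 e2), pX_P hω, pW_P hω]
  linear_combination T * pN T e0 e1 e2 * pK ω T e0 e1 e2 * pQ0_aux hω T e0 e1 e2

theorem pP1_P {ω : R} (hω : ω^2 + ω + 1 = 0) (T e0 e1 e2 : R) :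
    pP1 ω T (pP0 ω T e0 e1 e2) (pP1 ω T e0 e1 e2) (pP2 ω T e0 e1 e2) =
      T * pN T e0 e1 e2 ^ 2 * pK ω T e0 e1 e2 * pQ1 ω T e0 e1 e2 := by
  rw [pP1_lin hω T (pP0 ω T e0 e1 e2) (pP1 ω T e0 e1 e2) (pP2 ω T e0 e1 e2), pY_P hω, pW_P hω]
  linear_combination T * pN T e0 e1 e2 * pK ω T e0 e1 e2 * pP1_aux hω T e0 e1 e2

theorem pQ1_P {ω : R} (hω : ω^2 + ω + 1 = 0) (T e0 e1 e2 : R) :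
    pQ1 ω T (pP0 ω T e0 e1 e2) (pP1 ω T e0 e1 e2) (pP2 ω T e0 e1 e2) =
      T^2 * pN T e0 e1 e2 * pK ω T e0 e1 e2 ^ 2 * e1 := by
  rw [pQ1_lin hω T (pP0 ω T e0 e1 e2) (pP1 ω T e0 e1 e2) (pP2 ω T e0 e1 e2), pX_P hω, pW_P hω]
  linear_combination T * pN T e0 e1 e2 * pK ω T e0 e1 e2 * pQ1_aux hω T e0 e1 e2

theorem pP2_P {ω : R} (hω : ω^2 + ω + 1 = 0) (T e0 e1 e2 : R) :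
    pP2 ω T (pP0 ω T e0 e1 e2) (pP1 ω T e0 e1 e2) (pP2 ω T e0 e1 e2) =
      T * pN T e0 e1 e2 ^ 2 * pK ω T e0 e1 e2 * pQ2 ω T e0 e1 e2 := by
  rw [pP2_lin hω T (pP0 ω T e0 e1 e2) (pP1 ω T e0 e1 e2) (pP2 ω T e0 e1 e2), pY_P hω, pW_P hω]
  linear_combination T * pN T e0 e1 e2 * pK ω T e0 e1 e2 * pP2_aux hω T e0 e1 e2

theorem pQ2_P {ω : R} (hω : ω^2 + ω + 1 = 0) (T e0 e1 e2 : R) :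
    pQ2 ω T (pP0 ω T e0 e1 e2) (pP1 ω T e0 e1 e2) (pP2 ω T e0 e1 e2) =
      T^2 * pN T e0 e1 e2 * pK ω T e0 e1 e2 ^ 2 * e2 := by
  rw [pQ2_lin hω T (pP0 ω T e0 e1 e2) (pP1 ω T e0 e1 e2) (pP2 ω T e0 e1 e2), pX_P hω, pW_P hω]
  linear_combination T * pN T e0 e1 e2 * pK ω T e0 e1 e2 * pQ2_aux hω T e0 e1 e2

end Pool.Agent.Work.MP_c5a777_ag
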