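import Pool.Agent.Work.MP_c5a777_ag.Bd.B04

/-!
The polynomials `gP0` and `gQ0` are irreducible up to constants.
-/

open Polynomial

namespace Pool.Agent.Work.MP_c5a777_ag

section T3c

variable {K : Type*} [Field K] {ω T : K}

theorem two_omega_ne (hω : ω ^ 2 + ω + 1 = 0) (h3 : (3 : K) ≠ 0) : 2 * ω + 1 ≠ 0 := by
  intro h
  apply h3
  linear_combination (-(2 * ω + 1)) * h + 4 * hω

theorem one_sub_omega_ne (hω : ω ^ 2 + ω + 1 = 0) (h3 : (3 : K) ≠ 0) : 1 - ω ≠ 0 := by
  intro h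
  apply h3
  linear_combination (ω + 2) * h + hω

theorem omega_ne (hω : ω ^ 2 + ω + 1 = 0) : ω ≠ 0 := by
  intro h
  rw [h] at hω
  norm_num at hω

/-- an element of degree zero is a constant -/
theorem const_of_natDegree_eq_zero {a : K[X][X]} (ha : a ≠ 0) (h : (phi a).natDegree = 0) :
    ∃ k : K, k ≠ 0 ∧ a = cc k := by
  obtain ⟨k0, k1, k2, h1, h2⟩ := linear_of_natDegree_le_one (a := a) (by omega)
  have h3 : (phi a).coeff 1 = 0 := coeff_eq_zero_of_natDegree_lt (by omega)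
  rw [h3] at h2
  have h4 : k1 = 0 := by
    have := congrArg (fun p => coeff p 1) h2
    simpa using this.symm
  have h5 : k2 = 0 := by
    have := congrArg (fun p => coeff p 0) h2
    simpa using this.symm
  rw [h4, h5] at h1
  simp only [map_zero, zero_mul, add_zero] at h1
  refine ⟨k0, ?_, h1⟩
  intro h6
  rw [h6, map_zero] at h1
  exact ha h1

theorem coeff_two_cubic {R : Type*} [Semiring R] (a b c d : R) :
    (C a + C b * X + C c * X ^ 2 + C d * X ^ 3 : R[X]).coeff 2 = c := by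
  simp [coeff_X_pow]

theorem coeff_two_gP0 (ω T : K) : (gP0 ω T).coeff 2 = C (-(3 * ω * T)) := by
  have h : gP0 ω T = C (C (T ^ 3) * X ^ 4 + C (T) * X + C ω * (-C (T ^ 3) * X ^ 4
      + C (2 * T) * X)) + C (-(C (3 * T ^ 2) * X ^ 2)) * X
      + C (C (-(3 * ω * T))) * X ^ 2 + C (C (T ^ 2) * X + C ω * (C (2 * T ^ 2) * X)) * X ^ 3 := by
    unfold gP0 pP0 cc
    simp only [RingHom.comp_apply, map_add, map_mul, map_neg, map_pow, map_ofNat]
    ring
  rw [h]
  exact coeff_two_cubic _ _ _ _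

theorem eval_gQ0 (ω T c : K) : ((gQ0 ω T).eval (C c)).coeff 2 = 3 * (1 - ω) * T ^ 2 := by
  have h : (gQ0 ω T).eval (C c) =
      C (-(3 * T ^ 2 * c ^ 4) + 3 * T * c + 3 * ω * T * c)
      + C (-(6 * T ^ 2 * c ^ 2) - 3 * ω * T ^ 2 * c ^ 2) * X
      + C (3 * (1 - ω) * T ^ 2) * X ^ 2 + C (3 * T ^ 3 * c * (1 + ω)) * X ^ 3 := by
    unfold gQ0 pQ0 cc
    simp only [RingHom.comp_apply, map_add, map_mul, map_neg, map_pow, map_ofNat, map_one,
      map_sub, eval_add, eval_mul, eval_C, eval_X, eval_pow, eval_sub, eval_ofNat,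
      eval_one]
    ring
  rw [h]
  exact coeff_two_cubic _ _ _ _

theorem gP0_aux (hω : ω ^ 2 + ω + 1 = 0) (h3 : (3 : K) ≠ 0) (hT : T ≠ 0)
    {π π' : K[X][X]} (h : π * π' = gP0 ω T)
    (hle : (phi π).natDegree ≤ 1) (hE : (phi π).leadingCoeff.natDegree = 0) :
    ∃ k : K, k ≠ 0 ∧ π = cc k := by
  have hD := (phi_gP0 hω h3 hT).1
  have hP : gP0 ω T ≠ 0 := by
    intro h0
    rw [h0, map_zero] at hD
    simp at hD
  have hπ : π ≠ 0 := by
    rintro rfl
    rw [zero_mul] at h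
    exact hP h.symm
  obtain ⟨k0, k1, k2, h1, h2⟩ := linear_of_natDegree_le_one hle
  rcases Nat.lt_or_ge (phi π).natDegree 1 with h0 | h0
  · exact const_of_natDegree_eq_zero hπ (by omega)
  · have hd1 : (phi π).natDegree = 1 := le_antisymm hle h0
    have hk1 : k1 = 0 := by
      by_contra hne
      rw [leadingCoeff, hd1, h2] at hE
      rw [natDegree_linear hne] at hE
      omega
    have hπC : π = C (C k0 + C k2 * X) := by
      rw [h1, hk1]
      simp [cc]
    have hdvd : (C (C k0 + C k2 * X) : K[X][X]) ∣ gP0 ω T := by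
      rw [← hπC]
      exact ⟨π', h.symm⟩
    rw [C_dvd_iff_dvd_coeff] at hdvd
    have h4 := hdvd 2
    rw [coeff_two_gP0] at h4
    have hu : IsUnit (C (-(3 * ω * T)) : K[X]) := by
      rw [isUnit_C]
      exact isUnit_iff_ne_zero.mpr (neg_ne_zero.mpr
        (mul_ne_zero (mul_ne_zero h3 (omega_ne hω)) hT))
    have h5 : IsUnit (C k0 + C k2 * X : K[X]) := isUnit_of_dvd_unit h4 hu
    have h6 : k2 = 0 := by
      by_contra hne
      have h7 := natDegree_eq_zero_of_isUnit h5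
      rw [add_comm, natDegree_linear hne] at h7
      omega
    have h8 : π = cc k0 := by
      rw [h1, hk1, h6]
      simp
    refine ⟨k0, ?_, h8⟩
    intro h9
    rw [h9, map_zero] at h8
    exact hπ h8

/-- T3c: `gP0` is irreducible up to constants -/
theorem dvd_gP0 (hω : ω ^ 2 + ω + 1 = 0) (h3 : (3 : K) ≠ 0) (hT : T ≠ 0)
    (hcube : ∀ b : K, b ^ 3 ≠ -ω ^ 2 * T) {π π' : K[X][X]} (h : π * π' = gP0 ω T) :
    (∃ k : K, k ≠ 0 ∧ π = cc k) ∨ (∃ k : K, k ≠ 0 ∧ π' = cc k) := by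
  obtain ⟨hD, hlc⟩ := phi_gP0 hω h3 hT
  have hP : gP0 ω T ≠ 0 := by
    intro h0
    rw [h0, map_zero] at hD
    simp at hD
  have hπ : π ≠ 0 := by
    rintro rfl
    rw [zero_mul] at h
    exact hP h.symm
  have hπ' : π' ≠ 0 := by
    rintro rfl
    rw [mul_zero] at h
    exact hP h.symm
  have hφ : phi π ≠ 0 := fun h0 => hπ (phi_injective (h0.trans (map_zero _).symm))
  have hφ' : phi π' ≠ 0 := fun h0 => hπ' (phi_injective (h0.trans (map_zero _).symm))
  have hmul : phi π * phi π' = phi (gP0 ω T) := by rw [← map_mul, h]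
  have hsum : (phi π).natDegree + (phi π').natDegree = 4 := by
    rw [← natDegree_mul hφ hφ', hmul, hD]
  have hlcm : (phi π).leadingCoeff * (phi π').leadingCoeff =
      C ((2 * ω + 1) * T ^ 2) * (X ^ 3 - C (-ω ^ 2 * T)) := by
    rw [← leadingCoeff_mul, hmul, hlc]
  have hirr : Irreducible (X ^ 3 - C (-ω ^ 2 * T) : K[X]) :=
    X_pow_sub_C_irreducible_of_prime Nat.prime_three hcube
  have hc : (2 * ω + 1) * T ^ 2 ≠ 0 := mul_ne_zero (two_omega_ne hω h3) (pow_ne_zero 2 hT)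
  have hirr2 : Irreducible (C ((2 * ω + 1) * T ^ 2) * (X ^ 3 - C (-ω ^ 2 * T)) : K[X]) :=
    (irreducible_isUnit_mul (isUnit_C.mpr (isUnit_iff_ne_zero.mpr hc))).mpr hirr
  have hdeg : (C ((2 * ω + 1) * T ^ 2) * (X ^ 3 - C (-ω ^ 2 * T)) : K[X]).natDegree = 3 := by
    rw [natDegree_C_mul hc, natDegree_X_pow_sub_C]
  have hl : (phi π).leadingCoeff ≠ 0 := leadingCoeff_ne_zero.mpr hφ
  have hl' : (phi π').leadingCoeff ≠ 0 := leadingCoeff_ne_zero.mpr hφ'
  have hEsum : (phi π).leadingCoeff.natDegree + (phi π').leadingCoeff.natDegree = 3 := by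
    rw [← natDegree_mul hl hl', hlcm, hdeg]
  have hle := natDegree_lc_le π
  have hle' := natDegree_lc_le π'
  rcases hirr2.isUnit_or_isUnit hlcm.symm with hu | hu
  · left
    have hE := natDegree_eq_zero_of_isUnit hu
    exact gP0_aux hω h3 hT h (by omega) hE
  · right
    have hE := natDegree_eq_zero_of_isUnit hu
    exact gP0_aux hω h3 hT ((mul_comm _ _).trans h) (by omega) hE

theorem gQ0_aux (hω : ω ^ 2 + ω + 1 = 0) (h3 : (3 : K) ≠ 0) (hT : T ≠ 0)
    (hcube : ∀ b : K, b ^ 3 ≠ -ω ^ 2 * T) {π π' : K[X][X]} (h : π * π' = gQ0 ω T)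
    (hlow : (phi π).leadingCoeff.natDegree ≤ 2) :
    ∃ k : K, k ≠ 0 ∧ π = cc k := by
  obtain ⟨hD, hlc⟩ := phi_gQ0 hω h3 hT
  have hP : gQ0 ω T ≠ 0 := by
    intro h0
    rw [h0, map_zero] at hD
    simp at hD
  have hπ : π ≠ 0 := by
    rintro rfl
    rw [zero_mul] at h
    exact hP h.symm
  have hπ' : π' ≠ 0 := by
    rintro rfl
    rw [mul_zero] at h
    exact hP h.symm
  have hφ : phi π ≠ 0 := fun h0 => hπ (phi_injective (h0.trans (map_zero _).symm))
  have hφ' : phi π' ≠ 0 := fun h0 => hπ' (phi_injective (h0.trans (map_zero _).symm))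
  have hmul : phi π * phi π' = phi (gQ0 ω T) := by rw [← map_mul, h]
  have hsum : (phi π).natDegree + (phi π').natDegree = 4 := by
    rw [← natDegree_mul hφ hφ', hmul, hD]
  have hlcm : (phi π).leadingCoeff * (phi π').leadingCoeff =
      C (-3 * T ^ 2) * (X * (X ^ 3 - C (-ω ^ 2 * T))) := by
    rw [← leadingCoeff_mul, hmul, hlc]
  have hirr : Irreducible (X ^ 3 - C (-ω ^ 2 * T) : K[X]) :=
    X_pow_sub_C_irreducible_of_prime Nat.prime_three hcube
  have hc : -3 * T ^ 2 ≠ 0 := mul_ne_zero (neg_ne_zero.mpr h3) (pow_ne_zero 2 hT)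
  have hq0 : (X ^ 3 - C (-ω ^ 2 * T) : K[X]) ≠ 0 := hirr.ne_zero
  have hdeg : (C (-3 * T ^ 2) * (X * (X ^ 3 - C (-ω ^ 2 * T))) : K[X]).natDegree = 4 := by
    rw [natDegree_C_mul hc, natDegree_mul X_ne_zero hq0, natDegree_X, natDegree_X_pow_sub_C]
  have hl : (phi π).leadingCoeff ≠ 0 := leadingCoeff_ne_zero.mpr hφ
  have hl' : (phi π').leadingCoeff ≠ 0 := leadingCoeff_ne_zero.mpr hφ'
  have hEsum : (phi π).leadingCoeff.natDegree + (phi π').leadingCoeff.natDegree = 4 := by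
    rw [← natDegree_mul hl hl', hlcm, hdeg]
  have hle := natDegree_lc_le π
  have hle' := natDegree_lc_le π'
  have hqd : (X ^ 3 - C (-ω ^ 2 * T) : K[X]) ∣ (phi π).leadingCoeff * (phi π').leadingCoeff := by
    rw [hlcm]
    exact ⟨C (-3 * T ^ 2) * X, by ring⟩
  have hq3 : (X ^ 3 - C (-ω ^ 2 * T) : K[X]).natDegree = 3 := natDegree_X_pow_sub_C
  rcases hirr.prime.dvd_or_dvd hqd with h1 | h1
  · have := natDegree_le_of_dvd h1 hl
    omega
  · have hE' := natDegree_le_of_dvd h1 hl'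
    rcases Nat.eq_zero_or_pos (phi π).natDegree with h0 | h0
    · exact const_of_natDegree_eq_zero hπ h0
    · exfalso
      have hd1 : (phi π).natDegree = 1 := by omega
      obtain ⟨k0, k1, k2, e1, e2⟩ := linear_of_natDegree_le_one (a := π) (by omega)
      obtain ⟨r, hr⟩ := h1
      have hr0 : r ≠ 0 := by
        rintro rfl
        rw [mul_zero] at hr
        exact hl' hr
      have hrd : r.natDegree = 0 := by
        have := natDegree_mul hq0 hr0
        rw [← hr] at this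
        omega
      obtain ⟨m, hm⟩ : ∃ m, r = C m := ⟨_, eq_C_of_natDegree_eq_zero hrd⟩
      have hm0 : m ≠ 0 := by
        rintro rfl
        rw [map_zero] at hm
        exact hr0 hm
      have hlcπ : (phi π).leadingCoeff = C k1 * X + C k2 := by
        rw [leadingCoeff, hd1, e2]
      have hkey : (C k1 * X + C k2) * C m = C (-3 * T ^ 2) * X := by
        have h2 := hlcm
        rw [hlcπ, hr, hm] at h2
        have h4 : (X ^ 3 - C (-ω ^ 2 * T) : K[X]) * ((C k1 * X + C k2) * C m) =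
            (X ^ 3 - C (-ω ^ 2 * T)) * (C (-3 * T ^ 2) * X) := by
          linear_combination h2
        exact mul_left_cancel₀ hq0 h4
      have hk2 : k2 = 0 := by
        have h5 := congrArg (fun p => coeff p 0) hkey
        simp [mul_coeff_zero] at h5
        rcases h5 with h5 | h5
        · exact h5
        · exact absurd h5 hm0
      have hk1 : k1 ≠ 0 := by
        intro hk
        rw [hlcπ, hk, hk2] at hl
        simp at hl
      have hroot : (π).eval (C (-k0 / k1)) = 0 := by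
        rw [e1, hk2]
        simp only [cc, RingHom.comp_apply, eval_add, eval_mul, eval_C, eval_X, map_zero,
          zero_mul, add_zero]
        rw [← C_mul, ← C_add, ← C_0]
        congr 1
        field_simp
        ring
      have hz : (gQ0 ω T).eval (C (-k0 / k1)) = 0 := by
        rw [← h, eval_mul, hroot, zero_mul]
      have h6 := eval_gQ0 ω T (-k0 / k1)
      rw [hz, coeff_zero] at h6
      exact mul_ne_zero (mul_ne_zero h3 (one_sub_omega_ne hω h3)) (pow_ne_zero 2 hT) h6.symm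

/-- T3c: `gQ0` is irreducible up to constants -/
theorem dvd_gQ0 (hω : ω ^ 2 + ω + 1 = 0) (h3 : (3 : K) ≠ 0) (hT : T ≠ 0)
    (hcube : ∀ b : K, b ^ 3 ≠ -ω ^ 2 * T) {π π' : K[X][X]} (h : π * π' = gQ0 ω T) :
    (∃ k : K, k ≠ 0 ∧ π = cc k) ∨ (∃ k : K, k ≠ 0 ∧ π' = cc k) := by
  obtain ⟨hD, hlc⟩ := phi_gQ0 hω h3 hT
  have hP : gQ0 ω T ≠ 0 := by
    intro h0
    rw [h0, map_zero] at hD
    simp at hD
  have hπ : π ≠ 0 := by
    rintro rfl
    rw [zero_mul] at h
    exact hP h.symm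
  have hπ' : π' ≠ 0 := by
    rintro rfl
    rw [mul_zero] at h
    exact hP h.symm
  have hφ : phi π ≠ 0 := fun h0 => hπ (phi_injective (h0.trans (map_zero _).symm))
  have hφ' : phi π' ≠ 0 := fun h0 => hπ' (phi_injective (h0.trans (map_zero _).symm))
  have hmul : phi π * phi π' = phi (gQ0 ω T) := by rw [← map_mul, h]
  have hc : -3 * T ^ 2 ≠ 0 := mul_ne_zero (neg_ne_zero.mpr h3) (pow_ne_zero 2 hT)
  have hirr : Irreducible (X ^ 3 - C (-ω ^ 2 * T) : K[X]) :=
    X_pow_sub_C_irreducible_of_prime Nat.prime_three hcube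
  have hdeg : (C (-3 * T ^ 2) * (X * (X ^ 3 - C (-ω ^ 2 * T))) : K[X]).natDegree = 4 := by
    rw [natDegree_C_mul hc, natDegree_mul X_ne_zero hirr.ne_zero, natDegree_X,
      natDegree_X_pow_sub_C]
  have hEsum : (phi π).leadingCoeff.natDegree + (phi π').leadingCoeff.natDegree = 4 := by
    rw [← natDegree_mul (leadingCoeff_ne_zero.mpr hφ) (leadingCoeff_ne_zero.mpr hφ'),
      ← leadingCoeff_mul, hmul, hlc, hdeg]
  rcases Nat.lt_or_ge 2 (phi π).leadingCoeff.natDegree with h1 | h1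
  · right
    exact gQ0_aux hω h3 hT hcube ((mul_comm _ _).trans h) (by omega)
  · left
    exact gQ0_aux hω h3 hT hcube h h1

end T3c

end Pool.Agent.Work.MP_c5a777_ag
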