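import Pool.Agent.Work.MP_c5a777_ag.Sigma

/-!
The automorphism of order three of the localized polynomial ring, continued.
-/

open Polynomial

namespace Pool.Agent.Work.MP_c5a777_ag

section

variable {K : Type*} [Field K]

/-- the product of the removed polynomials -/
noncomputable def gM (ω T : K) : K[X][X] :=
  gN T * gC ω T * gK ω T * gT ω T * gP0 ω T * gQ0 ω T

variable (s0 : K ≃+* K) (ω T : K) (hω : ω ^ 2 + ω + 1 = 0) (hT : T ≠ 0)
  (hs0ω : s0 ω = ω) (hs0T : s0 T = T)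
variable (R1 : Type*) [CommRing R1] [IsDomain R1] [Algebra K[X][X] R1]
  [IsLocalization.Away (gM ω T) R1]

theorem isUnit_gP0 : IsUnit (algebraMap K[X][X] R1 (gP0 ω T)) := by
  refine IsLocalization.Away.isUnit_of_dvd (x := gM ω T) ?_
  exact ⟨gN T * gC ω T * gK ω T * gT ω T * gQ0 ω T, by unfold gM; ring⟩

/-- the base point `(1 : e1 : e2)` of the localized ring -/
noncomputable def basePt : Pt R1 where
  ω := algebraMap K[X][X] R1 (cc ω)
  T := algebraMap K[X][X] R1 (cc T)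
  e1 := algebraMap K[X][X] R1 X
  e2 := algebraMap K[X][X] R1 (C X)
  g := ((isUnit_gP0 ω T R1).unit⁻¹ : R1ˣ)
  hω := by
    have h1 : cc ω ^ 2 + cc ω + 1 = (0 : K[X][X]) := by
      rw [← map_pow, ← map_add, ← map_one (cc : K →+* K[X][X]), ← map_add, hω, map_zero]
    have h2 := congrArg (algebraMap K[X][X] R1) h1
    rw [map_zero, map_add, map_add, map_pow, map_one] at h2
    exact h2
  hg := by
    have h : pP0 (algebraMap K[X][X] R1 (cc ω)) (algebraMap K[X][X] R1 (cc T)) 1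
        (algebraMap K[X][X] R1 X) (algebraMap K[X][X] R1 (C X)) =
        algebraMap K[X][X] R1 (gP0 ω T) := by
      rw [gP0, map_pP0, map_one]
    rw [h]
    exact (isUnit_gP0 ω T R1).mul_val_inv

theorem basePt_N : (basePt ω T hω R1).N = algebraMap K[X][X] R1 (gN T) := by
  rw [gN, map_pN, map_one]; rfl

theorem basePt_C : (basePt ω T hω R1).Cc = algebraMap K[X][X] R1 (gC ω T) := by
  rw [gC, map_pC, map_one]; rfl

theorem basePt_K : (basePt ω T hω R1).Kk = algebraMap K[X][X] R1 (gK ω T) := by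
  rw [gK, map_pK, map_one]; rfl

theorem basePt_T : (basePt ω T hω R1).Tt = algebraMap K[X][X] R1 (gT ω T) := by
  rw [gT, map_pT, map_one]; rfl

theorem basePt_P0 : (basePt ω T hω R1).P0 = algebraMap K[X][X] R1 (gP0 ω T) := by
  rw [gP0, map_pP0, map_one]; rfl

theorem basePt_P1 : (basePt ω T hω R1).P1 = algebraMap K[X][X] R1 (gP1 ω T) := by
  rw [gP1, map_pP1, map_one]; rfl

theorem basePt_P2 : (basePt ω T hω R1).P2 = algebraMap K[X][X] R1 (gP2 ω T) := by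
  rw [gP2, map_pP2, map_one]; rfl

theorem basePt_Q0 : (basePt ω T hω R1).Q0 = algebraMap K[X][X] R1 (gQ0 ω T) := by
  rw [gQ0, map_pQ0, map_one]; rfl

theorem basePt_Q1 : (basePt ω T hω R1).Q1 = algebraMap K[X][X] R1 (gQ1 ω T) := by
  rw [gQ1, map_pQ1, map_one]; rfl

theorem basePt_Q2 : (basePt ω T hω R1).Q2 = algebraMap K[X][X] R1 (gQ2 ω T) := by
  rw [gQ2, map_pQ2, map_one]; rfl

theorem isUnit_T' (hT : T ≠ 0) : IsUnit (basePt ω T hω R1).T := by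
  have : IsUnit (cc T : K[X][X]) := (IsUnit.mk0 T hT).map cc
  exact this.map (algebraMap K[X][X] R1)

theorem isUnit_g : IsUnit (basePt ω T hω R1).g :=
  Units.isUnit ((isUnit_gP0 ω T R1).unit⁻¹ : R1ˣ)

theorem isUnit_N : IsUnit (basePt ω T hω R1).N := by
  rw [basePt_N]
  refine IsLocalization.Away.isUnit_of_dvd (x := gM ω T) ?_
  exact ⟨gC ω T * gK ω T * gT ω T * gP0 ω T * gQ0 ω T, by unfold gM; ring⟩

theorem isUnit_C : IsUnit (basePt ω T hω R1).Cc := by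
  rw [basePt_C]
  refine IsLocalization.Away.isUnit_of_dvd (x := gM ω T) ?_
  exact ⟨gN T * gK ω T * gT ω T * gP0 ω T * gQ0 ω T, by unfold gM; ring⟩

theorem isUnit_K : IsUnit (basePt ω T hω R1).Kk := by
  rw [basePt_K]
  refine IsLocalization.Away.isUnit_of_dvd (x := gM ω T) ?_
  exact ⟨gN T * gC ω T * gT ω T * gP0 ω T * gQ0 ω T, by unfold gM; ring⟩

theorem isUnit_Tt : IsUnit (basePt ω T hω R1).Tt := by
  rw [basePt_T]
  refine IsLocalization.Away.isUnit_of_dvd (x := gM ω T) ?_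
  exact ⟨gN T * gC ω T * gK ω T * gP0 ω T * gQ0 ω T, by unfold gM; ring⟩

theorem isUnit_P0 : IsUnit (basePt ω T hω R1).P0 := by
  rw [basePt_P0]; exact isUnit_gP0 ω T R1

theorem isUnit_Q0 : IsUnit (basePt ω T hω R1).Q0 := by
  rw [basePt_Q0]
  refine IsLocalization.Away.isUnit_of_dvd (x := gM ω T) ?_
  exact ⟨gN T * gC ω T * gK ω T * gT ω T * gP0 ω T, by unfold gM; ring⟩

/-- the semilinear substitution -/
noncomputable def rho : K[X][X] →+* R1 :=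
  eval₂RingHom (eval₂RingHom (((algebraMap K[X][X] R1).comp cc).comp (s0 : K →+* K))
    (basePt ω T hω R1).y) (basePt ω T hω R1).x

theorem rho_cc (k : K) : rho s0 ω T hω R1 (cc k) = algebraMap K[X][X] R1 (cc (s0 k)) := by
  simp [rho, cc]

theorem rho_X : rho s0 ω T hω R1 X = (basePt ω T hω R1).x := by
  simp [rho]

theorem rho_CX : rho s0 ω T hω R1 (C X) = (basePt ω T hω R1).y := by
  simp [rho]

include hs0ω in
theorem rho_ω : rho s0 ω T hω R1 (cc ω) = (basePt ω T hω R1).ω := by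
  rw [rho_cc, hs0ω]; rfl

include hs0T in
theorem rho_T : rho s0 ω T hω R1 (cc T) = (basePt ω T hω R1).T := by
  rw [rho_cc, hs0T]; rfl

include hs0ω hs0T in
theorem rho_gP0 : rho s0 ω T hω R1 (gP0 ω T) = (basePt ω T hω R1).g ^ 4 *
    ((basePt ω T hω R1).T * (basePt ω T hω R1).N ^ 2 * (basePt ω T hω R1).Kk *
      (basePt ω T hω R1).Q0) := by
  rw [gP0, map_pP0, rho_ω s0 ω T hω hs0ω, rho_T s0 ω T hω hs0T, map_one, rho_X, rho_CX]
  exact Pt.act_P0 _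

include hs0ω hs0T in
theorem rho_gP1 : rho s0 ω T hω R1 (gP1 ω T) = (basePt ω T hω R1).g ^ 4 *
    ((basePt ω T hω R1).T * (basePt ω T hω R1).N ^ 2 * (basePt ω T hω R1).Kk *
      (basePt ω T hω R1).Q1) := by
  rw [gP1, map_pP1, rho_ω s0 ω T hω hs0ω, rho_T s0 ω T hω hs0T, map_one, rho_X, rho_CX]
  exact Pt.act_P1 _

include hs0ω hs0T in
theorem rho_gP2 : rho s0 ω T hω R1 (gP2 ω T) = (basePt ω T hω R1).g ^ 4 *
    ((basePt ω T hω R1).T * (basePt ω T hω R1).N ^ 2 * (basePt ω T hω R1).Kk *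
      (basePt ω T hω R1).Q2) := by
  rw [gP2, map_pP2, rho_ω s0 ω T hω hs0ω, rho_T s0 ω T hω hs0T, map_one, rho_X, rho_CX]
  exact Pt.act_P2 _

include hs0ω hs0T in
theorem rho_gQ0 : rho s0 ω T hω R1 (gQ0 ω T) = (basePt ω T hω R1).g ^ 4 *
    ((basePt ω T hω R1).T ^ 2 * (basePt ω T hω R1).N * (basePt ω T hω R1).Kk ^ 2) := by
  rw [gQ0, map_pQ0, rho_ω s0 ω T hω hs0ω, rho_T s0 ω T hω hs0T, map_one, rho_X, rho_CX]
  exact Pt.act_Q0 _

include hs0ω hs0T in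
theorem rho_gQ1 : rho s0 ω T hω R1 (gQ1 ω T) = (basePt ω T hω R1).g ^ 4 *
    ((basePt ω T hω R1).T ^ 2 * (basePt ω T hω R1).N * (basePt ω T hω R1).Kk ^ 2 *
      (basePt ω T hω R1).e1) := by
  rw [gQ1, map_pQ1, rho_ω s0 ω T hω hs0ω, rho_T s0 ω T hω hs0T, map_one, rho_X, rho_CX]
  exact Pt.act_Q1 _

include hs0ω hs0T in
theorem rho_gQ2 : rho s0 ω T hω R1 (gQ2 ω T) = (basePt ω T hω R1).g ^ 4 *
    ((basePt ω T hω R1).T ^ 2 * (basePt ω T hω R1).N * (basePt ω T hω R1).Kk ^ 2 *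
      (basePt ω T hω R1).e2) := by
  rw [gQ2, map_pQ2, rho_ω s0 ω T hω hs0ω, rho_T s0 ω T hω hs0T, map_one, rho_X, rho_CX]
  exact Pt.act_Q2 _

include hs0T in
theorem rho_gN : rho s0 ω T hω R1 (gN T) = (basePt ω T hω R1).g ^ 3 *
    ((basePt ω T hω R1).T * (basePt ω T hω R1).N ^ 2 * (basePt ω T hω R1).Cc) := by
  rw [gN, map_pN, rho_T s0 ω T hω hs0T, map_one, rho_X, rho_CX]
  exact Pt.act_N _

include hs0ω hs0T in
theorem rho_gT : rho s0 ω T hω R1 (gT ω T) = (basePt ω T hω R1).g ^ 3 *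
    (-(basePt ω T hω R1).T * (basePt ω T hω R1).Kk ^ 2) := by
  rw [gT, map_pT, rho_ω s0 ω T hω hs0ω, rho_T s0 ω T hω hs0T, map_one, rho_X, rho_CX]
  exact Pt.act_T _

include hs0ω hs0T hT in
theorem rho_gC : rho s0 ω T hω R1 (gC ω T) = (basePt ω T hω R1).g ^ 6 *
    ((basePt ω T hω R1).T ^ 2 * (basePt ω T hω R1).N ^ 2 * (basePt ω T hω R1).Kk ^ 3) := by
  rw [gC, map_pC, rho_ω s0 ω T hω hs0ω, rho_T s0 ω T hω hs0T, map_one, rho_X, rho_CX]
  exact Pt.act_C _ (isUnit_T' ω T hω R1 hT).ne_zero (isUnit_N ω T hω R1).ne_zero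
    (isUnit_C ω T hω R1).ne_zero

include hs0ω hs0T hT in
theorem rho_gK : rho s0 ω T hω R1 (gK ω T) = (basePt ω T hω R1).g ^ 6 *
    (-(basePt ω T hω R1).T ^ 2 * (basePt ω T hω R1).N ^ 3 * (basePt ω T hω R1).Kk ^ 2 *
      (basePt ω T hω R1).Tt) := by
  rw [gK, map_pK, rho_ω s0 ω T hω hs0ω, rho_T s0 ω T hω hs0T, map_one, rho_X, rho_CX]
  exact Pt.act_K _ (isUnit_T' ω T hω R1 hT).ne_zero (isUnit_N ω T hω R1).ne_zero
    (isUnit_C ω T hω R1).ne_zero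

include hs0ω hs0T hT in
theorem isUnit_rho_gM : IsUnit (rho s0 ω T hω R1 (gM ω T)) := by
  have uT := isUnit_T' ω T hω R1 hT
  have ug := isUnit_g ω T hω R1
  have uN := isUnit_N ω T hω R1
  have uC := isUnit_C ω T hω R1
  have uK := isUnit_K ω T hω R1
  have ut := isUnit_Tt ω T hω R1
  have uQ := isUnit_Q0 ω T hω R1
  unfold gM
  rw [map_mul, map_mul, map_mul, map_mul, map_mul, rho_gN s0 ω T hω hs0T,
    rho_gC s0 ω T hω hT hs0ω hs0T, rho_gK s0 ω T hω hT hs0ω hs0T,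
    rho_gT s0 ω T hω hs0ω hs0T, rho_gP0 s0 ω T hω hs0ω hs0T, rho_gQ0 s0 ω T hω hs0ω hs0T]
  refine IsUnit.mul (IsUnit.mul (IsUnit.mul (IsUnit.mul (IsUnit.mul ?_ ?_) ?_) ?_) ?_) ?_
  · exact (ug.pow 3).mul ((uT.mul (uN.pow 2)).mul uC)
  · exact (ug.pow 6).mul (((uT.pow 2).mul (uN.pow 2)).mul (uK.pow 3))
  · exact (ug.pow 6).mul ((((uT.pow 2).neg.mul (uN.pow 3)).mul (uK.pow 2)).mul ut)
  · exact (ug.pow 3).mul (uT.neg.mul (uK.pow 2))
  · exact (ug.pow 4).mul (((uT.mul (uN.pow 2)).mul uK).mul uQ)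
  · exact (ug.pow 4).mul (((uT.pow 2).mul uN).mul (uK.pow 2))

/-- the endomorphism of the localized ring -/
noncomputable def psi : R1 →+* R1 :=
  IsLocalization.Away.lift (gM ω T) (isUnit_rho_gM s0 ω T hω hT hs0ω hs0T R1)

theorem psi_alg (a : K[X][X]) : psi s0 ω T hω hT hs0ω hs0T R1 (algebraMap K[X][X] R1 a) =
    rho s0 ω T hω R1 a :=
  IsLocalization.Away.lift_eq _ _ _

theorem psi_e1 : psi s0 ω T hω hT hs0ω hs0T R1 (basePt ω T hω R1).e1 =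
    (basePt ω T hω R1).x := by
  change psi s0 ω T hω hT hs0ω hs0T R1 (algebraMap K[X][X] R1 X) = _
  rw [psi_alg, rho_X]

theorem psi_e2 : psi s0 ω T hω hT hs0ω hs0T R1 (basePt ω T hω R1).e2 =
    (basePt ω T hω R1).y := by
  change psi s0 ω T hω hT hs0ω hs0T R1 (algebraMap K[X][X] R1 (C X)) = _
  rw [psi_alg, rho_CX]

theorem psi_P0 : psi s0 ω T hω hT hs0ω hs0T R1 (basePt ω T hω R1).P0 =
    (basePt ω T hω R1).g ^ 4 *
    ((basePt ω T hω R1).T * (basePt ω T hω R1).N ^ 2 * (basePt ω T hω R1).Kk *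
      (basePt ω T hω R1).Q0) := by
  rw [basePt_P0, psi_alg, rho_gP0 s0 ω T hω hs0ω hs0T]

theorem psi_P1 : psi s0 ω T hω hT hs0ω hs0T R1 (basePt ω T hω R1).P1 =
    (basePt ω T hω R1).g ^ 4 *
    ((basePt ω T hω R1).T * (basePt ω T hω R1).N ^ 2 * (basePt ω T hω R1).Kk *
      (basePt ω T hω R1).Q1) := by
  rw [basePt_P1, psi_alg, rho_gP1 s0 ω T hω hs0ω hs0T]

theorem psi_P2 : psi s0 ω T hω hT hs0ω hs0T R1 (basePt ω T hω R1).P2 =
    (basePt ω T hω R1).g ^ 4 *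
    ((basePt ω T hω R1).T * (basePt ω T hω R1).N ^ 2 * (basePt ω T hω R1).Kk *
      (basePt ω T hω R1).Q2) := by
  rw [basePt_P2, psi_alg, rho_gP2 s0 ω T hω hs0ω hs0T]

theorem psi_Q0 : psi s0 ω T hω hT hs0ω hs0T R1 (basePt ω T hω R1).Q0 =
    (basePt ω T hω R1).g ^ 4 *
    ((basePt ω T hω R1).T ^ 2 * (basePt ω T hω R1).N * (basePt ω T hω R1).Kk ^ 2) := by
  rw [basePt_Q0, psi_alg, rho_gQ0 s0 ω T hω hs0ω hs0T]

theorem psi_Q1 : psi s0 ω T hω hT hs0ω hs0T R1 (basePt ω T hω R1).Q1 =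
    (basePt ω T hω R1).g ^ 4 *
    ((basePt ω T hω R1).T ^ 2 * (basePt ω T hω R1).N * (basePt ω T hω R1).Kk ^ 2 *
      (basePt ω T hω R1).e1) := by
  rw [basePt_Q1, psi_alg, rho_gQ1 s0 ω T hω hs0ω hs0T]

theorem psi_Q2 : psi s0 ω T hω hT hs0ω hs0T R1 (basePt ω T hω R1).Q2 =
    (basePt ω T hω R1).g ^ 4 *
    ((basePt ω T hω R1).T ^ 2 * (basePt ω T hω R1).N * (basePt ω T hω R1).Kk ^ 2 *
      (basePt ω T hω R1).e2) := by
  rw [basePt_Q2, psi_alg, rho_gQ2 s0 ω T hω hs0ω hs0T]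

theorem psi_g : psi s0 ω T hω hT hs0ω hs0T R1 (basePt ω T hω R1).P0 *
    psi s0 ω T hω hT hs0ω hs0T R1 (basePt ω T hω R1).g = 1 := by
  rw [← map_mul, (basePt ω T hω R1).hg', map_one]

theorem psi_x : psi s0 ω T hω hT hs0ω hs0T R1 (basePt ω T hω R1).x *
    (basePt ω T hω R1).Q0 = (basePt ω T hω R1).Q1 := by
  have h1 : psi s0 ω T hω hT hs0ω hs0T R1 (basePt ω T hω R1).x =
      psi s0 ω T hω hT hs0ω hs0T R1 (basePt ω T hω R1).P1 *
      psi s0 ω T hω hT hs0ω hs0T R1 (basePt ω T hω R1).g := by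
    rw [← map_mul]; rfl
  have hg := psi_g s0 ω T hω hT hs0ω hs0T R1
  rw [psi_P0] at hg
  rw [psi_P1] at h1
  have u : (basePt ω T hω R1).g ^ 4 *
      ((basePt ω T hω R1).T * (basePt ω T hω R1).N ^ 2 * (basePt ω T hω R1).Kk) ≠ 0 :=
    ((isUnit_g ω T hω R1).pow 4 |>.mul (((isUnit_T' ω T hω R1 hT).mul
      ((isUnit_N ω T hω R1).pow 2)).mul (isUnit_K ω T hω R1))).ne_zero
  refine mul_left_cancel₀ u ?_
  rw [h1]
  linear_combination ((basePt ω T hω R1).g ^ 4 * ((basePt ω T hω R1).T *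
    (basePt ω T hω R1).N ^ 2 * (basePt ω T hω R1).Kk) * (basePt ω T hω R1).Q1) * hg

theorem psi_y : psi s0 ω T hω hT hs0ω hs0T R1 (basePt ω T hω R1).y *
    (basePt ω T hω R1).Q0 = (basePt ω T hω R1).Q2 := by
  have h1 : psi s0 ω T hω hT hs0ω hs0T R1 (basePt ω T hω R1).y =
      psi s0 ω T hω hT hs0ω hs0T R1 (basePt ω T hω R1).P2 *
      psi s0 ω T hω hT hs0ω hs0T R1 (basePt ω T hω R1).g := by
    rw [← map_mul]; rfl
  have hg := psi_g s0 ω T hω hT hs0ω hs0T R1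
  rw [psi_P0] at hg
  rw [psi_P2] at h1
  have u : (basePt ω T hω R1).g ^ 4 *
      ((basePt ω T hω R1).T * (basePt ω T hω R1).N ^ 2 * (basePt ω T hω R1).Kk) ≠ 0 :=
    ((isUnit_g ω T hω R1).pow 4 |>.mul (((isUnit_T' ω T hω R1 hT).mul
      ((isUnit_N ω T hω R1).pow 2)).mul (isUnit_K ω T hω R1))).ne_zero
  refine mul_left_cancel₀ u ?_
  rw [h1]
  linear_combination ((basePt ω T hω R1).g ^ 4 * ((basePt ω T hω R1).T *
    (basePt ω T hω R1).N ^ 2 * (basePt ω T hω R1).Kk) * (basePt ω T hω R1).Q2) * hg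

theorem psi3_e1 : psi s0 ω T hω hT hs0ω hs0T R1 (psi s0 ω T hω hT hs0ω hs0T R1
    (psi s0 ω T hω hT hs0ω hs0T R1 (basePt ω T hω R1).e1)) = (basePt ω T hω R1).e1 := by
  rw [psi_e1]
  have h := congrArg (psi s0 ω T hω hT hs0ω hs0T R1) (psi_x s0 ω T hω hT hs0ω hs0T R1)
  rw [map_mul, psi_Q0, psi_Q1] at h
  have u : (basePt ω T hω R1).g ^ 4 *
      ((basePt ω T hω R1).T ^ 2 * (basePt ω T hω R1).N * (basePt ω T hω R1).Kk ^ 2) ≠ 0 :=
    ((isUnit_g ω T hω R1).pow 4 |>.mul ((((isUnit_T' ω T hω R1 hT).pow 2).mul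
      (isUnit_N ω T hω R1)).mul ((isUnit_K ω T hω R1).pow 2))).ne_zero
  refine mul_left_cancel₀ u ?_
  linear_combination h

theorem psi3_e2 : psi s0 ω T hω hT hs0ω hs0T R1 (psi s0 ω T hω hT hs0ω hs0T R1
    (psi s0 ω T hω hT hs0ω hs0T R1 (basePt ω T hω R1).e2)) = (basePt ω T hω R1).e2 := by
  rw [psi_e2]
  have h := congrArg (psi s0 ω T hω hT hs0ω hs0T R1) (psi_y s0 ω T hω hT hs0ω hs0T R1)
  rw [map_mul, psi_Q0, psi_Q2] at h
  have u : (basePt ω T hω R1).g ^ 4 *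
      ((basePt ω T hω R1).T ^ 2 * (basePt ω T hω R1).N * (basePt ω T hω R1).Kk ^ 2) ≠ 0 :=
    ((isUnit_g ω T hω R1).pow 4 |>.mul ((((isUnit_T' ω T hω R1 hT).pow 2).mul
      (isUnit_N ω T hω R1)).mul ((isUnit_K ω T hω R1).pow 2))).ne_zero
  refine mul_left_cancel₀ u ?_
  linear_combination h

theorem psi_cc (k : K) : psi s0 ω T hω hT hs0ω hs0T R1 (algebraMap K[X][X] R1 (cc k)) =
    algebraMap K[X][X] R1 (cc (s0 k)) := by
  rw [psi_alg, rho_cc]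

theorem psi3 (hs03 : ∀ k, s0 (s0 (s0 k)) = k) :
    ((psi s0 ω T hω hT hs0ω hs0T R1).comp (psi s0 ω T hω hT hs0ω hs0T R1)).comp
      (psi s0 ω T hω hT hs0ω hs0T R1) = RingHom.id R1 := by
  refine IsLocalization.ringHom_ext (Submonoid.powers (gM ω T)) ?_
  refine Polynomial.ringHom_ext' (Polynomial.ringHom_ext' (RingHom.ext fun k => ?_) ?_) ?_
  · change psi s0 ω T hω hT hs0ω hs0T R1 (psi s0 ω T hω hT hs0ω hs0T R1
      (psi s0 ω T hω hT hs0ω hs0T R1 (algebraMap K[X][X] R1 (cc k)))) =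
      algebraMap K[X][X] R1 (cc k)
    rw [psi_cc, psi_cc, psi_cc, hs03]
  · exact psi3_e2 s0 ω T hω hT hs0ω hs0T R1
  · exact psi3_e1 s0 ω T hω hT hs0ω hs0T R1

/-- the automorphism of the localized ring -/
noncomputable def psiEquiv (hs03 : ∀ k, s0 (s0 (s0 k)) = k) : R1 ≃+* R1 :=
  RingEquiv.ofRingHom (psi s0 ω T hω hT hs0ω hs0T R1)
    ((psi s0 ω T hω hT hs0ω hs0T R1).comp (psi s0 ω T hω hT hs0ω hs0T R1))
    (by rw [← RingHom.comp_assoc]; exact psi3 s0 ω T hω hT hs0ω hs0T R1 hs03)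
    (psi3 s0 ω T hω hT hs0ω hs0T R1 hs03)

theorem psiEquiv_apply (hs03 : ∀ k, s0 (s0 (s0 k)) = k) (r : R1) :
    psiEquiv s0 ω T hω hT hs0ω hs0T R1 hs03 r = psi s0 ω T hω hT hs0ω hs0T R1 r := rfl

theorem psiEquiv_three (hs03 : ∀ k, s0 (s0 (s0 k)) = k) (r : R1) :
    psiEquiv s0 ω T hω hT hs0ω hs0T R1 hs03 (psiEquiv s0 ω T hω hT hs0ω hs0T R1 hs03
      (psiEquiv s0 ω T hω hT hs0ω hs0T R1 hs03 r)) = r :=
  congrArg (fun f : R1 →+* R1 => f r) (psi3 s0 ω T hω hT hs0ω hs0T R1 hs03)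

end

end Pool.Agent.Work.MP_c5a777_ag
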