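import Pool.Agent.Work.MP_c5a777_ag.Bd.B02
import Pool.Agent.Work.MP_c5a777_ag.TameDef

/-!
Definitions: the polynomial ring in two variables and explicit polynomials in it.
-/

open Polynomial

namespace Pool.Agent.Work.MP_c5a777_ag

section Phi

variable {K : Type*} [Field K]

/-- `K[e2][e1] → K[X][s]`, sending `e1` (outer variable) to `X s` and `e2` (inner variable)
to `s`. -/
noncomputable def phi : K[X][X] →+* K[X][X] :=
  eval₂RingHom (mapRingHom (C : K →+* K[X])) (C X * X)

/-- constants -/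
noncomputable def cc : K →+* K[X][X] := (C : K[X] →+* K[X][X]).comp (C : K →+* K[X])

/-- explicit polynomial in `K[e2][e1]` -/
noncomputable def gP0 (ω T : K) : K[X][X] := pP0 (cc ω) (cc T) 1 X (C X)
/-- explicit polynomial in `K[e2][e1]` -/
noncomputable def gP1 (ω T : K) : K[X][X] := pP1 (cc ω) (cc T) 1 X (C X)
/-- explicit polynomial in `K[e2][e1]` -/
noncomputable def gP2 (ω T : K) : K[X][X] := pP2 (cc ω) (cc T) 1 X (C X)
/-- explicit polynomial in `K[e2][e1]` -/
noncomputable def gQ0 (ω T : K) : K[X][X] := pQ0 (cc ω) (cc T) 1 X (C X)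
/-- explicit polynomial in `K[e2][e1]` -/
noncomputable def gQ1 (ω T : K) : K[X][X] := pQ1 (cc ω) (cc T) 1 X (C X)
/-- explicit polynomial in `K[e2][e1]` -/
noncomputable def gQ2 (ω T : K) : K[X][X] := pQ2 (cc ω) (cc T) 1 X (C X)
/-- explicit polynomial in `K[e2][e1]` -/
noncomputable def gN (T : K) : K[X][X] := pN (cc T) 1 X (C X)
/-- explicit polynomial in `K[e2][e1]` -/
noncomputable def gC (ω T : K) : K[X][X] := pC (cc ω) (cc T) 1 X (C X)
/-- explicit polynomial in `K[e2][e1]` -/
noncomputable def gK (ω T : K) : K[X][X] := pK (cc ω) (cc T) 1 X (C X)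
/-- explicit polynomial in `K[e2][e1]` -/
noncomputable def gT (ω T : K) : K[X][X] := pT (cc ω) (cc T) 1 X (C X)

end Phi

end Pool.Agent.Work.MP_c5a777_ag
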