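import Pool.Agent.Work.MP_c5a777_ag.Main2

/-!
The big field is `ℂ(u, v, w)`.
-/

open Polynomial

namespace Pool.Agent.Work.MP_c5a777_ag

theorem all_mem (M : Subfield FF) (hC : ∀ z : ℂ, vc (RatFunc.C z) ∈ M) (hp : vp ∈ M)
    (h1 : v1 ∈ M) (h2 : v2 ∈ M) (z : FF) : z ∈ M := by
  have hpoly : ∀ q : ℂ[X], vc (algebraMap ℂ[X] (RatFunc ℂ) q) ∈ M := by
    intro q
    induction q using Polynomial.induction_on' with
    | add p q hp hq =>
      have : vc (algebraMap ℂ[X] (RatFunc ℂ) (p + q)) =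
          vc (algebraMap ℂ[X] (RatFunc ℂ) p) + vc (algebraMap ℂ[X] (RatFunc ℂ) q) := by
        unfold vc; rw [map_add, map_add, map_add]
      rw [this]
      exact add_mem hp hq
    | monomial n a =>
      have : vc (algebraMap ℂ[X] (RatFunc ℂ) (monomial n a)) = vc (RatFunc.C a) * vp ^ n := by
        unfold vc vp
        rw [← C_mul_X_pow_eq_monomial, map_mul, map_pow, RatFunc.algebraMap_C,
          RatFunc.algebraMap_X, map_mul, map_mul, map_pow, map_pow]
      rw [this]
      exact mul_mem (hC a) (pow_mem hp n)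
  have hvc : ∀ k : RatFunc ℂ, vc k ∈ M := by
    intro k
    obtain ⟨x, y, hy, rfl⟩ := IsFractionRing.div_surjective (A := ℂ[X]) k
    have : vc (algebraMap ℂ[X] (RatFunc ℂ) x / algebraMap ℂ[X] (RatFunc ℂ) y) =
        vc (algebraMap ℂ[X] (RatFunc ℂ) x) / vc (algebraMap ℂ[X] (RatFunc ℂ) y) := by
      unfold vc
      exact map_div₀ ((algebraMap ((RatFunc ℂ)[X][X]) FF).comp cc) _ _
    rw [this]
    exact div_mem (hpoly x) (hpoly y)
  have hpol : ∀ a : (RatFunc ℂ)[X][X], algebraMap _ FF a ∈ M := by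
    intro a
    induction a using Polynomial.induction_on' with
    | add p q hp hq => rw [map_add]; exact add_mem hp hq
    | monomial n p =>
      rw [← C_mul_X_pow_eq_monomial, map_mul, map_pow]
      refine mul_mem ?_ (pow_mem h1 n)
      induction p using Polynomial.induction_on' with
      | add p q hp hq => rw [map_add, map_add]; exact add_mem hp hq
      | monomial m k =>
        rw [← C_mul_X_pow_eq_monomial, map_mul, map_pow, map_mul, map_pow]
        exact mul_mem (hvc k) (pow_mem h2 m)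
  obtain ⟨x, y, hy, rfl⟩ := IsFractionRing.div_surjective (A := (RatFunc ℂ)[X][X]) z
  exact div_mem (hpol x) (hpol y)

/-- the three generators -/
noncomputable def gen3 : Fin 3 → FF := ![v1, v2, vp]

/-- a ring homomorphism -/
noncomputable def chi1 : MvPolynomial (Fin 1) ℂ →+* RatFunc ℂ :=
  (algebraMap ℂ[X] (RatFunc ℂ)).comp
    ((mapRingHom (MvPolynomial.isEmptyAlgEquiv ℂ (Fin 0) : MvPolynomial (Fin 0) ℂ →+* ℂ)).comp
      (MvPolynomial.finSuccEquiv ℂ 0 : MvPolynomial (Fin 1) ℂ →+* _))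

/-- a ring homomorphism -/
noncomputable def chi2 : MvPolynomial (Fin 2) ℂ →+* (RatFunc ℂ)[X] :=
  (mapRingHom chi1).comp (MvPolynomial.finSuccEquiv ℂ 1 : MvPolynomial (Fin 2) ℂ →+* _)

/-- a ring homomorphism -/
noncomputable def chi3 : MvPolynomial (Fin 3) ℂ →+* (RatFunc ℂ)[X][X] :=
  (mapRingHom chi2).comp (MvPolynomial.finSuccEquiv ℂ 2 : MvPolynomial (Fin 3) ℂ →+* _)

theorem chi1_inj : Function.Injective chi1 := by
  have h0 : Function.Injective (mapRingHom
      (MvPolynomial.isEmptyAlgEquiv ℂ (Fin 0) : MvPolynomial (Fin 0) ℂ →+* ℂ)) :=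
    Polynomial.map_injective _ (MvPolynomial.isEmptyAlgEquiv ℂ (Fin 0)).injective
  exact (RatFunc.algebraMap_injective (K := ℂ)).comp
    (h0.comp (MvPolynomial.finSuccEquiv ℂ 0).injective)

theorem chi2_inj : Function.Injective chi2 := by
  have h0 : Function.Injective (mapRingHom chi1) := Polynomial.map_injective _ chi1_inj
  exact h0.comp (MvPolynomial.finSuccEquiv ℂ 1).injective

theorem chi3_inj : Function.Injective chi3 := by
  have h0 : Function.Injective (mapRingHom chi2) := Polynomial.map_injective _ chi2_inj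
  exact h0.comp (MvPolynomial.finSuccEquiv ℂ 2).injective

theorem chi3_X0 : chi3 (MvPolynomial.X 0) = X := by
  change mapRingHom chi2 (MvPolynomial.finSuccEquiv ℂ 2 (MvPolynomial.X 0)) = _
  rw [MvPolynomial.finSuccEquiv_X_zero, coe_mapRingHom, map_X]

theorem chi2_X0 : chi2 (MvPolynomial.X 0) = X := by
  change mapRingHom chi1 (MvPolynomial.finSuccEquiv ℂ 1 (MvPolynomial.X 0)) = _
  rw [MvPolynomial.finSuccEquiv_X_zero, coe_mapRingHom, map_X]

theorem chi1_X0 : chi1 (MvPolynomial.X 0) = RatFunc.X := by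
  change algebraMap ℂ[X] (RatFunc ℂ) (mapRingHom _
    (MvPolynomial.finSuccEquiv ℂ 0 (MvPolynomial.X 0))) = _
  rw [MvPolynomial.finSuccEquiv_X_zero, coe_mapRingHom, map_X, RatFunc.algebraMap_X]

theorem chi1_C (z : ℂ) : chi1 (MvPolynomial.C z) = RatFunc.C z := by
  change algebraMap ℂ[X] (RatFunc ℂ) (mapRingHom
    (MvPolynomial.isEmptyAlgEquiv ℂ (Fin 0) : MvPolynomial (Fin 0) ℂ →+* ℂ)
    (MvPolynomial.finSuccEquiv ℂ 0 (MvPolynomial.C z))) = _
  have h : MvPolynomial.finSuccEquiv ℂ 0 (MvPolynomial.C z) = C (MvPolynomial.C z) :=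
    (MvPolynomial.finSuccEquiv ℂ 0).commutes z
  rw [h, coe_mapRingHom, map_C]
  have h2 : (MvPolynomial.isEmptyAlgEquiv ℂ (Fin 0) : MvPolynomial (Fin 0) ℂ →+* ℂ)
      (MvPolynomial.C z) = z := (MvPolynomial.isEmptyAlgEquiv ℂ (Fin 0)).commutes z
  rw [h2, RatFunc.algebraMap_C]

theorem chi2_C (z : ℂ) : chi2 (MvPolynomial.C z) = C (RatFunc.C z) := by
  change mapRingHom chi1 (MvPolynomial.finSuccEquiv ℂ 1 (MvPolynomial.C z)) = _
  have h : MvPolynomial.finSuccEquiv ℂ 1 (MvPolynomial.C z) = C (MvPolynomial.C z) :=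
    (MvPolynomial.finSuccEquiv ℂ 1).commutes z
  rw [h, coe_mapRingHom, map_C, chi1_C]

theorem chi3_C (z : ℂ) : chi3 (MvPolynomial.C z) = C (C (RatFunc.C z)) := by
  change mapRingHom chi2 (MvPolynomial.finSuccEquiv ℂ 2 (MvPolynomial.C z)) = _
  have h : MvPolynomial.finSuccEquiv ℂ 2 (MvPolynomial.C z) = C (MvPolynomial.C z) :=
    (MvPolynomial.finSuccEquiv ℂ 2).commutes z
  rw [h, coe_mapRingHom, map_C, chi2_C]

theorem chi3_X1 : chi3 (MvPolynomial.X 1) = C X := by
  have h : (1 : Fin 3) = Fin.succ 0 := rfl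
  rw [h]
  unfold chi3
  rw [RingHom.comp_apply]
  change mapRingHom chi2 (MvPolynomial.finSuccEquiv ℂ 2 (MvPolynomial.X (Fin.succ 0))) = _
  rw [MvPolynomial.finSuccEquiv_X_succ, coe_mapRingHom, map_C, chi2_X0]

theorem chi2_X1 : chi2 (MvPolynomial.X 1) = C RatFunc.X := by
  have h : (1 : Fin 2) = Fin.succ 0 := rfl
  rw [h]
  unfold chi2
  rw [RingHom.comp_apply]
  change mapRingHom chi1 (MvPolynomial.finSuccEquiv ℂ 1 (MvPolynomial.X (Fin.succ 0))) = _
  rw [MvPolynomial.finSuccEquiv_X_succ, coe_mapRingHom, map_C, chi1_X0]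

theorem chi3_X2 : chi3 (MvPolynomial.X 2) = C (C RatFunc.X) := by
  have h : (2 : Fin 3) = Fin.succ 1 := rfl
  rw [h]
  unfold chi3
  rw [RingHom.comp_apply]
  change mapRingHom chi2 (MvPolynomial.finSuccEquiv ℂ 2 (MvPolynomial.X (Fin.succ 1))) = _
  rw [MvPolynomial.finSuccEquiv_X_succ, coe_mapRingHom, map_C, chi2_X1]

theorem gen3_indep : AlgebraicIndependent ℂ gen3 := by
  rw [algebraicIndependent_iff_injective_aeval]
  have h : (MvPolynomial.aeval gen3 : MvPolynomial (Fin 3) ℂ →ₐ[ℂ] FF).toRingHom =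
      (algebraMap ((RatFunc ℂ)[X][X]) FF).comp chi3 := by
    refine MvPolynomial.ringHom_ext ?_ ?_
    · intro z
      change MvPolynomial.aeval gen3 (MvPolynomial.C z) = algebraMap _ FF (chi3 _)
      rw [chi3_C, ← MvPolynomial.algebraMap_eq, AlgHom.commutes, algC]
      rfl
    · intro i
      change MvPolynomial.aeval gen3 (MvPolynomial.X i) = algebraMap _ FF (chi3 _)
      rw [MvPolynomial.aeval_X]
      fin_cases i
      · change v1 = algebraMap _ FF (chi3 (MvPolynomial.X 0))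
        rw [chi3_X0]; rfl
      · change v2 = algebraMap _ FF (chi3 (MvPolynomial.X 1))
        rw [chi3_X1]; rfl
      · change vp = algebraMap _ FF (chi3 (MvPolynomial.X 2))
        rw [chi3_X2]; rfl
  have h2 : Function.Injective ((algebraMap ((RatFunc ℂ)[X][X]) FF).comp chi3) :=
    alg_inj.comp chi3_inj
  rw [← h] at h2
  exact h2

theorem gen3_top (z : FF) : z ∈ IntermediateField.adjoin ℂ (Set.range gen3) := by
  refine all_mem (IntermediateField.adjoin ℂ (Set.range gen3)).toSubfield ?_ ?_ ?_ ?_ z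
  · intro c
    rw [← algC]
    exact (IntermediateField.adjoin ℂ (Set.range gen3)).algebraMap_mem c
  · exact IntermediateField.subset_adjoin _ _ ⟨2, rfl⟩
  · exact IntermediateField.subset_adjoin _ _ ⟨0, rfl⟩
  · exact IntermediateField.subset_adjoin _ _ ⟨1, rfl⟩

/-- the embedding of the function field in `ℂ(u, v, w)` -/
noncomputable def embL (w : ℂ) : LL w →ₐ[ℂ] FractionRing (MvPolynomial (Fin 3) ℂ) :=
  gen3_indep.reprField.comp
    (IntermediateField.inclusion (fun z _ => gen3_top z :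
      LL w ≤ IntermediateField.adjoin ℂ (Set.range gen3)))

end Pool.Agent.Work.MP_c5a777_ag
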