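import Pool.Agent.Work.MP_c5a777_ag.Emb

/-!
The unramified class of order three on the function field of the cubic surface bundle.
-/

open Polynomial

namespace Pool.Agent.Work.MP_c5a777_ag

section

variable (w : ℂ) (hw : w ^ 2 + w + 1 = 0)

/-- the base parameter as an element of `L` -/
noncomputable def lt : LL w := ⟨et, et_mem w⟩
/-- coordinate as an element of `L` -/
noncomputable def lx : LL w := ⟨ex w, ex_mem w⟩
/-- coordinate as an element of `L` -/
noncomputable def ly : LL w := ⟨ey w, ey_mem w⟩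
/-- coordinate as an element of `L` -/
noncomputable def lz : LL w := ⟨ez w, ez_mem w⟩

/-- the second entry as an element of `L` -/
noncomputable def lf : LL w := lt w / (lt w - 1) * lz w ^ 3 -
  algebraMap ℂ (LL w) w ^ 2 * (lt w - 1) - (1 - algebraMap ℂ (LL w) w) * (ly w * lz w)

theorem lf_coe : ((lf w : LL w) : FF) = ef w := by
  have h : vw w = algebraMap ℂ FF w := (algC w).symm
  unfold lf ef
  rw [h]
  rfl

theorem lt_ne : lt w ≠ 0 := by
  intro h
  have := congrArg (fun z : LL w => (z : FF)) h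
  exact et_ne this

theorem lt_ne_one : lt w ≠ 1 := by
  intro h
  have := congrArg (fun z : LL w => (z : FF)) h
  exact et_ne_one this

include hw in
theorem ef_ne : ef w ≠ 0 := by
  intro h
  have h1 := ef_eq w hw
  rw [h, zero_mul] at h1
  have nP0 : gP0 (wK w) Tz ≠ 0 :=
    ne_zero_of_natDegree (phi_gP0 (hwK w hw) three_ne Tz_ne).1
  have nQ0 : gQ0 (wK w) Tz ≠ 0 :=
    ne_zero_of_natDegree (phi_gQ0 (hwK w hw) three_ne Tz_ne).1
  exact (mul_ne_zero ((map_ne_zero_iff _ alg_inj).2 nP0)
    ((map_ne_zero_iff _ alg_inj).2 nQ0)) h1.symm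

include hw in
theorem lf_ne : lf w ≠ 0 := by
  intro h
  have h1 := lf_coe w
  rw [h] at h1
  exact ef_ne w hw h1.symm

include hw in
theorem lsurf : lx w ^ 3 + (lt w)⁻¹ * ly w ^ 3 + lt w / (lt w - 1) * lz w ^ 3 +
    (lt w - 1) = 0 := by
  apply Subtype.ext
  exact surf w hw

include hw in
theorem unram (A : ValuationSubring (LL w)) (hC : ∀ z : ℂ, algebraMap ℂ (LL w) z ∈ A) :
    TameCube A (lt w) (lf w) :=
  tame_main A hC w hw (lt w) (lx w) (ly w) (lz w) (lt_ne w) (lt_ne_one w) (lsurf w hw)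
    (lf_ne w hw)

include hw in
theorem nonsplit : ¬ ∃ U V : Matrix (Fin 3) (Fin 3) (LL w),
    U ^ 3 = Matrix.scalar (Fin 3) (lt w) ∧ V ^ 3 = Matrix.scalar (Fin 3) (lf w) ∧
    V * U = algebraMap ℂ (LL w) w • (U * V) := by
  rintro ⟨U, V, hU, hV, hVU⟩
  have hwL : algebraMap ℂ (LL w) w ^ 2 + algebraMap ℂ (LL w) w + 1 = 0 := by
    have := congrArg (algebraMap ℂ (LL w)) hw
    simpa only [map_add, map_pow, map_one, map_zero] using this
  have h3 : (3 : LL w) ≠ 0 := by
    intro h
    have h1 := congrArg (algebraMap ℂ (LL w)).toFun (show (3 : ℂ) = 3 from rfl)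
    have h2 : algebraMap ℂ (LL w) 3 = 0 := by rw [map_ofNat]; exact h
    have := (map_eq_zero_iff _ (algebraMap ℂ (LL w)).injective).1 h2
    norm_num at this
  obtain ⟨γ, hγ⟩ := norm_of_matrix (F := FF) (algebraMap ℂ (LL w) w) hwL h3 (lt w) (lf w)
    (lt_ne w) (lf_ne w hw) vp rfl (sgL w hw)
    (by
      rw [sgL_apply, sg_vp]
      congr 1)
    (fun z => sg_three w hw z) U V hU hV hVU
  have h4 : ef w = γ * sg w hw γ * sg w hw (sg w hw γ) := by
    rw [← lf_coe w]
    exact hγ
  exact ef_ne_norm w hw γ h4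

theorem LL_fg : ∃ s : Finset (LL w), IntermediateField.adjoin ℂ (s : Set (LL w)) = ⊤ := by
  classical
  refine ⟨{lt w, lx w, ly w, lz w}, ?_⟩
  rw [eq_top_iff]
  intro z _
  have hinj : Function.Injective ((LL w).val) := Subtype.val_injective
  have h1 : (IntermediateField.adjoin ℂ
      ((({lt w, lx w, ly w, lz w} : Finset (LL w)) : Set (LL w)))).map (LL w).val = LL w := by
    rw [IntermediateField.adjoin_map]
    have : (LL w).val '' ((({lt w, lx w, ly w, lz w} : Finset (LL w)) : Set (LL w))) =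
        {et, ex w, ey w, ez w} := by
      simp only [Finset.coe_insert, Finset.coe_singleton, Set.image_insert_eq,
        Set.image_singleton]
      rfl
    rw [this]
    rfl
  have h2 : (LL w).val z ∈ (IntermediateField.adjoin ℂ
      ((({lt w, lx w, ly w, lz w} : Finset (LL w)) : Set (LL w)))).map (LL w).val := by
    rw [h1]; exact z.2
  obtain ⟨y, hy, hyz⟩ := h2
  have : y = z := hinj hyz
  rw [← this]
  exact hy

end

end Pool.Agent.Work.MP_c5a777_ag
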