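import Mathlib

/-!
Polynomial identities behind the explicit unramified class of order three.
-/

set_option maxHeartbeats 0

namespace Pool.Agent.Work.MP_c5a777_ag

variable {R : Type*} [CommRing R]

/-- explicit polynomial -/
def pP0 (ω T e0 e1 e2 : R) : R :=
    (T^3*e2^4 - 3*T^2*e0*e1*e2^2 + T^2*e1^3*e2 + T*e0^3*e2) + ω * (-T^3*e2^4 + 2*T^2*e1^3*e2 +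
    2*T*e0^3*e2 - 3*T*e0^2*e1^2)

/-- explicit polynomial -/
def pP1 (ω T e0 e1 e2 : R) : R :=
    (T^2*e0*e2^3 - 3*T*e0^2*e1*e2 + T*e0*e1^3 + e0^4) + ω * (2*T^2*e0*e2^3 - 3*T^2*e1^2*e2^2 +
    2*T*e0*e1^3 - e0^4)

/-- explicit polynomial -/
def pP2 (ω T e0 e1 e2 : R) : R :=
    (T^2*e1*e2^3 - 3*T*e0*e1^2*e2 + T*e1^4 + e0^3*e1) + ω * (2*T^2*e1*e2^3 - 3*T*e0^2*e2^2 -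
    T*e1^4 + 2*e0^3*e1)

/-- explicit polynomial -/
def pQ0 (ω T e0 e1 e2 : R) : R :=
    (3*T^3*e1*e2^3 + 3*T^2*e0^2*e2^2 - 6*T^2*e0*e1^2*e2 - 3*T^2*e1^4 + 3*T*e0^3*e1) + ω *
    (3*T^3*e1*e2^3 - 3*T^2*e0^2*e2^2 - 3*T^2*e0*e1^2*e2 + 3*T*e0^3*e1)

/-- explicit polynomial -/
def pQ1 (ω T e0 e1 e2 : R) : R :=
    (-3*T^3*e2^4 - 6*T^2*e0*e1*e2^2 + 3*T^2*e1^3*e2 + 3*T*e0^3*e2 + 3*T*e0^2*e1^2) + ω *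
    (-3*T^2*e0*e1*e2^2 + 3*T^2*e1^3*e2 + 3*T*e0^3*e2 - 3*T*e0^2*e1^2)

/-- explicit polynomial -/
def pQ2 (ω T e0 e1 e2 : R) : R :=
    (3*T^2*e0*e2^3 + 3*T^2*e1^2*e2^2 - 6*T*e0^2*e1*e2 + 3*T*e0*e1^3 - 3*e0^4) + ω *
    (3*T^2*e0*e2^3 - 3*T^2*e1^2*e2^2 - 3*T*e0^2*e1*e2 + 3*T*e0*e1^3)

/-- explicit polynomial -/
def pN (T e0 e1 e2 : R) : R :=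
    T^2*e2^3 - 3*T*e0*e1*e2 + T*e1^3 + e0^3

/-- explicit polynomial -/
def pC (ω T e0 e1 e2 : R) : R :=
    (-3*T^4*e2^6 - 9*T^3*e0*e1*e2^4 - 6*T^3*e1^3*e2^3 - 6*T^2*e0^3*e2^3 +
    54*T^2*e0^2*e1^2*e2^2 - 9*T^2*e0*e1^4*e2 - 3*T^2*e1^6 - 9*T*e0^4*e1*e2 - 6*T*e0^3*e1^3 -
    3*e0^6) + ω * (-6*T^4*e2^6 - 18*T^3*e0*e1*e2^4 + 15*T^3*e1^3*e2^3 + 15*T^2*e0^3*e2^3 +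
    27*T^2*e0^2*e1^2*e2^2 - 18*T^2*e0*e1^4*e2 - 6*T^2*e1^6 - 18*T*e0^4*e1*e2 + 15*T*e0^3*e1^3
    - 6*e0^6)

/-- explicit polynomial -/
def pK (ω T e0 e1 e2 : R) : R :=
    (6*T^4*e2^6 - 9*T^3*e0*e1*e2^4 - 15*T^3*e1^3*e2^3 - 15*T^2*e0^3*e2^3 +
    54*T^2*e0^2*e1^2*e2^2 - 9*T^2*e0*e1^4*e2 + 6*T^2*e1^6 - 9*T*e0^4*e1*e2 - 15*T*e0^3*e1^3 +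
    6*e0^6) + ω * (3*T^4*e2^6 - 18*T^3*e0*e1*e2^4 + 6*T^3*e1^3*e2^3 + 6*T^2*e0^3*e2^3 +
    27*T^2*e0^2*e1^2*e2^2 - 18*T^2*e0*e1^4*e2 + 3*T^2*e1^6 - 18*T*e0^4*e1*e2 + 6*T*e0^3*e1^3 +
    3*e0^6)

/-- explicit polynomial -/
def pT (ω T e0 e1 e2 : R) : R :=
    (3*T^2*e2^3 + 18*T*e0*e1*e2 + 3*T*e1^3 + 3*e0^3) + ω * (-3*T^2*e2^3 + 9*T*e0*e1*e2 -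
    3*T*e1^3 - 3*e0^3)

/-- explicit polynomial -/
def pX (ω T e0 e1 e2 : R) : R := -(e0^3 + ω^2*T*e1^3 + ω*T^2*e2^3)

/-- explicit polynomial -/
def pY (ω T e0 e1 e2 : R) : R := e0^3 + ω*T*e1^3 + ω^2*T^2*e2^3

/-- explicit polynomial -/
def pZ (ω T e0 e1 e2 : R) : R :=
    -T*ω*(1-ω)*(ω*e0^2*e2 + e0*e1^2 + ω^2*T*e1*e2^2)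

/-- explicit polynomial -/
def pW (ω T e0 e1 e2 : R) : R :=
    ω*(1-ω)*(ω^2*e0^2*e1 + ω*T*e0*e2^2 + T*e1^2*e2)

theorem pX_P {ω : R} (hω : ω^2 + ω + 1 = 0) (T e0 e1 e2 : R) :
    pX ω T (pP0 ω T e0 e1 e2) (pP1 ω T e0 e1 e2) (pP2 ω T e0 e1 e2) =
      ω * T * pN T e0 e1 e2 * pK ω T e0 e1 e2 * pX ω T e0 e1 e2 := by
  simp only [pX, pN, pK, pP0, pP1, pP2]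
  linear_combination (-8*ω^3*T^7*e0^3*e2^9 + 36*ω^3*T^7*e0^2*e1^2*e2^8 - 54*ω^3*T^7*e0*e1^4*e2^7 +
    27*ω^3*T^7*e1^6*e2^6 - 24*ω^3*T^6*e0^3*e1^3*e2^6 + 72*ω^3*T^6*e0^2*e1^5*e2^5 -
    54*ω^3*T^6*e0*e1^7*e2^4 + 12*ω^3*T^5*e0^6*e2^6 - 36*ω^3*T^5*e0^5*e1^2*e2^5 +
    27*ω^3*T^5*e0^4*e1^4*e2^4 - 24*ω^3*T^5*e0^3*e1^6*e2^3 + 36*ω^3*T^5*e0^2*e1^8*e2^2 +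
    24*ω^3*T^4*e0^6*e1^3*e2^3 - 36*ω^3*T^4*e0^5*e1^5*e2^2 - 8*ω^3*T^4*e0^3*e1^9 -
    6*ω^3*T^3*e0^9*e2^3 + 9*ω^3*T^3*e0^8*e1^2*e2^2 + 12*ω^3*T^3*e0^6*e1^6 -
    6*ω^3*T^2*e0^9*e1^3 + ω^3*T*e0^12 - 5*ω^2*T^8*e1^3*e2^9 - 4*ω^2*T^7*e0^3*e2^9 +
    36*ω^2*T^7*e0^2*e1^2*e2^8 - 6*ω^2*T^7*e1^6*e2^6 - 18*ω^2*T^6*e0^4*e1*e2^7 -
    135*ω^2*T^6*e0^3*e1^3*e2^6 + 126*ω^2*T^6*e0^2*e1^5*e2^5 - 27*ω^2*T^6*e0*e1^7*e2^4 +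
    3*ω^2*T^6*e1^9*e2^3 + 15*ω^2*T^5*e0^6*e2^6 + 126*ω^2*T^5*e0^5*e1^2*e2^5 -
    9*ω^2*T^5*e0^4*e1^4*e2^4 - 159*ω^2*T^5*e0^3*e1^6*e2^3 + 90*ω^2*T^5*e0^2*e1^8*e2^2 -
    27*ω^2*T^5*e0*e1^10*e2 + 4*ω^2*T^5*e1^12 - 90*ω^2*T^4*e0^7*e1*e2^4 +
    15*ω^2*T^4*e0^6*e1^3*e2^3 + 99*ω^2*T^4*e0^5*e1^5*e2^2 - 18*ω^2*T^4*e0^4*e1^7*e2 -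
    ω^2*T^4*e0^3*e1^9 + 15*ω^2*T^3*e0^9*e2^3 + 9*ω^2*T^3*e0^8*e1^2*e2^2 -
    63*ω^2*T^3*e0^7*e1^4*e2 + 9*ω^2*T^3*e0^6*e1^6 + 9*ω^2*T^2*e0^10*e1*e2 +
    10*ω^2*T^2*e0^9*e1^3 - 4*ω^2*T*e0^12 + 4*ω*T^9*e2^12 - 27*ω*T^8*e0*e1*e2^10 +
    2*ω*T^8*e1^3*e2^9 + 9*ω*T^7*e0^3*e2^9 + 63*ω*T^7*e0^2*e1^2*e2^8 + 9*ω*T^7*e0*e1^4*e2^7 -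
    9*ω*T^7*e1^6*e2^6 - 27*ω*T^6*e0^4*e1*e2^7 - 105*ω*T^6*e0^3*e1^3*e2^6 -
    36*ω*T^6*e0^2*e1^5*e2^5 + 45*ω*T^6*e0*e1^7*e2^4 - 8*ω*T^6*e1^9*e2^3 - 15*ω*T^5*e0^6*e2^6 +
    72*ω*T^5*e0^5*e1^2*e2^5 + 180*ω*T^5*e0^4*e1^4*e2^4 - 57*ω*T^5*e0^3*e1^6*e2^3 -
    18*ω*T^5*e0^2*e1^8*e2^2 + 9*ω*T^5*e0*e1^10*e2 - ω*T^5*e1^12 + 54*ω*T^4*e0^7*e1*e2^4 -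
    279*ω*T^4*e0^6*e1^3*e2^3 + 72*ω*T^4*e0^5*e1^5*e2^2 - 9*ω*T^4*e0^4*e1^7*e2 +
    3*ω*T^4*e0^3*e1^9 - 14*ω*T^3*e0^9*e2^3 + 90*ω*T^3*e0^8*e1^2*e2^2 + 36*ω*T^3*e0^7*e1^4*e2 -
    12*ω*T^3*e0^6*e1^6 - 27*ω*T^2*e0^10*e1*e2 - 10*ω*T^2*e0^9*e1^3 + 6*ω*T*e0^12 - T^9*e2^12 +
    9*T^8*e0*e1*e2^10 - 3*T^8*e1^3*e2^9 - 3*T^7*e0^3*e2^9 - 27*T^7*e0^2*e1^2*e2^8 +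
    18*T^7*e0*e1^4*e2^7 - 3*T^7*e1^6*e2^6 + 18*T^6*e0^4*e1*e2^7 + 21*T^6*e0^3*e1^3*e2^6 -
    27*T^6*e0^2*e1^5*e2^5 + 9*T^6*e0*e1^7*e2^4 - T^6*e1^9*e2^3 - 3*T^5*e0^6*e2^6 -
    27*T^5*e0^5*e1^2*e2^5 + 18*T^5*e0^4*e1^4*e2^4 - 3*T^5*e0^3*e1^6*e2^3 + 9*T^4*e0^7*e1*e2^4
    - 3*T^4*e0^6*e1^3*e2^3 - T^3*e0^9*e2^3) * hω

theorem pY_P {ω : R} (hω : ω^2 + ω + 1 = 0) (T e0 e1 e2 : R) :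
    pY ω T (pP0 ω T e0 e1 e2) (pP1 ω T e0 e1 e2) (pP2 ω T e0 e1 e2) =
      T * pN T e0 e1 e2 * pK ω T e0 e1 e2 * pY ω T e0 e1 e2 := by
  simp only [pY, pN, pK, pP0, pP1, pP2]
  linear_combination (8*ω^3*T^8*e1^3*e2^9 - 36*ω^3*T^7*e0^2*e1^2*e2^8 - 12*ω^3*T^7*e1^6*e2^6 +
    54*ω^3*T^6*e0^4*e1*e2^7 + 24*ω^3*T^6*e0^3*e1^3*e2^6 + 36*ω^3*T^6*e0^2*e1^5*e2^5 +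
    6*ω^3*T^6*e1^9*e2^3 - 27*ω^3*T^5*e0^6*e2^6 - 72*ω^3*T^5*e0^5*e1^2*e2^5 -
    27*ω^3*T^5*e0^4*e1^4*e2^4 - 24*ω^3*T^5*e0^3*e1^6*e2^3 - 9*ω^3*T^5*e0^2*e1^8*e2^2 -
    ω^3*T^5*e1^12 + 54*ω^3*T^4*e0^7*e1*e2^4 + 24*ω^3*T^4*e0^6*e1^3*e2^3 +
    36*ω^3*T^4*e0^5*e1^5*e2^2 + 6*ω^3*T^4*e0^3*e1^9 - 36*ω^3*T^3*e0^8*e1^2*e2^2 -
    12*ω^3*T^3*e0^6*e1^6 + 8*ω^3*T^2*e0^9*e1^3 + 4*ω^2*T^8*e1^3*e2^9 + 8*ω^2*T^7*e0^3*e2^9 -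
    36*ω^2*T^7*e0^2*e1^2*e2^8 + 18*ω^2*T^7*e0*e1^4*e2^7 - 15*ω^2*T^7*e1^6*e2^6 -
    27*ω^2*T^6*e0^4*e1*e2^7 + 144*ω^2*T^6*e0^3*e1^3*e2^6 - 126*ω^2*T^6*e0^2*e1^5*e2^5 +
    90*ω^2*T^6*e0*e1^7*e2^4 - 15*ω^2*T^6*e1^9*e2^3 + 15*ω^2*T^5*e0^6*e2^6 -
    45*ω^2*T^5*e0^5*e1^2*e2^5 - 45*ω^2*T^5*e0^4*e1^4*e2^4 - 6*ω^2*T^5*e0^3*e1^6*e2^3 -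
    9*ω^2*T^5*e0^2*e1^8*e2^2 - 9*ω^2*T^5*e0*e1^10*e2 + 4*ω^2*T^5*e1^12 -
    27*ω^2*T^4*e0^7*e1*e2^4 + 96*ω^2*T^4*e0^6*e1^3*e2^3 - 18*ω^2*T^4*e0^5*e1^5*e2^2 +
    36*ω^2*T^4*e0^4*e1^7*e2 - 7*ω^2*T^4*e0^3*e1^9 + 6*ω^2*T^3*e0^9*e2^3 -
    9*ω^2*T^3*e0^8*e1^2*e2^2 - 36*ω^2*T^3*e0^7*e1^4*e2 + 10*ω^2*T^2*e0^9*e1^3 - ω^2*T*e0^12 -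
    4*ω*T^9*e2^12 + 27*ω*T^8*e0*e1*e2^10 - 9*ω*T^8*e1^3*e2^9 + ω*T^7*e0^3*e2^9 -
    63*ω*T^7*e0^2*e1^2*e2^8 + 27*ω*T^7*e0*e1^4*e2^7 + 15*ω*T^7*e1^6*e2^6 -
    9*ω*T^6*e0^4*e1*e2^7 + 87*ω*T^6*e0^3*e1^3*e2^6 - 72*ω*T^6*e0^2*e1^5*e2^5 -
    54*ω*T^6*e0*e1^7*e2^4 + 14*ω*T^6*e1^9*e2^3 - 9*ω*T^5*e0^6*e2^6 + 36*ω*T^5*e0^5*e1^2*e2^5 -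
    99*ω*T^5*e0^4*e1^4*e2^4 + 261*ω*T^5*e0^3*e1^6*e2^3 - 90*ω*T^5*e0^2*e1^8*e2^2 +
    27*ω*T^5*e0*e1^10*e2 - 6*ω*T^5*e1^12 + 36*ω*T^4*e0^7*e1*e2^4 - 87*ω*T^4*e0^6*e1^3*e2^3 -
    72*ω*T^4*e0^5*e1^5*e2^2 - 36*ω*T^4*e0^4*e1^7*e2 + 13*ω*T^4*e0^3*e1^9 - 10*ω*T^3*e0^9*e2^3
    + 18*ω*T^3*e0^8*e1^2*e2^2 + 90*ω*T^3*e0^7*e1^4*e2 - 6*ω*T^3*e0^6*e1^6 -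
    9*ω*T^2*e0^10*e1*e2 - 21*ω*T^2*e0^9*e1^3 + 4*ω*T*e0^12 + T^9*e2^12 - 9*T^8*e0*e1*e2^10 +
    3*T^8*e1^3*e2^9 - 3*T^7*e0^3*e2^9 + 27*T^7*e0^2*e1^2*e2^8 - 18*T^7*e0*e1^4*e2^7 +
    3*T^7*e1^6*e2^6 + 9*T^6*e0^4*e1*e2^7 - 12*T^6*e0^3*e1^3*e2^6 + 27*T^6*e0^2*e1^5*e2^5 -
    9*T^6*e0*e1^7*e2^4 + T^6*e1^9*e2^3 + 12*T^5*e0^6*e2^6 - 54*T^5*e0^5*e1^2*e2^5 -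
    45*T^5*e0^4*e1^4*e2^4 + 12*T^5*e0^3*e1^6*e2^3 - 36*T^4*e0^7*e1*e2^4 +
    210*T^4*e0^6*e1^3*e2^3 - 81*T^4*e0^5*e1^5*e2^2 + 27*T^4*e0^4*e1^7*e2 - 6*T^4*e0^3*e1^9 +
    10*T^3*e0^9*e2^3 - 81*T^3*e0^8*e1^2*e2^2 - 27*T^3*e0^7*e1^4*e2 + 9*T^3*e0^6*e1^6 +
    27*T^2*e0^10*e1*e2 + 9*T^2*e0^9*e1^3 - 6*T*e0^12) * hω

theorem pZ_P {ω : R} (hω : ω^2 + ω + 1 = 0) (T e0 e1 e2 : R) :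
    pZ ω T (pP0 ω T e0 e1 e2) (pP1 ω T e0 e1 e2) (pP2 ω T e0 e1 e2) =
      ω^2 * T * pN T e0 e1 e2 * pK ω T e0 e1 e2 * pZ ω T e0 e1 e2 := by
  simp only [pZ, pN, pK, pP0, pP1, pP2]
  linear_combination (-3*ω^5*T^9*e1*e2^11 + 35*ω^5*T^8*e0*e1^2*e2^9 - 21*ω^5*T^8*e1^4*e2^8 -
    33*ω^5*T^7*e0^3*e1*e2^8 - 45*ω^5*T^7*e0^2*e1^3*e2^7 + 54*ω^5*T^7*e0*e1^5*e2^6 +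
    3*ω^5*T^7*e1^7*e2^5 + 18*ω^5*T^6*e0^5*e2^7 + 39*ω^5*T^6*e0^4*e1^2*e2^6 +
    27*ω^5*T^6*e0^3*e1^4*e2^5 - 99*ω^5*T^6*e0^2*e1^6*e2^4 + 21*ω^5*T^6*e0*e1^8*e2^3 -
    6*ω^5*T^6*e1^10*e2^2 - 21*ω^5*T^5*e0^6*e1*e2^5 - 27*ω^5*T^5*e0^5*e1^3*e2^4 +
    66*ω^5*T^5*e0^4*e1^5*e2^3 + 15*ω^5*T^5*e0^3*e1^7*e2^2 + 2*ω^5*T^5*e0*e1^11 -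
    9*ω^5*T^4*e0^8*e2^4 + 27*ω^5*T^4*e0^7*e1^2*e2^3 - 51*ω^5*T^4*e0^6*e1^4*e2^2 -
    9*ω^5*T^4*e0^4*e1^8 + 9*ω^5*T^3*e0^9*e1*e2^2 + 12*ω^5*T^3*e0^7*e1^5 - 4*ω^5*T^2*e0^10*e1^2
    + 2*ω^4*T^9*e1*e2^11 - 6*ω^4*T^8*e0^2*e2^10 - 31*ω^4*T^8*e0*e1^2*e2^9 +
    30*ω^4*T^8*e1^4*e2^8 + 72*ω^4*T^7*e0^3*e1*e2^8 + 6*ω^4*T^7*e0^2*e1^3*e2^7 -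
    87*ω^4*T^7*e0*e1^5*e2^6 + 9*ω^4*T^7*e1^7*e2^5 - 24*ω^4*T^6*e0^5*e2^7 -
    108*ω^4*T^6*e0^4*e1^2*e2^6 + 111*ω^4*T^6*e0^3*e1^4*e2^5 + 84*ω^4*T^6*e0^2*e1^6*e2^4 -
    36*ω^4*T^6*e0*e1^8*e2^3 + 8*ω^4*T^6*e1^10*e2^2 + 48*ω^4*T^5*e0^6*e1*e2^5 -
    9*ω^4*T^5*e0^5*e1^3*e2^4 - 114*ω^4*T^5*e0^4*e1^5*e2^3 - 6*ω^4*T^5*e0^3*e1^7*e2^2 +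
    18*ω^4*T^5*e0^2*e1^9*e2 - 7*ω^4*T^5*e0*e1^11 + 6*ω^4*T^4*e0^8*e2^4 -
    42*ω^4*T^4*e0^7*e1^2*e2^3 + 126*ω^4*T^4*e0^6*e1^4*e2^2 - 39*ω^4*T^4*e0^5*e1^6*e2 +
    12*ω^4*T^4*e0^4*e1^8 + 5*ω^4*T^3*e0^9*e1*e2^2 - 33*ω^4*T^3*e0^8*e1^3*e2 -
    3*ω^4*T^2*e0^11*e2 + 8*ω^4*T^2*e0^10*e1^2 + 2*ω^3*T^9*e1*e2^11 + 8*ω^3*T^8*e0^2*e2^10 -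
    19*ω^3*T^8*e0*e1^2*e2^9 - 6*ω^3*T^8*e1^4*e2^8 - 45*ω^3*T^7*e0^3*e1*e2^8 +
    111*ω^3*T^7*e0^2*e1^3*e2^7 + 3*ω^3*T^7*e0*e1^5*e2^6 - 9*ω^3*T^7*e1^7*e2^5 +
    9*ω^3*T^6*e0^5*e2^7 + 36*ω^3*T^6*e0^4*e1^2*e2^6 - 249*ω^3*T^6*e0^3*e1^4*e2^5 +
    90*ω^3*T^6*e0^2*e1^6*e2^4 - ω^3*T^6*e1^10*e2^2 - 24*ω^3*T^5*e0^6*e1*e2^5 +
    156*ω^3*T^5*e0^5*e1^3*e2^4 + 39*ω^3*T^5*e0^4*e1^5*e2^3 - 33*ω^3*T^5*e0^3*e1^7*e2^2 -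
    13*ω^3*T^5*e0^2*e1^9*e2 + 5*ω^3*T^5*e0*e1^11 + 3*ω^3*T^4*e0^8*e2^4 -
    33*ω^3*T^4*e0^7*e1^2*e2^3 - 117*ω^3*T^4*e0^6*e1^4*e2^2 + 66*ω^3*T^4*e0^5*e1^6*e2 -
    6*ω^3*T^4*e0^4*e1^8 - 4*ω^3*T^3*e0^9*e1*e2^2 + 54*ω^3*T^3*e0^8*e1^3*e2 -
    18*ω^3*T^3*e0^7*e1^5 + 2*ω^3*T^2*e0^11*e2 - 7*ω^3*T^2*e0^10*e1^2 - ω^2*T^9*e1*e2^11 -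
    ω^2*T^8*e0^2*e2^10 + 15*ω^2*T^8*e0*e1^2*e2^9 - 3*ω^2*T^8*e1^4*e2^8 -
    3*ω^2*T^7*e0^3*e1*e2^8 - 69*ω^2*T^7*e0^2*e1^3*e2^7 + 30*ω^2*T^7*e0*e1^5*e2^6 -
    3*ω^2*T^7*e1^7*e2^5 + 60*ω^2*T^6*e0^4*e1^2*e2^6 + 93*ω^2*T^6*e0^3*e1^4*e2^5 -
    72*ω^2*T^6*e0^2*e1^6*e2^4 + 15*ω^2*T^6*e0*e1^8*e2^3 - ω^2*T^6*e1^10*e2^2 -
    21*ω^2*T^5*e0^6*e1*e2^5 - 141*ω^2*T^5*e0^5*e1^3*e2^4 + 36*ω^2*T^5*e0^4*e1^5*e2^3 +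
    15*ω^2*T^5*e0^3*e1^7*e2^2 - 4*ω^2*T^5*e0^2*e1^9*e2 + 3*ω^2*T^4*e0^8*e2^4 +
    75*ω^2*T^4*e0^7*e1^2*e2^3 + 24*ω^2*T^4*e0^6*e1^4*e2^2 - 24*ω^2*T^4*e0^5*e1^6*e2 +
    3*ω^2*T^4*e0^4*e1^8 - 19*ω^2*T^3*e0^9*e1*e2^2 - 18*ω^2*T^3*e0^8*e1^3*e2 +
    6*ω^2*T^3*e0^7*e1^5 + 2*ω^2*T^2*e0^11*e2 + 3*ω^2*T^2*e0^10*e1^2 - ω*T^8*e0^2*e2^10 +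
    9*ω*T^7*e0^3*e1*e2^8 - 3*ω*T^7*e0^2*e1^3*e2^7 - 3*ω*T^6*e0^5*e2^7 -
    27*ω*T^6*e0^4*e1^2*e2^6 + 18*ω*T^6*e0^3*e1^4*e2^5 - 3*ω*T^6*e0^2*e1^6*e2^4 +
    18*ω*T^5*e0^6*e1*e2^5 + 21*ω*T^5*e0^5*e1^3*e2^4 - 27*ω*T^5*e0^4*e1^5*e2^3 +
    9*ω*T^5*e0^3*e1^7*e2^2 - ω*T^5*e0^2*e1^9*e2 - 3*ω*T^4*e0^8*e2^4 - 27*ω*T^4*e0^7*e1^2*e2^3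
    + 18*ω*T^4*e0^6*e1^4*e2^2 - 3*ω*T^4*e0^5*e1^6*e2 + 9*ω*T^3*e0^9*e1*e2^2 -
    3*ω*T^3*e0^8*e1^3*e2 - ω*T^2*e0^11*e2) * hω

theorem pW_P {ω : R} (hω : ω^2 + ω + 1 = 0) (T e0 e1 e2 : R) :
    pW ω T (pP0 ω T e0 e1 e2) (pP1 ω T e0 e1 e2) (pP2 ω T e0 e1 e2) =
      ω * T * pN T e0 e1 e2 * pK ω T e0 e1 e2 * pW ω T e0 e1 e2 := by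
  simp only [pW, pN, pK, pP0, pP1, pP2]
  linear_combination (-2*ω^5*T^8*e0*e2^11 + 3*ω^5*T^8*e1^2*e2^10 + 6*ω^5*T^7*e0*e1^3*e2^8 - 12*ω^5*T^7*e1^5*e2^7
    + 9*ω^5*T^6*e0^4*e2^8 - 24*ω^5*T^6*e0^3*e1^2*e2^7 + 18*ω^5*T^6*e0^2*e1^4*e2^6 +
    12*ω^5*T^6*e1^8*e2^4 - 12*ω^5*T^5*e0^4*e1^3*e2^5 + 36*ω^5*T^5*e0^3*e1^5*e2^4 -
    36*ω^5*T^5*e0^2*e1^7*e2^3 - 8*ω^5*T^5*e0*e1^9*e2^2 - 12*ω^5*T^4*e0^7*e2^5 +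
    42*ω^5*T^4*e0^6*e1^2*e2^4 - 54*ω^5*T^4*e0^5*e1^4*e2^3 + 15*ω^5*T^4*e0^4*e1^6*e2^2 +
    24*ω^5*T^4*e0^3*e1^8*e2 + 12*ω^5*T^3*e0^6*e1^5*e2 - 18*ω^5*T^3*e0^5*e1^7 +
    4*ω^5*T^2*e0^10*e2^2 - 12*ω^5*T^2*e0^9*e1^2*e2 + 9*ω^5*T^2*e0^8*e1^4 + 7*ω^4*T^8*e0*e2^11
    - 8*ω^4*T^8*e1^2*e2^10 - 18*ω^4*T^7*e0^2*e1*e2^9 + 9*ω^4*T^7*e0*e1^3*e2^8 +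
    18*ω^4*T^7*e1^5*e2^7 - 12*ω^4*T^6*e0^4*e2^8 + 33*ω^4*T^6*e0^3*e1^2*e2^7 -
    3*ω^4*T^6*e0^2*e1^4*e2^6 - 48*ω^4*T^6*e0*e1^6*e2^5 - 3*ω^4*T^6*e1^8*e2^4 +
    39*ω^4*T^5*e0^5*e1*e2^6 - 21*ω^4*T^5*e0^4*e1^3*e2^5 - 30*ω^4*T^5*e0^3*e1^5*e2^4 +
    75*ω^4*T^5*e0^2*e1^7*e2^3 + 4*ω^4*T^5*e0*e1^9*e2^2 - 2*ω^4*T^5*e1^11*e2 -
    99*ω^4*T^4*e0^6*e1^2*e2^4 + 90*ω^4*T^4*e0^5*e1^4*e2^3 - 27*ω^4*T^4*e0^4*e1^6*e2^2 -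
    45*ω^4*T^4*e0^3*e1^8*e2 + 6*ω^4*T^4*e0^2*e1^10 + 33*ω^4*T^3*e0^8*e1*e2^3 +
    15*ω^4*T^3*e0^7*e1^3*e2^2 - 21*ω^4*T^3*e0^6*e1^5*e2 + 24*ω^4*T^3*e0^5*e1^7 -
    8*ω^4*T^2*e0^10*e2^2 - 5*ω^4*T^2*e0^9*e1^2*e2 - 6*ω^4*T^2*e0^8*e1^4 + 3*ω^4*T*e0^11*e1 -
    5*ω^3*T^8*e0*e2^11 + 10*ω^3*T^8*e1^2*e2^10 + 13*ω^3*T^7*e0^2*e1*e2^9 -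
    27*ω^3*T^7*e0*e1^3*e2^8 - 18*ω^3*T^7*e1^5*e2^7 + 6*ω^3*T^6*e0^4*e2^8 +
    6*ω^3*T^6*e0^3*e1^2*e2^7 - 9*ω^3*T^6*e0^2*e1^4*e2^6 + 105*ω^3*T^6*e0*e1^6*e2^5 -
    21*ω^3*T^6*e1^8*e2^4 - 66*ω^3*T^5*e0^5*e1*e2^6 + 69*ω^3*T^5*e0^4*e1^3*e2^5 -
    102*ω^3*T^5*e0^3*e1^5*e2^4 - 30*ω^3*T^5*e0^2*e1^7*e2^3 - 8*ω^3*T^5*e0*e1^9*e2^2 +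
    7*ω^3*T^5*e1^11*e2 + 18*ω^3*T^4*e0^7*e2^5 + 90*ω^3*T^4*e0^6*e1^2*e2^4 -
    75*ω^3*T^4*e0^5*e1^4*e2^3 + 72*ω^3*T^4*e0^4*e1^6*e2^2 + 18*ω^3*T^4*e0^3*e1^8*e2 -
    8*ω^3*T^4*e0^2*e1^10 - 54*ω^3*T^3*e0^8*e1*e2^3 + 6*ω^3*T^3*e0^7*e1^3*e2^2 -
    3*ω^3*T^3*e0^6*e1^5*e2 - 9*ω^3*T^3*e0^5*e1^7 + 7*ω^3*T^2*e0^10*e2^2 +
    13*ω^3*T^2*e0^9*e1^2*e2 - 3*ω^3*T^2*e0^8*e1^4 - 2*ω^3*T*e0^11*e1 - 5*ω^2*T^8*e1^2*e2^10 +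
    4*ω^2*T^7*e0^2*e1*e2^9 + 12*ω^2*T^7*e0*e1^3*e2^8 + 12*ω^2*T^7*e1^5*e2^7 -
    3*ω^2*T^6*e0^4*e2^8 - 6*ω^2*T^6*e0^3*e1^2*e2^7 - 9*ω^2*T^6*e0^2*e1^4*e2^6 -
    57*ω^2*T^6*e0*e1^6*e2^5 + 12*ω^2*T^6*e1^8*e2^4 + 24*ω^2*T^5*e0^5*e1*e2^6 -
    63*ω^2*T^5*e0^4*e1^3*e2^5 + 114*ω^2*T^5*e0^3*e1^5*e2^4 - 12*ω^2*T^5*e0^2*e1^7*e2^3 +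
    12*ω^2*T^5*e0*e1^9*e2^2 - 5*ω^2*T^5*e1^11*e2 - 6*ω^2*T^4*e0^7*e2^5 -
    15*ω^2*T^4*e0^6*e1^2*e2^4 + 60*ω^2*T^4*e0^5*e1^4*e2^3 - 87*ω^2*T^4*e0^4*e1^6*e2^2 +
    12*ω^2*T^4*e0^3*e1^8*e2 + ω^2*T^4*e0^2*e1^10 + 18*ω^2*T^3*e0^8*e1*e2^3 -
    48*ω^2*T^3*e0^7*e1^3*e2^2 + 30*ω^2*T^3*e0^6*e1^5*e2 - 3*ω^2*T^2*e0^10*e2^2 +
    13*ω^2*T^2*e0^9*e1^2*e2 - 3*ω^2*T^2*e0^8*e1^4 - 2*ω^2*T*e0^11*e1 + ω*T^7*e0^2*e1*e2^9 -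
    9*ω*T^6*e0^3*e1^2*e2^7 + 3*ω*T^6*e0^2*e1^4*e2^6 + 3*ω*T^5*e0^5*e1*e2^6 +
    27*ω*T^5*e0^4*e1^3*e2^5 - 18*ω*T^5*e0^3*e1^5*e2^4 + 3*ω*T^5*e0^2*e1^7*e2^3 -
    18*ω*T^4*e0^6*e1^2*e2^4 - 21*ω*T^4*e0^5*e1^4*e2^3 + 27*ω*T^4*e0^4*e1^6*e2^2 -
    9*ω*T^4*e0^3*e1^8*e2 + ω*T^4*e0^2*e1^10 + 3*ω*T^3*e0^8*e1*e2^3 + 27*ω*T^3*e0^7*e1^3*e2^2 -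
    18*ω*T^3*e0^6*e1^5*e2 + 3*ω*T^3*e0^5*e1^7 - 9*ω*T^2*e0^9*e1^2*e2 + 3*ω*T^2*e0^8*e1^4 +
    ω*T*e0^11*e1) * hω

theorem pN_P {ω : R} (hω : ω^2 + ω + 1 = 0) (T e0 e1 e2 : R) :
    pN T (pP0 ω T e0 e1 e2) (pP1 ω T e0 e1 e2) (pP2 ω T e0 e1 e2) =
      T * pN T e0 e1 e2 ^ 2 * pC ω T e0 e1 e2 := by
  simp only [pN, pC, pP0, pP1, pP2]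
  linear_combination (-ω*T^9*e2^12 + 12*ω*T^8*e0*e1*e2^10 - 4*ω*T^8*e1^3*e2^9 - 4*ω*T^7*e0^3*e2^9 -
    54*ω*T^7*e0^2*e1^2*e2^8 + 36*ω*T^7*e0*e1^4*e2^7 - 6*ω*T^7*e1^6*e2^6 +
    36*ω*T^6*e0^4*e1*e2^7 + 96*ω*T^6*e0^3*e1^3*e2^6 - 108*ω*T^6*e0^2*e1^5*e2^5 +
    36*ω*T^6*e0*e1^7*e2^4 - 4*ω*T^6*e1^9*e2^3 - 6*ω*T^5*e0^6*e2^6 - 108*ω*T^5*e0^5*e1^2*e2^5 -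
    9*ω*T^5*e0^4*e1^4*e2^4 + 96*ω*T^5*e0^3*e1^6*e2^3 - 54*ω*T^5*e0^2*e1^8*e2^2 +
    12*ω*T^5*e0*e1^10*e2 - ω*T^5*e1^12 + 36*ω*T^4*e0^7*e1*e2^4 + 96*ω*T^4*e0^6*e1^3*e2^3 -
    108*ω*T^4*e0^5*e1^5*e2^2 + 36*ω*T^4*e0^4*e1^7*e2 - 4*ω*T^4*e0^3*e1^9 - 4*ω*T^3*e0^9*e2^3 -
    54*ω*T^3*e0^8*e1^2*e2^2 + 36*ω*T^3*e0^7*e1^4*e2 - 6*ω*T^3*e0^6*e1^6 + 12*ω*T^2*e0^10*e1*e2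
    - 4*ω*T^2*e0^9*e1^3 - ω*T*e0^12 + 4*T^9*e2^12 - 21*T^8*e0*e1*e2^10 + 16*T^8*e1^3*e2^9 +
    16*T^7*e0^3*e2^9 - 27*T^7*e0^2*e1^2*e2^8 - 63*T^7*e0*e1^4*e2^7 + 24*T^7*e1^6*e2^6 -
    63*T^6*e0^4*e1*e2^7 + 345*T^6*e0^3*e1^3*e2^6 - 54*T^6*e0^2*e1^5*e2^5 - 63*T^6*e0*e1^7*e2^4
    + 16*T^6*e1^9*e2^3 + 24*T^5*e0^6*e2^6 - 54*T^5*e0^5*e1^2*e2^5 - 531*T^5*e0^4*e1^4*e2^4 +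
    345*T^5*e0^3*e1^6*e2^3 - 27*T^5*e0^2*e1^8*e2^2 - 21*T^5*e0*e1^10*e2 + 4*T^5*e1^12 -
    63*T^4*e0^7*e1*e2^4 + 345*T^4*e0^6*e1^3*e2^3 - 54*T^4*e0^5*e1^5*e2^2 - 63*T^4*e0^4*e1^7*e2
    + 16*T^4*e0^3*e1^9 + 16*T^3*e0^9*e2^3 - 27*T^3*e0^8*e1^2*e2^2 - 63*T^3*e0^7*e1^4*e2 +
    24*T^3*e0^6*e1^6 - 21*T^2*e0^10*e1*e2 + 16*T^2*e0^9*e1^3 + 4*T*e0^12) * hω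

theorem f0_eq {ω : R} (hω : ω^2 + ω + 1 = 0) (T e0 e1 e2 : R) :
    pZ ω T e0 e1 e2^3 - ω^2*T^2*pW ω T e0 e1 e2^3 - (1-ω)*T*(pY ω T e0 e1 e2*pZ ω T e0 e1 e2*pW ω T e0 e1 e2) =
      e0 * pP0 ω T e0 e1 e2 * pQ0 ω T e0 e1 e2 := by
  simp only [pY, pZ, pW, pP0, pQ0]
  linear_combination (ω^12*T^2*e0^6*e1^3 + 3*ω^11*T^3*e0^5*e1^2*e2^2 - 4*ω^11*T^2*e0^6*e1^3 + ω^10*T^6*e1^3*e2^6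
    + 3*ω^10*T^4*e0^4*e1*e2^4 - 12*ω^10*T^3*e0^5*e1^2*e2^2 + 3*ω^10*T^3*e0^4*e1^4*e2 +
    6*ω^10*T^2*e0^6*e1^3 - 4*ω^9*T^6*e1^3*e2^6 + ω^9*T^5*e0^3*e2^6 + 2*ω^9*T^5*e0^2*e1^2*e2^5
    - 12*ω^9*T^4*e0^4*e1*e2^4 + 6*ω^9*T^4*e0^3*e1^3*e2^3 + 18*ω^9*T^3*e0^5*e1^2*e2^2 -
    12*ω^9*T^3*e0^4*e1^4*e2 - 3*ω^9*T^2*e0^6*e1^3 - ω^8*T^6*e0*e1*e2^7 + 6*ω^8*T^6*e1^3*e2^6 -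
    4*ω^8*T^5*e0^3*e2^6 - 5*ω^8*T^5*e0^2*e1^2*e2^5 + 3*ω^8*T^5*e0*e1^4*e2^4 +
    20*ω^8*T^4*e0^4*e1*e2^4 - 24*ω^8*T^4*e0^3*e1^3*e2^3 + 2*ω^8*T^4*e0^2*e1^5*e2^2 -
    9*ω^8*T^3*e0^5*e1^2*e2^2 + 18*ω^8*T^3*e0^4*e1^4*e2 - 3*ω^8*T^2*e0^6*e1^3 +
    4*ω^7*T^6*e0*e1*e2^7 - 4*ω^7*T^6*e1^3*e2^6 + 5*ω^7*T^5*e0^3*e2^6 - 10*ω^7*T^5*e0*e1^4*e2^4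
    - 17*ω^7*T^4*e0^4*e1*e2^4 + 41*ω^7*T^4*e0^3*e1^3*e2^3 - 8*ω^7*T^4*e0^2*e1^5*e2^2 +
    ω^7*T^3*e0^6*e2^3 - 10*ω^7*T^3*e0^5*e1^2*e2^2 - 10*ω^7*T^3*e0^4*e1^4*e2 +
    6*ω^7*T^2*e0^6*e1^3 - 6*ω^6*T^6*e0*e1*e2^7 + ω^6*T^6*e1^3*e2^6 + ω^6*T^5*e0^3*e2^6 +
    10*ω^6*T^5*e0^2*e1^2*e2^5 + 10*ω^6*T^5*e0*e1^4*e2^4 + 2*ω^6*T^4*e0^4*e1*e2^4 -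
    39*ω^6*T^4*e0^3*e1^3*e2^3 + 15*ω^6*T^4*e0^2*e1^5*e2^2 - 4*ω^6*T^3*e0^6*e2^3 +
    25*ω^6*T^3*e0^5*e1^2*e2^2 - 5*ω^6*T^3*e0^4*e1^4*e2 - ω^6*T^3*e0^3*e1^6 -
    ω^6*T^2*e0^7*e1*e2 - 3*ω^6*T^2*e0^6*e1^3 + 3*ω^5*T^6*e0*e1*e2^7 - 9*ω^5*T^5*e0^3*e2^6 -
    7*ω^5*T^5*e0^2*e1^2*e2^5 + 2*ω^5*T^5*e0*e1^4*e2^4 + 16*ω^5*T^4*e0^4*e1*e2^4 +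
    15*ω^5*T^4*e0^3*e1^3*e2^3 - 20*ω^5*T^4*e0^2*e1^5*e2^2 + 5*ω^5*T^3*e0^6*e2^3 -
    27*ω^5*T^3*e0^5*e1^2*e2^2 + 15*ω^5*T^3*e0^4*e1^4*e2 + 4*ω^5*T^3*e0^3*e1^6 +
    4*ω^5*T^2*e0^7*e1*e2 - 4*ω^5*T^2*e0^6*e1^3 + 3*ω^4*T^6*e0*e1*e2^7 + 9*ω^4*T^5*e0^3*e2^6 -
    9*ω^4*T^5*e0^2*e1^2*e2^5 - 11*ω^4*T^5*e0*e1^4*e2^4 - 21*ω^4*T^4*e0^4*e1*e2^4 +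
    19*ω^4*T^4*e0^3*e1^3*e2^3 + 20*ω^4*T^4*e0^2*e1^5*e2^2 - ω^4*T^4*e0*e1^7*e2 +
    ω^4*T^3*e0^6*e2^3 + 10*ω^4*T^3*e0^5*e1^2*e2^2 - 18*ω^4*T^3*e0^4*e1^4*e2 -
    5*ω^4*T^3*e0^3*e1^6 - 6*ω^4*T^2*e0^7*e1*e2 + 10*ω^4*T^2*e0^6*e1^3 - 6*ω^3*T^6*e0*e1*e2^7 +
    18*ω^3*T^5*e0^2*e1^2*e2^5 + 6*ω^3*T^5*e0*e1^4*e2^4 + 6*ω^3*T^4*e0^4*e1*e2^4 -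
    36*ω^3*T^4*e0^3*e1^3*e2^3 - 9*ω^3*T^4*e0^2*e1^5*e2^2 + 4*ω^3*T^4*e0*e1^7*e2 -
    9*ω^3*T^3*e0^6*e2^3 + 20*ω^3*T^3*e0^5*e1^2*e2^2 + 11*ω^3*T^3*e0^4*e1^4*e2 -
    ω^3*T^3*e0^3*e1^6 + 3*ω^3*T^2*e0^7*e1*e2 - 9*ω^3*T^2*e0^6*e1^3 + 3*ω^2*T^6*e0*e1*e2^7 -
    9*ω^2*T^5*e0^3*e2^6 - 9*ω^2*T^5*e0^2*e1^2*e2^5 + 6*ω^2*T^5*e0*e1^4*e2^4 +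
    15*ω^2*T^4*e0^4*e1*e2^4 + 18*ω^2*T^4*e0^3*e1^3*e2^3 - 9*ω^2*T^4*e0^2*e1^5*e2^2 -
    6*ω^2*T^4*e0*e1^7*e2 + 9*ω^2*T^3*e0^6*e2^3 - 36*ω^2*T^3*e0^5*e1^2*e2^2 +
    7*ω^2*T^3*e0^4*e1^4*e2 + 9*ω^2*T^3*e0^3*e1^6 + 3*ω^2*T^2*e0^7*e1*e2 + 3*ω*T^6*e0*e1*e2^7 +
    9*ω*T^5*e0^3*e2^6 - 9*ω*T^5*e0^2*e1^2*e2^5 - 12*ω*T^5*e0*e1^4*e2^4 - 21*ω*T^4*e0^4*e1*e2^4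
    + 18*ω*T^4*e0^3*e1^3*e2^3 + 18*ω*T^4*e0^2*e1^5*e2^2 + 3*ω*T^4*e0*e1^7*e2 +
    18*ω*T^3*e0^5*e1^2*e2^2 - 21*ω*T^3*e0^4*e1^4*e2 - 9*ω*T^3*e0^3*e1^6 - 6*ω*T^2*e0^7*e1*e2 +
    9*ω*T^2*e0^6*e1^3 - 3*T^6*e0*e1*e2^7 - 3*T^5*e0^3*e2^6 + 15*T^5*e0^2*e1^2*e2^5 +
    3*T^4*e0^4*e1*e2^4 - 21*T^4*e0^3*e1^3*e2^3 - 3*T^4*e0^2*e1^5*e2^2 + 3*T^4*e0*e1^7*e2 -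
    3*T^3*e0^6*e2^3 + 15*T^3*e0^5*e1^2*e2^2 - 3*T^2*e0^7*e1*e2) * hω

theorem cubic_eq {ω : R} (hω : ω^2 + ω + 1 = 0) (T e0 e1 e2 : R) :
    T*pX ω T e0 e1 e2^3 + T*pY ω T e0 e1 e2^3 + pZ ω T e0 e1 e2^3 + T^2*pW ω T e0 e1 e2^3 =
      0 := by
  simp only [pX, pY, pZ, pW]
  linear_combination (ω^10*T^6*e1^3*e2^6 - ω^10*T^2*e0^6*e1^3 - 4*ω^9*T^6*e1^3*e2^6 + 3*ω^9*T^5*e0^2*e1^2*e2^5 -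
    3*ω^9*T^3*e0^5*e1^2*e2^2 + 4*ω^9*T^2*e0^6*e1^3 + 6*ω^8*T^6*e1^3*e2^6 -
    12*ω^8*T^5*e0^2*e1^2*e2^5 + 3*ω^8*T^5*e0*e1^4*e2^4 + 12*ω^8*T^3*e0^5*e1^2*e2^2 -
    3*ω^8*T^3*e0^4*e1^4*e2 - 6*ω^8*T^2*e0^6*e1^3 - 3*ω^7*T^6*e1^3*e2^6 - ω^7*T^5*e0^3*e2^6 +
    18*ω^7*T^5*e0^2*e1^2*e2^5 - 12*ω^7*T^5*e0*e1^4*e2^4 + ω^7*T^3*e0^6*e2^3 -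
    18*ω^7*T^3*e0^5*e1^2*e2^2 + 12*ω^7*T^3*e0^4*e1^4*e2 + 3*ω^7*T^2*e0^6*e1^3 -
    3*ω^6*T^6*e1^3*e2^6 + 4*ω^6*T^5*e0^3*e2^6 - 12*ω^6*T^5*e0^2*e1^2*e2^5 +
    18*ω^6*T^5*e0*e1^4*e2^4 - 4*ω^6*T^3*e0^6*e2^3 + 12*ω^6*T^3*e0^5*e1^2*e2^2 -
    18*ω^6*T^3*e0^4*e1^4*e2 + 3*ω^6*T^2*e0^6*e1^3 + 6*ω^5*T^6*e1^3*e2^6 - 6*ω^5*T^5*e0^3*e2^6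
    + 3*ω^5*T^5*e0^2*e1^2*e2^5 - 12*ω^5*T^5*e0*e1^4*e2^4 + 6*ω^5*T^3*e0^6*e2^3 -
    3*ω^5*T^3*e0^5*e1^2*e2^2 + 12*ω^5*T^3*e0^4*e1^4*e2 - 6*ω^5*T^2*e0^6*e1^3 + ω^4*T^7*e2^9 -
    3*ω^4*T^6*e1^3*e2^6 + 3*ω^4*T^5*e0^3*e2^6 + 3*ω^4*T^5*e0*e1^4*e2^4 - ω^4*T^5*e1^6*e2^3 -
    ω^4*T^4*e1^9 - 3*ω^4*T^3*e0^6*e2^3 - 3*ω^4*T^3*e0^4*e1^4*e2 + ω^4*T^3*e0^3*e1^6 +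
    3*ω^4*T^2*e0^6*e1^3 - ω^3*T^7*e2^9 + 3*ω^3*T^5*e0^3*e2^6 + ω^3*T^5*e1^6*e2^3 +
    ω^3*T^4*e1^9 - 3*ω^3*T^3*e0^6*e2^3 - 4*ω^3*T^3*e0^3*e1^6 + 3*ω^3*T^2*e0^6*e1^3 -
    3*ω^2*T^5*e0^3*e2^6 + 6*ω^2*T^3*e0^6*e2^3 + 3*ω^2*T^3*e0^3*e1^6 - 6*ω^2*T^2*e0^6*e1^3 -
    3*ω*T^3*e0^6*e2^3 + 3*ω*T^2*e0^6*e1^3) * hω

theorem inv2_eq {ω : R} (hω : ω^2 + ω + 1 = 0) (T e0 e1 e2 : R) :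
    T*e2*(pX ω T e0 e1 e2^2 - pX ω T e0 e1 e2*pY ω T e0 e1 e2 + pY ω T e0 e1 e2^2 - ω*pZ ω T e0 e1 e2*pW ω T e0 e1 e2) =
      e0*(-pX ω T e0 e1 e2*pZ ω T e0 e1 e2 - ω*pY ω T e0 e1 e2*pZ ω T e0 e1 e2 + ω*T*pW ω T e0 e1 e2^2) := by
  simp only [pX, pY, pZ, pW]
  linear_combination (ω^7*T^3*e0^2*e1^2*e2^3 - ω^7*T*e0^5*e1^2 + ω^6*T^4*e0*e1*e2^5 - 3*ω^6*T^3*e0^2*e1^2*e2^3 -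
    ω^6*T^2*e0^4*e1*e2^2 + 3*ω^6*T*e0^5*e1^2 - 2*ω^5*T^4*e0*e1*e2^5 + ω^5*T^4*e1^3*e2^4 +
    3*ω^5*T^3*e0^2*e1^2*e2^3 + 3*ω^5*T^2*e0^4*e1*e2^2 - ω^5*T^2*e0^3*e1^3*e2 -
    3*ω^5*T*e0^5*e1^2 + ω^4*T^4*e0*e1*e2^5 - 3*ω^4*T^4*e1^3*e2^4 + ω^4*T^3*e0^3*e2^4 -
    3*ω^4*T^2*e0^4*e1*e2^2 + 3*ω^4*T^2*e0^3*e1^3*e2 + 3*ω^3*T^4*e1^3*e2^4 -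
    2*ω^3*T^3*e0^3*e2^4 - 2*ω^3*T^3*e0^2*e1^2*e2^3 + ω^3*T^2*e0^4*e1*e2^2 -
    3*ω^3*T^2*e0^3*e1^3*e2 + 3*ω^3*T*e0^5*e1^2 + ω^2*T^5*e2^7 + ω^2*T^4*e1^3*e2^4 +
    ω^2*T^3*e0^2*e1^2*e2^3 + ω^2*T^3*e1^6*e2 + ω^2*T*e0^6*e2 - 3*ω^2*T*e0^5*e1^2 +
    3*ω*T^3*e0^3*e2^4 + 3*ω*T^2*e0^3*e1^3*e2 - 3*ω*T*e0^6*e2 + ω*T*e0^5*e1^2 + 3*T*e0^6*e2) * hω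

theorem inv1_eq {ω : R} (hω : ω^2 + ω + 1 = 0) (T e0 e1 e2 : R) :
    T*e1*(pX ω T e0 e1 e2^2 - pX ω T e0 e1 e2*pY ω T e0 e1 e2 + pY ω T e0 e1 e2^2 - ω*pZ ω T e0 e1 e2*pW ω T e0 e1 e2) =
      e0*(pZ ω T e0 e1 e2^2 - T*pX ω T e0 e1 e2*pW ω T e0 e1 e2 - ω^2*T*pY ω T e0 e1 e2*pW ω T e0 e1 e2) := by
  simp only [pX, pY, pZ, pW]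
  linear_combination (ω^7*T^3*e0^2*e1^3*e2^2 - ω^6*T^3*e0^3*e1*e2^3 - 3*ω^6*T^3*e0^2*e1^3*e2^2 +
    ω^6*T^2*e0^4*e1^2*e2 - ω^5*T^4*e0^2*e2^5 + ω^5*T^4*e1^4*e2^3 + ω^5*T^3*e0^3*e1*e2^3 +
    3*ω^5*T^3*e0^2*e1^3*e2^2 - 3*ω^5*T^2*e0^4*e1^2*e2 + 2*ω^4*T^4*e0^2*e2^5 -
    ω^4*T^4*e0*e1^2*e2^4 - 3*ω^4*T^4*e1^4*e2^3 + 2*ω^4*T^3*e0^3*e1*e2^3 -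
    ω^4*T^3*e0^2*e1^3*e2^2 - ω^4*T^2*e0^5*e2^2 + 3*ω^4*T^2*e0^4*e1^2*e2 - ω^4*T*e0^6*e1 -
    ω^3*T^4*e0^2*e2^5 + 2*ω^3*T^4*e0*e1^2*e2^4 + 3*ω^3*T^4*e1^4*e2^3 - 3*ω^3*T^3*e0^3*e1*e2^3
    + 2*ω^3*T^2*e0^5*e2^2 - 2*ω^3*T^2*e0^4*e1^2*e2 + 2*ω^3*T*e0^6*e1 + ω^2*T^5*e1*e2^6 -
    ω^2*T^4*e0*e1^2*e2^4 + ω^2*T^4*e1^4*e2^3 + ω^2*T^3*e1^7 - ω^2*T^2*e0^5*e2^2 +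
    2*ω^2*T^2*e0^4*e1^2*e2 - ω^2*T^2*e0^3*e1^4 + 3*ω*T^3*e0^3*e1*e2^3 - ω*T^2*e0^4*e1^2*e2 +
    3*ω*T^2*e0^3*e1^4 - 3*ω*T*e0^6*e1 + 3*T*e0^6*e1) * hω

end Pool.Agent.Work.MP_c5a777_ag
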