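import Pool.Agent.Work.MP_c5a777_ag.Bd.B05
import Pool.Agent.Work.MP_c5a777_ag.Bd.B04
import Pool.Agent.Work.MP_c5a777_ag.Bd.B02

/-!
The example over the rational function field `ℂ(p)`.
-/

open Polynomial

namespace Pool.Agent.Work.MP_c5a777_ag

section Auto

variable (w : ℂ) (hw : w ^ 2 + w + 1 = 0)

include hw in
theorem w_ne : w ≠ 0 := by rintro rfl; simp at hw

include hw in
theorem w_cube : w ^ 3 = 1 := by linear_combination (w - 1) * hw

/-- the substitution `p ↦ w p` -/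
noncomputable def polyAuto : ℂ[X] ≃ₐ[ℂ] ℂ[X] :=
  haveI := invertibleOfNonzero (w_ne w hw)
  algEquivCMulXAddC w 0

theorem polyAuto_X : polyAuto w hw X = C w * X := by
  simp [polyAuto, algEquivCMulXAddC_apply]

theorem polyAuto_C (z : ℂ) : polyAuto w hw (C z) = C z :=
  (polyAuto w hw).commutes z

/-- the automorphism `p ↦ w p` of `ℂ(p)` -/
noncomputable def sz : RatFunc ℂ ≃+* RatFunc ℂ :=
  IsFractionRing.ringEquivOfRingEquiv (K := RatFunc ℂ) (L := RatFunc ℂ)
    (polyAuto w hw).toRingEquiv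

theorem sz_alg (q : ℂ[X]) : sz w hw (algebraMap ℂ[X] (RatFunc ℂ) q) =
    algebraMap ℂ[X] (RatFunc ℂ) (polyAuto w hw q) :=
  IsFractionRing.ringEquivOfRingEquiv_algebraMap _ _

theorem sz_C (z : ℂ) : sz w hw (RatFunc.C z) = RatFunc.C z := by
  rw [← RatFunc.algebraMap_C, sz_alg, polyAuto_C]

theorem sz_X : sz w hw RatFunc.X = RatFunc.C w * RatFunc.X := by
  rw [← RatFunc.algebraMap_X, sz_alg, polyAuto_X, map_mul, RatFunc.algebraMap_C]

theorem polyAuto_three (q : ℂ[X]) : polyAuto w hw (polyAuto w hw (polyAuto w hw q)) = q := by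
  have h : ((polyAuto w hw).toAlgHom.comp (polyAuto w hw).toAlgHom).comp
      (polyAuto w hw).toAlgHom = AlgHom.id ℂ ℂ[X] := by
    refine Polynomial.algHom_ext ?_
    change polyAuto w hw (polyAuto w hw (polyAuto w hw X)) = X
    rw [polyAuto_X, map_mul, map_mul, polyAuto_C, polyAuto_C, polyAuto_X, map_mul,
      polyAuto_C, polyAuto_X]
    rw [← mul_assoc, ← mul_assoc, ← C_mul, ← C_mul]
    have : w * w * w = 1 := by linear_combination (w_cube w hw)
    rw [this, C_1, one_mul]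
  exact congrArg (fun f : ℂ[X] →ₐ[ℂ] ℂ[X] => f q) h

theorem sz_three (k : RatFunc ℂ) : sz w hw (sz w hw (sz w hw k)) = k := by
  obtain ⟨x, y, hy, rfl⟩ := IsFractionRing.div_surjective (A := ℂ[X]) k
  simp only [map_div₀, sz_alg, polyAuto_three]

/-- `T = p³ - 1` -/
noncomputable def Tz : RatFunc ℂ := RatFunc.X ^ 3 - 1

theorem sz_T : sz w hw Tz = Tz := by
  unfold Tz
  rw [map_sub, map_pow, sz_X, map_one, mul_pow, ← map_pow, w_cube w hw, map_one, one_mul]

theorem Tz_ne : Tz ≠ 0 := by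
  intro h
  have := not_cube 1 one_ne_zero 0
  apply this
  change (0 : RatFunc ℂ) ^ 3 = RatFunc.C 1 * Tz
  rw [h]; simp

theorem wz : (RatFunc.C w : RatFunc ℂ) ^ 2 + RatFunc.C w + 1 = 0 ↔ w ^ 2 + w + 1 = 0 := by
  rw [← map_pow, ← map_add, ← map_one (RatFunc.C : ℂ →+* RatFunc ℂ), ← map_add]
  exact map_eq_zero_iff _ (RatFunc.C_injective)

end Auto

section Field

variable (w : ℂ) (hw : w ^ 2 + w + 1 = 0)

/-- the purely transcendental field `ℂ(p)(e1, e2)` -/
abbrev FF := FractionRing ((RatFunc ℂ)[X][X])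

/-- the cube root of one in `ℂ(p)` -/
noncomputable abbrev wK : RatFunc ℂ := RatFunc.C w

include hw in
theorem hwK : wK w ^ 2 + wK w + 1 = 0 := (wz w).2 hw

theorem exists_roots : ∃ θ η : ℂ, θ ^ 2 - (1 - 3 * w ^ 2) * θ + 1 = 0 ∧
    η ^ 2 - (1 - 3 * w) * η + 1 = 0 := by
  have key : ∀ b : ℂ, ∃ θ : ℂ, θ ^ 2 - b * θ + 1 = 0 := by
    intro b
    obtain ⟨z, hz⟩ := IsAlgClosed.exists_pow_nat_eq (b ^ 2 - 4) (n := 2) (by norm_num)
    refine ⟨(b + z) / 2, ?_⟩
    linear_combination (1 / 4) * hz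
  obtain ⟨θ, hθ⟩ := key (1 - 3 * w ^ 2)
  obtain ⟨η, hη⟩ := key (1 - 3 * w)
  exact ⟨θ, η, hθ, hη⟩

theorem three_ne : (3 : RatFunc ℂ) ≠ 0 := by norm_num

theorem map_root {θ b : ℂ} (h : θ ^ 2 - b * θ + 1 = 0) :
    (RatFunc.C θ : RatFunc ℂ) ^ 2 - RatFunc.C b * RatFunc.C θ + 1 = 0 := by
  have := congrArg (RatFunc.C : ℂ →+* RatFunc ℂ) h
  simpa using this

theorem root_C {θ : ℂ} (hθ : θ ^ 2 - (1 - 3 * w ^ 2) * θ + 1 = 0) :
    (RatFunc.C θ : RatFunc ℂ) ^ 2 - (1 - 3 * wK w ^ 2) * RatFunc.C θ + 1 = 0 := by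
  have := map_root hθ
  rw [map_sub, map_mul, map_one, map_pow, map_ofNat] at this
  exact this

theorem root_K {η : ℂ} (hη : η ^ 2 - (1 - 3 * w) * η + 1 = 0) :
    (RatFunc.C η : RatFunc ℂ) ^ 2 - (1 - 3 * wK w) * RatFunc.C η + 1 = 0 := by
  have := map_root hη
  rw [map_sub, map_mul, map_one, map_ofNat] at this
  exact this

include hw in
theorem gM_ne : gM (wK w) Tz ≠ 0 := by
  obtain ⟨θ, η, hθ, hη⟩ := exists_roots w
  refine gM_ne_zero (wK w) Tz (hwK w hw) three_ne Tz_ne (RatFunc.C θ) ?_ (RatFunc.C η) ?_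
  · exact root_C w hθ
  · exact root_K w hη

/-- the localized ring, as a subring of the field -/
noncomputable abbrev RR : Subalgebra ((RatFunc ℂ)[X][X]) FF :=
  Localization.subalgebra.ofField FF (Submonoid.powers (gM (wK w) Tz))
    (powers_le_nonZeroDivisors_of_noZeroDivisors (gM_ne w hw))

instance : IsLocalization.Away (gM (wK w) Tz) (RR w hw) :=
  Localization.subalgebra.isLocalization_ofField FF _ _

instance : IsFractionRing (RR w hw) FF :=
  Localization.subalgebra.isFractionRing_ofField FF _ _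

/-- the automorphism of order three of `ℂ(p)(e1, e2)` -/
noncomputable def sg : FF ≃+* FF :=
  IsFractionRing.ringEquivOfRingEquiv (A := RR w hw) (B := RR w hw)
    (psiEquiv (sz w hw) (wK w) Tz (hwK w hw) Tz_ne (sz_C w hw w) (sz_T w hw) (RR w hw)
      (sz_three w hw))

theorem sg_alg (r : RR w hw) : sg w hw (algebraMap (RR w hw) FF r) =
    algebraMap (RR w hw) FF (psi (sz w hw) (wK w) Tz (hwK w hw) Tz_ne (sz_C w hw w)
      (sz_T w hw) (RR w hw) r) :=
  IsFractionRing.ringEquivOfRingEquiv_algebraMap _ _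

theorem sg_three (z : FF) : sg w hw (sg w hw (sg w hw z)) = z := by
  obtain ⟨x, y, hy, rfl⟩ := IsFractionRing.div_surjective (A := RR w hw) z
  have h3x : ∀ r : RR w hw, sg w hw (sg w hw (sg w hw (algebraMap (RR w hw) FF r))) =
      algebraMap (RR w hw) FF r := by
    intro r
    rw [sg_alg, sg_alg, sg_alg]
    exact congrArg _ (psiEquiv_three (sz w hw) (wK w) Tz (hwK w hw) Tz_ne (sz_C w hw w)
      (sz_T w hw) (RR w hw) (sz_three w hw) r)
  rw [map_div₀, map_div₀, map_div₀, h3x, h3x]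


/-! ### the elements -/

/-- the base point of the localized ring -/
noncomputable abbrev BB : Pt (RR w hw) := basePt (wK w) Tz (hwK w hw) (RR w hw)

/-- the element `p` -/
noncomputable def vp : FF := algebraMap ((RatFunc ℂ)[X][X]) FF (cc RatFunc.X)

/-- constants from `ℂ(p)` -/
noncomputable def vc (k : RatFunc ℂ) : FF := algebraMap ((RatFunc ℂ)[X][X]) FF (cc k)

/-- the cubic form -/
noncomputable def hX : FF := algebraMap ((RatFunc ℂ)[X][X]) FF
  (pX (cc (wK w)) (cc Tz) 1 X (C X))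
/-- the cubic form -/
noncomputable def hY : FF := algebraMap ((RatFunc ℂ)[X][X]) FF
  (pY (cc (wK w)) (cc Tz) 1 X (C X))
/-- the cubic form -/
noncomputable def hZ : FF := algebraMap ((RatFunc ℂ)[X][X]) FF
  (pZ (cc (wK w)) (cc Tz) 1 X (C X))
/-- the cubic form -/
noncomputable def hW : FF := algebraMap ((RatFunc ℂ)[X][X]) FF
  (pW (cc (wK w)) (cc Tz) 1 X (C X))

theorem alg_inj : Function.Injective (algebraMap ((RatFunc ℂ)[X][X]) FF) :=
  IsFractionRing.injective _ _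

theorem cc_inj : Function.Injective (cc : RatFunc ℂ →+* (RatFunc ℂ)[X][X]) :=
  RingHom.injective _

include hw in
theorem w_ne_one : w ≠ 1 := by
  rintro rfl
  norm_num at hw

include hw in
theorem pW_ne : pW (cc (wK w)) (cc Tz) 1 X (C X) ≠ (0 : (RatFunc ℂ)[X][X]) := by
  intro h
  have h1 := congrArg ((evalRingHom (1 : RatFunc ℂ)).comp
    (evalRingHom (0 : (RatFunc ℂ)[X]))) h
  rw [map_pW, map_one, map_zero] at h1
  have e1 : ∀ k : RatFunc ℂ, ((evalRingHom (1 : RatFunc ℂ)).comp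
    (evalRingHom (0 : (RatFunc ℂ)[X]))) (cc k) = k := by
    intro k; simp [cc]
  have e2 : ((evalRingHom (1 : RatFunc ℂ)).comp (evalRingHom (0 : (RatFunc ℂ)[X])))
    (X : (RatFunc ℂ)[X][X]) = 0 := by simp
  have e3 : ((evalRingHom (1 : RatFunc ℂ)).comp (evalRingHom (0 : (RatFunc ℂ)[X])))
    (C X : (RatFunc ℂ)[X][X]) = 1 := by simp
  rw [e1, e1, e2, e3] at h1
  have h2 : wK w * (1 - wK w) * (wK w * Tz) = 0 := by
    rw [← h1]; unfold pW; ring
  have hw0 : wK w ≠ 0 := (map_ne_zero_iff _ (RatFunc.C_injective)).2 (w_ne w hw)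
  have hw1 : 1 - wK w ≠ 0 := by
    intro h3
    have h4 : RatFunc.C (1 - w) = (0 : RatFunc ℂ) := by rw [map_sub, map_one]; exact h3
    have h5 := (map_eq_zero_iff _ (RatFunc.C_injective)).1 h4
    exact w_ne_one w hw (by linear_combination -h5)
  exact (mul_ne_zero (mul_ne_zero hw0 hw1) (mul_ne_zero hw0 Tz_ne)) h2

include hw in
theorem hW_ne : hW w ≠ 0 := (map_ne_zero_iff _ alg_inj).2 (pW_ne w hw)

theorem vp_ne : vp ≠ 0 :=
  (map_ne_zero_iff _ alg_inj).2 ((map_ne_zero_iff _ cc_inj).2 RatFunc.X_ne_zero)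

theorem vT_ne : vc Tz ≠ 0 :=
  (map_ne_zero_iff _ alg_inj).2 ((map_ne_zero_iff _ cc_inj).2 Tz_ne)

theorem vT_eq : vc Tz = vp ^ 3 - 1 := by
  unfold vc vp Tz
  rw [map_sub, map_pow, map_one, map_sub, map_pow, map_one]

/-- cube root of one in the field -/
noncomputable def vw : FF := vc (wK w)

include hw in
theorem ccw_eq : (cc (wK w) : (RatFunc ℂ)[X][X]) ^ 2 + cc (wK w) + 1 = 0 := by
  rw [← map_pow, ← map_add, ← map_one (cc : RatFunc ℂ →+* _), ← map_add, hwK w hw, map_zero]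

include hw in
theorem vw_eq : vw w ^ 2 + vw w + 1 = 0 := by
  have := congrArg (algebraMap ((RatFunc ℂ)[X][X]) FF) (ccw_eq w hw)
  simp only [map_add, map_pow, map_zero, map_one] at this
  exact this

include hw in
theorem cubic_F : vc Tz * hX w ^ 3 + vc Tz * hY w ^ 3 + hZ w ^ 3 + vc Tz ^ 2 * hW w ^ 3 = 0 := by
  have := congrArg (algebraMap ((RatFunc ℂ)[X][X]) FF) (cubic_eq (ccw_eq w hw) (cc Tz) 1 X (C X))
  simp only [map_add, map_mul, map_pow, map_zero] at this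
  exact this

include hw in
theorem f0_F : hZ w ^ 3 - vw w ^ 2 * vc Tz ^ 2 * hW w ^ 3 -
    (1 - vw w) * vc Tz * (hY w * hZ w * hW w) =
    algebraMap _ FF (gP0 (wK w) Tz) * algebraMap _ FF (gQ0 (wK w) Tz) := by
  have := congrArg (algebraMap ((RatFunc ℂ)[X][X]) FF) (f0_eq (ccw_eq w hw) (cc Tz) 1 X (C X))
  simp only [map_sub, map_mul, map_pow, map_one, one_mul] at this
  exact this


/-! ### action of the automorphism -/

/-- the factor `ω T N K g³` -/
noncomputable def kap : RR w hw := (BB w hw).g ^ 3 *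
  ((BB w hw).ω * (BB w hw).T * (BB w hw).N * (BB w hw).Kk)

theorem sg_pol (a : (RatFunc ℂ)[X][X]) : sg w hw (algebraMap _ FF a) =
    algebraMap (RR w hw) FF (rho (sz w hw) (wK w) Tz (hwK w hw) (RR w hw) a) :=
  sig_alg (sz w hw) (wK w) Tz (hwK w hw) Tz_ne (sz_C w hw w) (sz_T w hw) (RR w hw)
    (sg w hw) (sg_alg w hw) a

theorem sg_vc (k : RatFunc ℂ) : sg w hw (vc k) = vc (sz w hw k) := by
  unfold vc
  rw [sg_pol, rho_cc]
  rfl

theorem sg_vp : sg w hw vp = vw w * vp := by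
  change sg w hw (vc RatFunc.X) = vc (wK w) * vc RatFunc.X
  rw [sg_vc, sz_X]
  unfold vc
  rw [map_mul, map_mul]

theorem alg_BX : algebraMap (RR w hw) FF
    (pX (BB w hw).ω (BB w hw).T 1 (BB w hw).e1 (BB w hw).e2) = hX w := by
  have : pX (BB w hw).ω (BB w hw).T 1 (BB w hw).e1 (BB w hw).e2 =
      algebraMap _ (RR w hw) (pX (cc (wK w)) (cc Tz) 1 X (C X)) := by
    rw [map_pX, map_one]; rfl
  rw [this]; rfl

theorem alg_BY : algebraMap (RR w hw) FF
    (pY (BB w hw).ω (BB w hw).T 1 (BB w hw).e1 (BB w hw).e2) = hY w := by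
  have : pY (BB w hw).ω (BB w hw).T 1 (BB w hw).e1 (BB w hw).e2 =
      algebraMap _ (RR w hw) (pY (cc (wK w)) (cc Tz) 1 X (C X)) := by
    rw [map_pY, map_one]; rfl
  rw [this]; rfl

theorem alg_BZ : algebraMap (RR w hw) FF
    (pZ (BB w hw).ω (BB w hw).T 1 (BB w hw).e1 (BB w hw).e2) = hZ w := by
  have : pZ (BB w hw).ω (BB w hw).T 1 (BB w hw).e1 (BB w hw).e2 =
      algebraMap _ (RR w hw) (pZ (cc (wK w)) (cc Tz) 1 X (C X)) := by
    rw [map_pZ, map_one]; rfl
  rw [this]; rfl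

theorem alg_BW : algebraMap (RR w hw) FF
    (pW (BB w hw).ω (BB w hw).T 1 (BB w hw).e1 (BB w hw).e2) = hW w := by
  have : pW (BB w hw).ω (BB w hw).T 1 (BB w hw).e1 (BB w hw).e2 =
      algebraMap _ (RR w hw) (pW (cc (wK w)) (cc Tz) 1 X (C X)) := by
    rw [map_pW, map_one]; rfl
  rw [this]; rfl

theorem alg_Bω : algebraMap (RR w hw) FF (BB w hw).ω = vw w := rfl

theorem sg_hX : sg w hw (hX w) = algebraMap _ FF (kap w hw) * hX w := by
  unfold hX
  rw [sg_pol, map_pX, rho_ω (sz w hw) (wK w) Tz (hwK w hw) (sz_C w hw w),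
    rho_T (sz w hw) (wK w) Tz (hwK w hw) (sz_T w hw), map_one, rho_X, rho_CX, Pt.act_X]
  rw [map_mul, map_mul _ _ (pX _ _ _ _ _), alg_BX, ← mul_assoc, ← map_mul]
  rfl

theorem sg_hW : sg w hw (hW w) = algebraMap _ FF (kap w hw) * hW w := by
  unfold hW
  rw [sg_pol, map_pW, rho_ω (sz w hw) (wK w) Tz (hwK w hw) (sz_C w hw w),
    rho_T (sz w hw) (wK w) Tz (hwK w hw) (sz_T w hw), map_one, rho_X, rho_CX, Pt.act_W]
  rw [map_mul, map_mul _ _ (pW _ _ _ _ _), alg_BW, ← mul_assoc, ← map_mul]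
  rfl

theorem sg_hY : vw w * sg w hw (hY w) = algebraMap _ FF (kap w hw) * hY w := by
  unfold hY
  rw [sg_pol, map_pY, rho_ω (sz w hw) (wK w) Tz (hwK w hw) (sz_C w hw w),
    rho_T (sz w hw) (wK w) Tz (hwK w hw) (sz_T w hw), map_one, rho_X, rho_CX, Pt.act_Y]
  rw [map_mul, map_mul _ _ (pY _ _ _ _ _), alg_BY]
  change _ = algebraMap _ FF (kap w hw) * hY w
  unfold kap
  simp only [map_mul, map_pow, alg_Bω]
  ring

theorem sg_hZ : sg w hw (hZ w) = vw w * (algebraMap _ FF (kap w hw) * hZ w) := by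
  unfold hZ
  rw [sg_pol, map_pZ, rho_ω (sz w hw) (wK w) Tz (hwK w hw) (sz_C w hw w),
    rho_T (sz w hw) (wK w) Tz (hwK w hw) (sz_T w hw), map_one, rho_X, rho_CX, Pt.act_Z]
  rw [map_mul, map_mul _ _ (pZ _ _ _ _ _), alg_BZ]
  change _ = vw w * (algebraMap _ FF (kap w hw) * hZ w)
  unfold kap
  simp only [map_mul, map_pow, alg_Bω]
  ring

theorem kap_ne : algebraMap (RR w hw) FF (kap w hw) ≠ 0 := by
  have uω : IsUnit (BB w hw).ω := by
    have : IsUnit (cc (wK w) : (RatFunc ℂ)[X][X]) :=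
      (IsUnit.mk0 (wK w) ((map_ne_zero_iff _ (RatFunc.C_injective)).2 (w_ne w hw))).map cc
    exact this.map (algebraMap _ (RR w hw))
  have : IsUnit (kap w hw) :=
    ((isUnit_g (wK w) Tz (hwK w hw) (RR w hw)).pow 3).mul
      (((uω.mul (isUnit_T' (wK w) Tz (hwK w hw) (RR w hw) Tz_ne)).mul
        (isUnit_N (wK w) Tz (hwK w hw) (RR w hw))).mul
        (isUnit_K (wK w) Tz (hwK w hw) (RR w hw)))
  exact (this.map (algebraMap (RR w hw) FF)).ne_zero

/-- the parameter of the base -/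
noncomputable def et : FF := vp ^ 3
/-- affine coordinate of the cubic surface -/
noncomputable def ex : FF := hX w / hW w
/-- affine coordinate of the cubic surface -/
noncomputable def ey : FF := vp * hY w / hW w
/-- affine coordinate of the cubic surface -/
noncomputable def ez : FF := hZ w / (vp * hW w)

include hw in
theorem vw_cube : vw w ^ 3 = 1 := by linear_combination (vw w - 1) * vw_eq w hw

include hw in
theorem vw_ne : vw w ≠ 0 := by
  intro h
  have := vw_cube w hw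
  rw [h] at this
  norm_num at this

theorem sg_et : sg w hw et = et := by
  unfold et
  rw [map_pow, sg_vp, mul_pow, vw_cube w hw, one_mul]

theorem sg_ex : sg w hw (ex w) = ex w := by
  unfold ex
  rw [map_div₀, sg_hX, sg_hW, mul_div_mul_left _ _ (kap_ne w hw)]

theorem sg_ey : sg w hw (ey w) = ey w := by
  unfold ey
  rw [map_div₀, map_mul, sg_hW, sg_vp, mul_assoc, mul_left_comm, sg_hY, mul_left_comm,
    mul_div_mul_left _ _ (kap_ne w hw)]

theorem sg_ez : sg w hw (ez w) = ez w := by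
  unfold ez
  rw [map_div₀, map_mul, sg_hW, sg_vp, sg_hZ, mul_assoc, mul_div_mul_left _ _ (vw_ne w hw),
    mul_left_comm, mul_div_mul_left _ _ (kap_ne w hw)]

theorem et_ne : et ≠ 0 := pow_ne_zero _ vp_ne

theorem et_sub : et - 1 = vc Tz := vT_eq.symm

theorem et_ne_one : et ≠ 1 := by
  intro h
  have := vT_ne
  rw [← et_sub, h, sub_self] at this
  exact this rfl

include hw in
theorem surf : ex w ^ 3 + et⁻¹ * ey w ^ 3 + et / (et - 1) * ez w ^ 3 + (et - 1) = 0 := by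
  have h1 := vp_ne
  have h2 := hW_ne w hw
  have h3 := vT_ne
  have h := cubic_F w hw
  rw [et_sub]
  unfold ex ey ez et
  field_simp
  linear_combination h

/-- the second entry of the symbol -/
noncomputable def ef : FF := et / (et - 1) * ez w ^ 3 - vw w ^ 2 * (et - 1)
  - (1 - vw w) * (ey w * ez w)

include hw in
theorem ef_eq : ef w * (vc Tz * hW w ^ 3) =
    algebraMap _ FF (gP0 (wK w) Tz) * algebraMap _ FF (gQ0 (wK w) Tz) := by
  have h1 := vp_ne
  have h2 := hW_ne w hw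
  have h3 := vT_ne
  rw [← f0_F w hw]
  unfold ef
  rw [et_sub]
  unfold ey ez et
  field_simp

theorem ef_ne_norm (γ : FF) : ef w ≠ γ * sg w hw γ * sg w hw (sg w hw γ) := by
  obtain ⟨θ, η, hθ, hη⟩ := exists_roots w
  refine not_norm (sz w hw) (wK w) Tz (hwK w hw) three_ne Tz_ne (sz_C w hw w) (sz_T w hw)
    (sz_three w hw) (RR w hw) (sg w hw) (sg_alg w hw) (RatFunc.C θ) (root_C w hθ)
    (RatFunc.C η) (root_K w hη) (RatFunc.C : ℂ →+* RatFunc ℂ).fieldRange ⟨w, rfl⟩ ⟨θ, rfl⟩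
    ⟨η, rfl⟩ ?_ γ (ef w) (ef_eq w hw) (pW_ne w hw)
  rintro _ ⟨c, rfl⟩ hc b
  exact not_cube c (fun h => hc (by rw [h, map_zero])) b

end Field

end Pool.Agent.Work.MP_c5a777_ag
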