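import Pool.Agent.Work.MP_c5a777_ag.Main

/-!
The function field of the cubic surface bundle.
-/

open Polynomial

namespace Pool.Agent.Work.MP_c5a777_ag

section

variable (w : ℂ) (hw : w ^ 2 + w + 1 = 0)

theorem algC (z : ℂ) : algebraMap ℂ FF z = vc (RatFunc.C z) := by
  rw [IsScalarTower.algebraMap_apply ℂ ((RatFunc ℂ)[X][X]) FF]
  rfl

/-- the field generated by `t, x, y, z` -/
noncomputable def LL : IntermediateField ℂ FF :=
  IntermediateField.adjoin ℂ {et, ex w, ey w, ez w}

theorem et_mem : et ∈ LL w := IntermediateField.subset_adjoin _ _ (by simp)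
theorem ex_mem : ex w ∈ LL w := IntermediateField.subset_adjoin _ _ (by simp)
theorem ey_mem : ey w ∈ LL w := IntermediateField.subset_adjoin _ _ (by simp)
theorem ez_mem : ez w ∈ LL w := IntermediateField.subset_adjoin _ _ (by simp)

theorem sg_C (z : ℂ) : sg w hw (algebraMap ℂ FF z) = algebraMap ℂ FF z := by
  rw [algC, sg_vc, sz_C]

theorem sg_fix (l : FF) (hl : l ∈ LL w) : sg w hw l = l := by
  unfold LL at hl
  induction hl using IntermediateField.adjoin_induction with
  | mem x hx =>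
    simp only [Set.mem_insert_iff, Set.mem_singleton_iff] at hx
    rcases hx with rfl | rfl | rfl | rfl
    · exact sg_et w hw
    · exact sg_ex w hw
    · exact sg_ey w hw
    · exact sg_ez w hw
  | algebraMap x => exact sg_C w hw x
  | add x y hx hy h1 h2 => rw [map_add, h1, h2]
  | inv x hx h1 => rw [map_inv₀, h1]
  | mul x y hx hy h1 h2 => rw [map_mul, h1, h2]

/-- the automorphism over `L` -/
noncomputable def sgL : FF ≃ₐ[LL w] FF :=
  AlgEquiv.ofRingEquiv (f := sg w hw) (fun l => sg_fix w hw l l.2)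

theorem sgL_apply (z : FF) : sgL w hw z = sg w hw z := rfl


/-! ### algebraicity of the big field over `L` -/

/-- first coordinate of the plane -/
noncomputable def v1 : FF := algebraMap ((RatFunc ℂ)[X][X]) FF X
/-- second coordinate of the plane -/
noncomputable def v2 : FF := algebraMap ((RatFunc ℂ)[X][X]) FF (C X)

/-- common denominator of the inverse formulas -/
noncomputable def hE : FF := hX w ^ 2 - hX w * hY w + hY w ^ 2 - vw w * hZ w * hW w

include hw in
theorem inv1_F : vc Tz * v1 * hE w =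
    hZ w ^ 2 - vc Tz * hX w * hW w - vw w ^ 2 * vc Tz * hY w * hW w := by
  have := congrArg (algebraMap ((RatFunc ℂ)[X][X]) FF) (inv1_eq (ccw_eq w hw) (cc Tz) 1 X (C X))
  simp only [map_sub, map_add, map_mul, map_pow, map_one, one_mul] at this
  exact this

include hw in
theorem inv2_F : vc Tz * v2 * hE w =
    -hX w * hZ w - vw w * hY w * hZ w + vw w * vc Tz * hW w ^ 2 := by
  have := congrArg (algebraMap ((RatFunc ℂ)[X][X]) FF) (inv2_eq (ccw_eq w hw) (cc Tz) 1 X (C X))
  simp only [map_sub, map_add, map_mul, map_pow, map_one, one_mul, map_neg] at this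
  exact this

theorem hE_ne : hE w ≠ 0 := by
  set k := cc (wK w) with hk
  have h : hE w = algebraMap ((RatFunc ℂ)[X][X]) FF
      (pX k (cc Tz) 1 X (C X) ^ 2 - pX k (cc Tz) 1 X (C X) * pY k (cc Tz) 1 X (C X) +
        pY k (cc Tz) 1 X (C X) ^ 2 - k * pZ k (cc Tz) 1 X (C X) * pW k (cc Tz) 1 X (C X)) := by
    simp only [map_sub, map_add, map_mul, map_pow]
    rfl
  rw [h]
  refine (map_ne_zero_iff _ alg_inj).2 ?_
  intro h0
  have h1 := congrArg ((evalRingHom (0 : RatFunc ℂ)).comp
    (evalRingHom (0 : (RatFunc ℂ)[X]))) h0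
  simp only [map_sub, map_add, map_mul, map_pow, map_zero, map_pX, map_pY, map_pZ, map_pW,
    map_one] at h1
  have e1 : ∀ k : RatFunc ℂ, ((evalRingHom (0 : RatFunc ℂ)).comp
    (evalRingHom (0 : (RatFunc ℂ)[X]))) (cc k) = k := by
    intro k; simp [cc]
  have e2 : ((evalRingHom (0 : RatFunc ℂ)).comp (evalRingHom (0 : (RatFunc ℂ)[X])))
    (X : (RatFunc ℂ)[X][X]) = 0 := by simp
  have e3 : ((evalRingHom (0 : RatFunc ℂ)).comp (evalRingHom (0 : (RatFunc ℂ)[X])))
    (C X : (RatFunc ℂ)[X][X]) = 0 := by simp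
  rw [hk, e1, e1, e2, e3] at h1
  have h2 : (3 : RatFunc ℂ) = 0 := by
    rw [← h1]; unfold pX pY pZ pW; ring
  exact three_ne h2

/-- the elements algebraic over `L` -/
noncomputable abbrev MM : IntermediateField (LL w) FF := algebraicClosure (LL w) FF

theorem mem_MM_of_mem {z : FF} (hz : z ∈ LL w) : z ∈ MM w :=
  (MM w).algebraMap_mem ⟨z, hz⟩

theorem C_mem_MM (z : ℂ) : vc (RatFunc.C z) ∈ MM w := by
  rw [← algC]
  exact mem_MM_of_mem w ((LL w).algebraMap_mem z)

theorem vp_mem_MM : vp ∈ MM w := by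
  have h1 : IsAlgebraic (LL w) (vp ^ 3) := by
    have := isAlgebraic_algebraMap (R := LL w) (A := FF) ⟨et, et_mem w⟩
    exact this
  rw [mem_algebraicClosure_iff]
  exact IsAlgebraic.of_pow (by norm_num) h1

theorem poly_mem_MM (q : ℂ[X]) : vc (algebraMap ℂ[X] (RatFunc ℂ) q) ∈ MM w := by
  induction q using Polynomial.induction_on' with
  | add p q hp hq =>
    have : vc (algebraMap ℂ[X] (RatFunc ℂ) (p + q)) =
        vc (algebraMap ℂ[X] (RatFunc ℂ) p) + vc (algebraMap ℂ[X] (RatFunc ℂ) q) := by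
      unfold vc; rw [map_add, map_add, map_add]
    rw [this]
    exact add_mem hp hq
  | monomial n a =>
    have : vc (algebraMap ℂ[X] (RatFunc ℂ) (monomial n a)) = vc (RatFunc.C a) * vp ^ n := by
      unfold vc vp
      rw [← C_mul_X_pow_eq_monomial, map_mul, map_pow, RatFunc.algebraMap_C,
        RatFunc.algebraMap_X, map_mul, map_mul, map_pow, map_pow]
    rw [this]
    exact mul_mem (C_mem_MM w a) (pow_mem (vp_mem_MM w) n)

theorem vc_mem_MM (k : RatFunc ℂ) : vc k ∈ MM w := by
  obtain ⟨x, y, hy, rfl⟩ := IsFractionRing.div_surjective (A := ℂ[X]) k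
  have : vc (algebraMap ℂ[X] (RatFunc ℂ) x / algebraMap ℂ[X] (RatFunc ℂ) y) =
      vc (algebraMap ℂ[X] (RatFunc ℂ) x) / vc (algebraMap ℂ[X] (RatFunc ℂ) y) := by
    unfold vc
    exact map_div₀ ((algebraMap ((RatFunc ℂ)[X][X]) FF).comp cc) _ _
  rw [this]
  exact div_mem (poly_mem_MM w x) (poly_mem_MM w y)

include hw in
theorem ratio_mem : hX w / hW w ∈ MM w ∧ hY w / hW w ∈ MM w ∧ hZ w / hW w ∈ MM w := by
  refine ⟨mem_MM_of_mem w (ex_mem w), ?_, ?_⟩
  · have h : hY w / hW w = ey w / vp := by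
      unfold ey
      rw [mul_div_assoc, mul_div_cancel_left₀ _ vp_ne]
    rw [h]
    exact div_mem (mem_MM_of_mem w (ey_mem w)) (vp_mem_MM w)
  · have h : hZ w / hW w = ez w * vp := by
      have h1 := vp_ne
      have h2 := hW_ne w hw
      unfold ez
      field_simp
    rw [h]
    exact mul_mem (mem_MM_of_mem w (ez_mem w)) (vp_mem_MM w)

include hw in
theorem v1_mem_MM : v1 ∈ MM w := by
  obtain ⟨hx, hy, hz⟩ := ratio_mem w hw
  have h2 := hW_ne w hw
  have h3 := vT_ne
  have h4 := hE_ne w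
  have hv : v1 = ((hZ w / hW w) ^ 2 - vc Tz * (hX w / hW w) -
      vw w ^ 2 * vc Tz * (hY w / hW w)) / (vc Tz * ((hX w / hW w) ^ 2 -
      (hX w / hW w) * (hY w / hW w) + (hY w / hW w) ^ 2 - vw w * (hZ w / hW w))) := by
    have hd : (hX w / hW w) ^ 2 -
      (hX w / hW w) * (hY w / hW w) + (hY w / hW w) ^ 2 - vw w * (hZ w / hW w) =
      hE w / hW w ^ 2 := by
      unfold hE
      field_simp
    rw [hd, eq_div_iff (mul_ne_zero h3 (div_ne_zero h4 (pow_ne_zero 2 h2)))]
    have := inv1_F w hw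
    field_simp
    linear_combination this
  rw [hv]
  have hT := vc_mem_MM w Tz
  have hwm : vw w ∈ MM w := vc_mem_MM w _
  exact div_mem (sub_mem (sub_mem (pow_mem hz 2) (mul_mem hT hx))
    (mul_mem (mul_mem (pow_mem hwm 2) hT) hy))
    (mul_mem hT (sub_mem (add_mem (sub_mem (pow_mem hx 2) (mul_mem hx hy)) (pow_mem hy 2))
      (mul_mem hwm hz)))

include hw in
theorem v2_mem_MM : v2 ∈ MM w := by
  obtain ⟨hx, hy, hz⟩ := ratio_mem w hw
  have h2 := hW_ne w hw
  have h3 := vT_ne
  have h4 := hE_ne w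
  have hv : v2 = (-(hX w / hW w) * (hZ w / hW w) - vw w * (hY w / hW w) * (hZ w / hW w) +
      vw w * vc Tz) / (vc Tz * ((hX w / hW w) ^ 2 -
      (hX w / hW w) * (hY w / hW w) + (hY w / hW w) ^ 2 - vw w * (hZ w / hW w))) := by
    have hd : (hX w / hW w) ^ 2 -
      (hX w / hW w) * (hY w / hW w) + (hY w / hW w) ^ 2 - vw w * (hZ w / hW w) =
      hE w / hW w ^ 2 := by
      unfold hE
      field_simp
    rw [hd, eq_div_iff (mul_ne_zero h3 (div_ne_zero h4 (pow_ne_zero 2 h2)))]
    have := inv2_F w hw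
    field_simp
    linear_combination this
  rw [hv]
  have hT := vc_mem_MM w Tz
  have hwm : vw w ∈ MM w := vc_mem_MM w _
  exact div_mem (add_mem (sub_mem (mul_mem (neg_mem hx) hz) (mul_mem (mul_mem hwm hy) hz))
    (mul_mem hwm hT))
    (mul_mem hT (sub_mem (add_mem (sub_mem (pow_mem hx 2) (mul_mem hx hy)) (pow_mem hy 2))
      (mul_mem hwm hz)))

include hw in
theorem pol_mem_MM (a : (RatFunc ℂ)[X][X]) : algebraMap _ FF a ∈ MM w := by
  induction a using Polynomial.induction_on' with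
  | add p q hp hq => rw [map_add]; exact add_mem hp hq
  | monomial n p =>
    rw [← C_mul_X_pow_eq_monomial, map_mul, map_pow]
    refine mul_mem ?_ (pow_mem (v1_mem_MM w hw) n)
    induction p using Polynomial.induction_on' with
    | add p q hp hq => rw [map_add, map_add]; exact add_mem hp hq
    | monomial m k =>
      rw [← C_mul_X_pow_eq_monomial, map_mul, map_pow, map_mul, map_pow]
      exact mul_mem (vc_mem_MM w k) (pow_mem (v2_mem_MM w hw) m)

include hw in
theorem isAlg : Algebra.IsAlgebraic (LL w) FF := by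
  constructor
  intro z
  obtain ⟨x, y, hy, rfl⟩ := IsFractionRing.div_surjective (A := (RatFunc ℂ)[X][X]) z
  rw [← mem_algebraicClosure_iff]
  exact div_mem (pol_mem_MM w hw x) (pol_mem_MM w hw y)

include hw in
theorem trdeg_LL : Algebra.trdeg ℂ (LL w) = 3 :=
  haveI := isAlg w hw
  trdeg_three_sub (LL w)

end

end Pool.Agent.Work.MP_c5a777_ag
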