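import Pool.Agent.Work.MP_c5a777_ag.Defs

/-!
The automorphism of order three of the localized polynomial ring.
-/

open Polynomial

namespace Pool.Agent.Work.MP_c5a777_ag

section Map

variable {R S : Type*} [CommRing R] [CommRing S] (f : R →+* S)

theorem map_pP0 (ω T e0 e1 e2 : R) :
    f (pP0 ω T e0 e1 e2) = pP0 (f ω) (f T) (f e0) (f e1) (f e2) := by
  simp [pP0, map_ofNat]

theorem map_pP1 (ω T e0 e1 e2 : R) :
    f (pP1 ω T e0 e1 e2) = pP1 (f ω) (f T) (f e0) (f e1) (f e2) := by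
  simp [pP1, map_ofNat]

theorem map_pP2 (ω T e0 e1 e2 : R) :
    f (pP2 ω T e0 e1 e2) = pP2 (f ω) (f T) (f e0) (f e1) (f e2) := by
  simp [pP2, map_ofNat]

theorem map_pQ0 (ω T e0 e1 e2 : R) :
    f (pQ0 ω T e0 e1 e2) = pQ0 (f ω) (f T) (f e0) (f e1) (f e2) := by
  simp [pQ0, map_ofNat]

theorem map_pQ1 (ω T e0 e1 e2 : R) :
    f (pQ1 ω T e0 e1 e2) = pQ1 (f ω) (f T) (f e0) (f e1) (f e2) := by
  simp [pQ1, map_ofNat]

theorem map_pQ2 (ω T e0 e1 e2 : R) :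
    f (pQ2 ω T e0 e1 e2) = pQ2 (f ω) (f T) (f e0) (f e1) (f e2) := by
  simp [pQ2, map_ofNat]

theorem map_pN (T e0 e1 e2 : R) :
    f (pN T e0 e1 e2) = pN (f T) (f e0) (f e1) (f e2) := by
  simp [pN, map_ofNat]

theorem map_pC (ω T e0 e1 e2 : R) :
    f (pC ω T e0 e1 e2) = pC (f ω) (f T) (f e0) (f e1) (f e2) := by
  simp [pC, map_ofNat]

theorem map_pK (ω T e0 e1 e2 : R) :
    f (pK ω T e0 e1 e2) = pK (f ω) (f T) (f e0) (f e1) (f e2) := by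
  simp [pK, map_ofNat]

theorem map_pT (ω T e0 e1 e2 : R) :
    f (pT ω T e0 e1 e2) = pT (f ω) (f T) (f e0) (f e1) (f e2) := by
  simp [pT, map_ofNat]

theorem map_pX (ω T e0 e1 e2 : R) :
    f (pX ω T e0 e1 e2) = pX (f ω) (f T) (f e0) (f e1) (f e2) := by
  simp [pX, map_ofNat]

theorem map_pY (ω T e0 e1 e2 : R) :
    f (pY ω T e0 e1 e2) = pY (f ω) (f T) (f e0) (f e1) (f e2) := by
  simp [pY, map_ofNat]

theorem map_pZ (ω T e0 e1 e2 : R) :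
    f (pZ ω T e0 e1 e2) = pZ (f ω) (f T) (f e0) (f e1) (f e2) := by
  simp [pZ, map_ofNat]

theorem map_pW (ω T e0 e1 e2 : R) :
    f (pW ω T e0 e1 e2) = pW (f ω) (f T) (f e0) (f e1) (f e2) := by
  simp [pW, map_ofNat]

end Map

section Hom

variable {R : Type*} [CommRing R] (ω T g e0 e1 e2 : R)

theorem pP0_smul : pP0 ω T (e0 * g) (e1 * g) (e2 * g) = g ^ 4 * pP0 ω T e0 e1 e2 := by
  simp only [pP0]; ring

theorem pP1_smul : pP1 ω T (e0 * g) (e1 * g) (e2 * g) = g ^ 4 * pP1 ω T e0 e1 e2 := by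
  simp only [pP1]; ring

theorem pP2_smul : pP2 ω T (e0 * g) (e1 * g) (e2 * g) = g ^ 4 * pP2 ω T e0 e1 e2 := by
  simp only [pP2]; ring

theorem pQ0_smul : pQ0 ω T (e0 * g) (e1 * g) (e2 * g) = g ^ 4 * pQ0 ω T e0 e1 e2 := by
  simp only [pQ0]; ring

theorem pQ1_smul : pQ1 ω T (e0 * g) (e1 * g) (e2 * g) = g ^ 4 * pQ1 ω T e0 e1 e2 := by
  simp only [pQ1]; ring

theorem pQ2_smul : pQ2 ω T (e0 * g) (e1 * g) (e2 * g) = g ^ 4 * pQ2 ω T e0 e1 e2 := by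
  simp only [pQ2]; ring

theorem pN_smul : pN T (e0 * g) (e1 * g) (e2 * g) = g ^ 3 * pN T e0 e1 e2 := by
  simp only [pN]; ring

theorem pC_smul : pC ω T (e0 * g) (e1 * g) (e2 * g) = g ^ 6 * pC ω T e0 e1 e2 := by
  simp only [pC]; ring

theorem pK_smul : pK ω T (e0 * g) (e1 * g) (e2 * g) = g ^ 6 * pK ω T e0 e1 e2 := by
  simp only [pK]; ring

theorem pT_smul : pT ω T (e0 * g) (e1 * g) (e2 * g) = g ^ 3 * pT ω T e0 e1 e2 := by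
  simp only [pT]; ring

theorem pX_smul : pX ω T (e0 * g) (e1 * g) (e2 * g) = g ^ 3 * pX ω T e0 e1 e2 := by
  simp only [pX]; ring

theorem pY_smul : pY ω T (e0 * g) (e1 * g) (e2 * g) = g ^ 3 * pY ω T e0 e1 e2 := by
  simp only [pY]; ring

theorem pZ_smul : pZ ω T (e0 * g) (e1 * g) (e2 * g) = g ^ 3 * pZ ω T e0 e1 e2 := by
  simp only [pZ]; ring

theorem pW_smul : pW ω T (e0 * g) (e1 * g) (e2 * g) = g ^ 3 * pW ω T e0 e1 e2 := by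
  simp only [pW]; ring

end Hom

/-- Data of a point `(1 : e1 : e2)` in a ring at which `pP0` is invertible with inverse `g`. -/
structure Pt (S : Type*) [CommRing S] where
  /-- a primitive cube root of one -/
  ω : S
  /-- the parameter -/
  T : S
  /-- coordinate -/
  e1 : S
  /-- coordinate -/
  e2 : S
  /-- inverse -/
  g : S
  hω : ω ^ 2 + ω + 1 = 0
  hg : pP0 ω T 1 e1 e2 * g = 1

namespace Pt

variable {S : Type*} [CommRing S] (P : Pt S)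

/-- first coordinate of the image point -/
def x : S := pP1 P.ω P.T 1 P.e1 P.e2 * P.g
/-- second coordinate of the image point -/
def y : S := pP2 P.ω P.T 1 P.e1 P.e2 * P.g

/-- value of the polynomial -/
def N : S := pN P.T 1 P.e1 P.e2
/-- value of the polynomial -/
def Cc : S := pC P.ω P.T 1 P.e1 P.e2
/-- value of the polynomial -/
def Kk : S := pK P.ω P.T 1 P.e1 P.e2
/-- value of the polynomial -/
def Tt : S := pT P.ω P.T 1 P.e1 P.e2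
/-- value of the polynomial -/
def P0 : S := pP0 P.ω P.T 1 P.e1 P.e2
/-- value of the polynomial -/
def P1 : S := pP1 P.ω P.T 1 P.e1 P.e2
/-- value of the polynomial -/
def P2 : S := pP2 P.ω P.T 1 P.e1 P.e2
/-- value of the polynomial -/
def Q0 : S := pQ0 P.ω P.T 1 P.e1 P.e2
/-- value of the polynomial -/
def Q1 : S := pQ1 P.ω P.T 1 P.e1 P.e2
/-- value of the polynomial -/
def Q2 : S := pQ2 P.ω P.T 1 P.e1 P.e2

theorem hg' : P.P0 * P.g = 1 := P.hg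

theorem act_P0 : pP0 P.ω P.T 1 P.x P.y = P.g ^ 4 * (P.T * P.N ^ 2 * P.Kk * P.Q0) := by
  have h := pP0_smul P.ω P.T P.g P.P0 P.P1 P.P2
  rw [P.hg'] at h
  change pP0 P.ω P.T 1 P.x P.y = _ at h
  rw [h]
  have h2 := pP0_P P.hω P.T 1 P.e1 P.e2
  change pP0 P.ω P.T P.P0 P.P1 P.P2 = _ at h2
  rw [h2]; rfl

theorem act_P1 : pP1 P.ω P.T 1 P.x P.y = P.g ^ 4 * (P.T * P.N ^ 2 * P.Kk * P.Q1) := by
  have h := pP1_smul P.ω P.T P.g P.P0 P.P1 P.P2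
  rw [P.hg'] at h
  change pP1 P.ω P.T 1 P.x P.y = _ at h
  rw [h]
  have h2 := pP1_P P.hω P.T 1 P.e1 P.e2
  change pP1 P.ω P.T P.P0 P.P1 P.P2 = _ at h2
  rw [h2]; rfl

theorem act_P2 : pP2 P.ω P.T 1 P.x P.y = P.g ^ 4 * (P.T * P.N ^ 2 * P.Kk * P.Q2) := by
  have h := pP2_smul P.ω P.T P.g P.P0 P.P1 P.P2
  rw [P.hg'] at h
  change pP2 P.ω P.T 1 P.x P.y = _ at h
  rw [h]
  have h2 := pP2_P P.hω P.T 1 P.e1 P.e2
  change pP2 P.ω P.T P.P0 P.P1 P.P2 = _ at h2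
  rw [h2]; rfl

theorem act_Q0 : pQ0 P.ω P.T 1 P.x P.y = P.g ^ 4 * (P.T ^ 2 * P.N * P.Kk ^ 2) := by
  have h := pQ0_smul P.ω P.T P.g P.P0 P.P1 P.P2
  rw [P.hg'] at h
  change pQ0 P.ω P.T 1 P.x P.y = _ at h
  rw [h]
  have h2 := pQ0_P P.hω P.T 1 P.e1 P.e2
  change pQ0 P.ω P.T P.P0 P.P1 P.P2 = _ at h2
  rw [h2, mul_one]; rfl

theorem act_Q1 : pQ1 P.ω P.T 1 P.x P.y = P.g ^ 4 * (P.T ^ 2 * P.N * P.Kk ^ 2 * P.e1) := by
  have h := pQ1_smul P.ω P.T P.g P.P0 P.P1 P.P2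
  rw [P.hg'] at h
  change pQ1 P.ω P.T 1 P.x P.y = _ at h
  rw [h]
  have h2 := pQ1_P P.hω P.T 1 P.e1 P.e2
  change pQ1 P.ω P.T P.P0 P.P1 P.P2 = _ at h2
  rw [h2]; rfl

theorem act_Q2 : pQ2 P.ω P.T 1 P.x P.y = P.g ^ 4 * (P.T ^ 2 * P.N * P.Kk ^ 2 * P.e2) := by
  have h := pQ2_smul P.ω P.T P.g P.P0 P.P1 P.P2
  rw [P.hg'] at h
  change pQ2 P.ω P.T 1 P.x P.y = _ at h
  rw [h]
  have h2 := pQ2_P P.hω P.T 1 P.e1 P.e2
  change pQ2 P.ω P.T P.P0 P.P1 P.P2 = _ at h2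
  rw [h2]; rfl

theorem act_N : pN P.T 1 P.x P.y = P.g ^ 3 * (P.T * P.N ^ 2 * P.Cc) := by
  have h := pN_smul P.T P.g P.P0 P.P1 P.P2
  rw [P.hg'] at h
  change pN P.T 1 P.x P.y = _ at h
  rw [h]
  have h2 := pN_P P.hω P.T 1 P.e1 P.e2
  change pN P.T P.P0 P.P1 P.P2 = _ at h2
  rw [h2]; rfl

theorem act_T : pT P.ω P.T 1 P.x P.y = P.g ^ 3 * (-P.T * P.Kk ^ 2) := by
  have h := pT_smul P.ω P.T P.g P.P0 P.P1 P.P2
  rw [P.hg'] at h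
  change pT P.ω P.T 1 P.x P.y = _ at h
  rw [h]
  have h2 := pT_P P.hω P.T 1 P.e1 P.e2
  change pT P.ω P.T P.P0 P.P1 P.P2 = _ at h2
  rw [h2]; rfl

theorem act_C [IsDomain S] (hT : P.T ≠ 0) (hN : P.N ≠ 0) (hC : P.Cc ≠ 0) :
    pC P.ω P.T 1 P.x P.y = P.g ^ 6 * (P.T ^ 2 * P.N ^ 2 * P.Kk ^ 3) := by
  have h := pC_smul P.ω P.T P.g P.P0 P.P1 P.P2
  rw [P.hg'] at h
  change pC P.ω P.T 1 P.x P.y = _ at h
  rw [h]
  have h2 := pC_P P.hω (e0 := 1) (e1 := P.e1) (e2 := P.e2) hT hN hC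
  change pC P.ω P.T P.P0 P.P1 P.P2 = _ at h2
  rw [h2]; rfl

theorem act_K [IsDomain S] (hT : P.T ≠ 0) (hN : P.N ≠ 0) (hC : P.Cc ≠ 0) :
    pK P.ω P.T 1 P.x P.y = P.g ^ 6 * (-P.T ^ 2 * P.N ^ 3 * P.Kk ^ 2 * P.Tt) := by
  have h := pK_smul P.ω P.T P.g P.P0 P.P1 P.P2
  rw [P.hg'] at h
  change pK P.ω P.T 1 P.x P.y = _ at h
  rw [h]
  have h2 := pK_P P.hω (e0 := 1) (e1 := P.e1) (e2 := P.e2) hT hN hC
  change pK P.ω P.T P.P0 P.P1 P.P2 = _ at h2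
  rw [h2]; rfl

theorem act_X : pX P.ω P.T 1 P.x P.y =
    P.g ^ 3 * (P.ω * P.T * P.N * P.Kk * pX P.ω P.T 1 P.e1 P.e2) := by
  have h := pX_smul P.ω P.T P.g P.P0 P.P1 P.P2
  rw [P.hg'] at h
  change pX P.ω P.T 1 P.x P.y = _ at h
  rw [h]
  have h2 := pX_P P.hω P.T 1 P.e1 P.e2
  change pX P.ω P.T P.P0 P.P1 P.P2 = _ at h2
  rw [h2]; rfl

theorem act_Y : pY P.ω P.T 1 P.x P.y =
    P.g ^ 3 * (P.T * P.N * P.Kk * pY P.ω P.T 1 P.e1 P.e2) := by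
  have h := pY_smul P.ω P.T P.g P.P0 P.P1 P.P2
  rw [P.hg'] at h
  change pY P.ω P.T 1 P.x P.y = _ at h
  rw [h]
  have h2 := pY_P P.hω P.T 1 P.e1 P.e2
  change pY P.ω P.T P.P0 P.P1 P.P2 = _ at h2
  rw [h2]; rfl

theorem act_Z : pZ P.ω P.T 1 P.x P.y =
    P.g ^ 3 * (P.ω ^ 2 * P.T * P.N * P.Kk * pZ P.ω P.T 1 P.e1 P.e2) := by
  have h := pZ_smul P.ω P.T P.g P.P0 P.P1 P.P2
  rw [P.hg'] at h
  change pZ P.ω P.T 1 P.x P.y = _ at h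
  rw [h]
  have h2 := pZ_P P.hω P.T 1 P.e1 P.e2
  change pZ P.ω P.T P.P0 P.P1 P.P2 = _ at h2
  rw [h2]; rfl

theorem act_W : pW P.ω P.T 1 P.x P.y =
    P.g ^ 3 * (P.ω * P.T * P.N * P.Kk * pW P.ω P.T 1 P.e1 P.e2) := by
  have h := pW_smul P.ω P.T P.g P.P0 P.P1 P.P2
  rw [P.hg'] at h
  change pW P.ω P.T 1 P.x P.y = _ at h
  rw [h]
  have h2 := pW_P P.hω P.T 1 P.e1 P.e2
  change pW P.ω P.T P.P0 P.P1 P.P2 = _ at h2
  rw [h2]; rfl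

end Pt

end Pool.Agent.Work.MP_c5a777_ag
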